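import Mathlib
import Pool.Agent.H35.W.Couple
import Pool.Agent.H50.W.Plates

set_option autoImplicit false
open Finset

/-! # Colour flip of a coin model (route W, E10)

`PB_compl` : all colours flipped. `PB_du` : the dual configuration `du F ω = (F \ ω) + (1, 1)` has the law
of the same coin model on the shifted labels. -/

namespace Pool.Agent.H82.W

open Pool.Agent.H75.Perc hiding WL CT hh PB
open Pool.Agent.H75.TwoArm
open Pool.Agent.H58.W Pool.Agent.H50.W Pool.Agent.H35.W Pool.Agent.H33.Q1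
open Pool.Agent.Q1.M4 (Cell)

variable {α β γ : Type*} [DecidableEq α] [DecidableEq β] [DecidableEq γ]

/-- all colours flipped -/
theorem PB_compl (F : Finset α) (b : α → β) (A : Finset α → Prop) :
    PB F b (fun ω => A (F \ ω)) = PB F b A := by
  rw [← PB_flip (E := F) (F := F) (b := b) subset_rfl (fun _ _ l' hl' _ => hl') A]
  refine PB_congr fun ω hω => ?_
  have : symmDiff ω F = F \ ω := by
    ext x
    rw [mem_symmDiff, mem_sdiff]
    constructor
    · rintro (⟨h1, h2⟩ | h)
      · exact absurd (hω h1) h2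
      · exact h
    · exact fun h => Or.inr h
  rw [this]

/-- **The dual configuration**: `b' (e + (1,1)) = b e` on `F`. -/
theorem PB_du {β' : Type*} [DecidableEq β'] (F : Finset (ℤ × ℤ)) (b : ℤ × ℤ → β)
    (b' : ℤ × ℤ → β') (hb : ∀ e ∈ F, ∀ e' ∈ F, b e = b e' ↔ b' (sh1 e) = b' (sh1 e'))
    (A : Finset (ℤ × ℤ) → Prop) :
    PB F b (fun ω => A (du F ω)) = PB (F.map sh1) b' A := by
  rw [PB_map sh1 F b' A, ← PB_blocks (b := b) (b' := fun x => b' (sh1 x)) hb]
  rw [← PB_compl F b (fun ω => A (ω.map sh1))]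
  rfl

/-- the tile coordinates of a shifted label: one tile to the right -/
lemma tt_sh1 (e : ℤ × ℤ) : tt (sh1 e) = ((tt e).1 + 1, (tt e).2) := by
  have e5 : (sh1 e).1 = e.1 + 1 := rfl
  have e6 : (sh1 e).2 = e.2 + 1 := rfl
  unfold tt
  rw [e5, e6]
  refine Prod.ext ?_ ?_ <;> simp only <;> omega

end Pool.Agent.H82.W
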