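import Mathlib
import Pool.Agent.H13.W.Move

set_option autoImplicit false
open Finset

/-! # The strip move and a block with one exit: all connections agree

World 2 contains a set `I` of corners with one exit `b`. `Img c c'` : `c'` is the image of the corner `c` of
world 1 outside `I`, or `c` is a corner at the labels of `Bl` and `c'` is joined to the exit.
`StripMove.conn` : corners which are joined in world 1 have joined images in world 2 (any corners: ends or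
not). `StripMove.pat` : the same link pattern of a family of ends. -/

namespace Pool.Agent.H82.W

open Pool.Agent.H75.Perc Pool.Agent.H75.TwoArm Pool.Agent.H99.W Pool.Agent.H13.W

section graph
variable {α : Type*} {G : SimpleGraph α} {I : Set α} {b : α}

open Classical in
/-- contraction of `I` to the exit `b` -/
noncomputable def ctr (I : Set α) (b : α) (c : α) : α := if c ∈ I then b else c

lemma ctr_in {c : α} (h : c ∈ I) : ctr I b c = b := by unfold ctr; rw [if_pos h]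

lemma ctr_out {c : α} (h : c ∉ I) : ctr I b c = c := by unfold ctr; rw [if_neg h]

/-- joined corners are joined outside `I` after the contraction -/
lemma off_ctr (hI : ∀ u v, u ∈ I → v ∉ I → G.Adj u v → v = b) {c d : α} (h : G.Reachable c d) :
    (off G I).Reachable (ctr I b c) (ctr I b d) := by
  obtain ⟨p⟩ := h
  induction p with
  | nil => exact SimpleGraph.Reachable.refl _
  | @cons u v w ha _ ih =>
    refine SimpleGraph.Reachable.trans ?_ ih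
    by_cases hu : u ∈ I
    · rw [ctr_in hu]
      by_cases hv : v ∈ I
      · rw [ctr_in hv]
      · rw [ctr_out hv, hI u v hu hv ha]
    · rw [ctr_out hu]
      by_cases hv : v ∈ I
      · rw [ctr_in hv, hI v u hv hu ha.symm]
      · rw [ctr_out hv]
        have h2 : (off G I).Adj u v := ⟨ha, hu, hv⟩
        exact h2.reachable

lemma reach_of_off {c d : α} (h : (off G I).Reachable c d) : G.Reachable c d :=
  h.mono (off_le G I)

/-- a corner of `I` which is joined to a corner outside is joined to the exit -/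
lemma reach_exit (hI : ∀ u v, u ∈ I → v ∉ I → G.Adj u v → v = b) {c d : α} (hc : c ∈ I)
    (hd : d ∉ I) (h : G.Reachable c d) : G.Reachable c b := by
  have h1 := off_ctr hI h
  rw [ctr_in hc, ctr_out hd] at h1
  exact h.trans (reach_of_off h1).symm

/-- **Patterns of ends**: a map of a family of ends which keeps connections keeps the pattern. -/
theorem pat_of_conn {β ι : Type*} {G1 : SimpleGraph β} {G2 : SimpleGraph α} (hd : Deg2 G2)
    {xs : ι → β} {ys : ι → α} (hinj : Function.Injective ys) (he : ∀ i, IsEnd G2 (ys i))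
    (hc : ∀ i j, G1.Reachable (xs i) (xs j) → G2.Reachable (ys i) (ys j))
    (ht : ∀ i, ∃ j, j ≠ i ∧ G1.Reachable (xs i) (xs j)) (i j : ι) :
    G1.Reachable (xs i) (xs j) ↔ G2.Reachable (ys i) (ys j) := by
  refine ⟨hc i j, fun h => ?_⟩
  by_cases hij : i = j
  · subst hij; exact SimpleGraph.Reachable.refl _
  · obtain ⟨k, hk, h1⟩ := ht i
    rcases ends_two hd (he i) (he j) (he k) h (hc i k h1) (fun h => hij (hinj h)) with h2 | h2
    · exact absurd (hinj h2) hk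
    · rw [← hinj h2]; exact h1

end graph

variable {Λ1 Λ2 D1 D2 : Set (ℤ × ℤ)} {w1 w2 : Finset (ℤ × ℤ)} {Bl S I : Set (ℤ × ℤ)} {b : ℤ × ℤ}

/-- a corner of an edge outside `Bl` has an image -/
lemma exists_SR (M : StripMove Λ1 Λ2 D1 D2 w1 w2 Bl S) {u v : ℤ × ℤ}
    (ha : (SG (Λ1 \ Bl) D1 w1).Adj u v) : ∃ u', SR Λ1 D1 Bl S u u' := by
  obtain ⟨e, ⟨heΛ, heB⟩, hT⟩ := ha
  by_cases heS : e ∈ S
  · exact ⟨_, Or.inr ⟨rfl, e, heΛ, heB, heS, hT.sd⟩⟩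
  · by_cases heD : e ∈ D1
    · have hcd : (u = eS e ∧ v = eN e) ∨ (v = eS e ∧ u = eN e) := by
        rcases hT with ⟨-, -, h⟩ | ⟨h, -⟩
        · exact h
        · exact absurd heD h
      rcases M.del e heΛ heB heD with ⟨s1, s2, s3⟩ | ⟨s1, s2, s3⟩
      · rcases hcd with ⟨h1, h2⟩ | ⟨h1, h2⟩
        · refine ⟨_, Or.inr ⟨rfl, dn e, s2, s3, s1, ?_⟩⟩
          rw [h1]
          exact Or.inr (Or.inr (Or.inr (eN_dn e).symm))
        · exact ⟨_, Or.inl ⟨rfl, Or.inr ⟨e, heΛ, heB, heD, Or.inl h2⟩⟩⟩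
      · rcases hcd with ⟨h1, h2⟩ | ⟨h1, h2⟩
        · exact ⟨_, Or.inl ⟨rfl, Or.inr ⟨e, heΛ, heB, heD, Or.inr ⟨s1, h1⟩⟩⟩⟩
        · exact ⟨_, Or.inl ⟨rfl, Or.inr ⟨e, heΛ, heB, heD, Or.inl h2⟩⟩⟩
    · exact ⟨_, Or.inl ⟨rfl, Or.inl ⟨e, heΛ, heB, heS, heD, hT.sd⟩⟩⟩

/-- two images of a corner are joined -/
lemma SR_uniq (M : StripMove Λ1 Λ2 D1 D2 w1 w2 Bl S) {c c' c'' : ℤ × ℤ}
    (h : SR Λ1 D1 Bl S c c') (h' : SR Λ1 D1 Bl S c c'') : (SG Λ2 D2 w2).Reachable c' c'' := by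
  have key : ∀ {c : ℤ × ℤ}, ((∃ e ∈ Λ1, e ∉ Bl ∧ e ∉ S ∧ e ∉ D1 ∧ Sd e c) ∨
      (∃ e ∈ Λ1, e ∉ Bl ∧ e ∈ D1 ∧ (c = eN e ∨ (dn e ∉ S ∧ c = eS e)))) →
      (∃ e ∈ Λ1, e ∉ Bl ∧ e ∈ S ∧ Sd e c) → (SG Λ2 D2 w2).Reachable c (up c) := by
    rintro c h ⟨e, h1, h2, h3, h4⟩
    rcases h with ⟨e', k1, k2, k3, k4, k5⟩ | ⟨e', k1, k2, k3, k4⟩
    · obtain ⟨j1, j2, j3⟩ := M.sh1 e h1 h2 h3 e' k1 k2 k3 k4 c h4 k5
      have ha : (SG Λ2 D2 w2).Adj c (up c) := by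
        refine ⟨e, j2, Or.inl ⟨j3, M.odd e h1, Or.inl ⟨j1, ?_⟩⟩⟩
        rw [j1, up_eS]
      exact ha.reachable
    · exfalso
      rcases k4 with k4 | ⟨k4, k5⟩
      · have := (M.sh2 e h1 h2 h3 e' k1 k2 k3 c h4 (Or.inr (Or.inr (Or.inr k4)))).1
        exact eS_ne_eN e' (this.symm.trans k4)
      · exact k4 (M.sh2 e h1 h2 h3 e' k1 k2 k3 c h4 (Or.inr (Or.inr (Or.inl k5)))).2
  rcases h with ⟨rfl, h⟩ | ⟨rfl, h⟩ <;> rcases h' with ⟨rfl, h'⟩ | ⟨rfl, h'⟩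
  · exact SimpleGraph.Reachable.refl _
  · exact key h h'
  · exact (key h' h).symm
  · exact SimpleGraph.Reachable.refl _

/-- `c'` is the image of `c` outside `I`, or `c` is a corner at the labels of `Bl` and `c'` is joined to the
exit -/
def Img (Λ1 Λ2 D1 D2 : Set (ℤ × ℤ)) (w2 : Finset (ℤ × ℤ)) (Bl S I : Set (ℤ × ℤ)) (b c c' : ℤ × ℤ) :
    Prop :=
  (SR Λ1 D1 Bl S c c' ∧ c' ∉ I) ∨ (c ∈ KB Bl ∧ (SG Λ2 D2 w2).Reachable c' b)

/-- the relation used in the simulation -/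
def RR (Λ1 D1 Bl S I : Set (ℤ × ℤ)) (b c p : ℤ × ℤ) : Prop :=
  (∃ c', SR Λ1 D1 Bl S c c' ∧ p = ctr I b c') ∨ (c ∈ KB Bl ∧ p = b)

theorem conn_off (M : StripMove Λ1 Λ2 D1 D2 w1 w2 Bl S)
    (hI : ∀ u v, u ∈ I → v ∉ I → (SG Λ2 D2 w2).Adj u v → v = b)
    (hK : ∀ c ∈ KB Bl, ∀ c', SR Λ1 D1 Bl S c c' → c' ∈ I) {x y p : ℤ × ℤ}
    (h : (SG Λ1 D1 w1).Reachable x y) (hx : RR Λ1 D1 Bl S I b x p) :
    ∃ q, RR Λ1 D1 Bl S I b y q ∧ (off (SG Λ2 D2 w2) I).Reachable p q := by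
  refine sim ?_ h hx
  intro c d p hcd hc
  obtain ⟨e, he, hT⟩ := hcd
  by_cases heB : e ∈ Bl
  · have kc : c ∈ KB Bl := by
      rcases hT.label with h | h
      · exact Or.inl (h ▸ heB)
      · exact Or.inr (h ▸ heB)
    have kd : d ∈ KB Bl := by
      rcases hT.label' with h | h
      · exact Or.inl (h ▸ heB)
      · exact Or.inr (h ▸ heB)
    have hp : p = b := by
      rcases hc with ⟨c', h1, h2⟩ | ⟨-, h2⟩
      · rw [h2, ctr_in (hK c kc c' h1)]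
      · exact h2
    exact ⟨b, Or.inr ⟨kd, rfl⟩, by rw [hp]⟩
  · have hcd : (SG (Λ1 \ Bl) D1 w1).Adj c d := ⟨e, ⟨he, heB⟩, hT⟩
    obtain ⟨c', h1, h2⟩ : ∃ c', SR Λ1 D1 Bl S c c' ∧ p = ctr I b c' := by
      rcases hc with h | ⟨kc, h2⟩
      · exact h
      · obtain ⟨c', h1⟩ := exists_SR M hcd
        exact ⟨c', h1, by rw [h2, ctr_in (hK c kc c' h1)]⟩
    obtain ⟨d', h3, h4⟩ := M.sim_step hcd h1
    refine ⟨ctr I b d', Or.inl ⟨d', h3, rfl⟩, ?_⟩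
    rw [h2]
    exact off_ctr hI h4

/-- **Joined corners have joined images.** -/
theorem conn (M : StripMove Λ1 Λ2 D1 D2 w1 w2 Bl S)
    (hI : ∀ u v, u ∈ I → v ∉ I → (SG Λ2 D2 w2).Adj u v → v = b)
    (hK : ∀ c ∈ KB Bl, ∀ c', SR Λ1 D1 Bl S c c' → c' ∈ I) {x y x' y' : ℤ × ℤ}
    (h : (SG Λ1 D1 w1).Reachable x y) (hx : Img Λ1 Λ2 D1 D2 w2 Bl S I b x x')
    (hy : Img Λ1 Λ2 D1 D2 w2 Bl S I b y y') : (SG Λ2 D2 w2).Reachable x' y' := by
  obtain ⟨p, hp, hxp⟩ : ∃ p, RR Λ1 D1 Bl S I b x p ∧ (SG Λ2 D2 w2).Reachable x' p := by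
    rcases hx with ⟨h1, h2⟩ | ⟨h1, h2⟩
    · exact ⟨x', Or.inl ⟨x', h1, (ctr_out h2).symm⟩, SimpleGraph.Reachable.refl _⟩
    · exact ⟨b, Or.inr ⟨h1, rfl⟩, h2⟩
  obtain ⟨q, hq, hpq⟩ := conn_off M hI hK h hp
  refine hxp.trans ((reach_of_off hpq).trans ?_)
  rcases hy with ⟨h1, h2⟩ | ⟨h1, h2⟩
  · rcases hq with ⟨y'', h3, h4⟩ | ⟨h3, -⟩
    · have h5 := off_ctr hI (SR_uniq M h3 h1)
      rw [ctr_out h2, ← h4] at h5
      exact reach_of_off h5
    · exact absurd (hK y h3 y' h1) h2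
  · rcases hq with ⟨y'', h3, h4⟩ | ⟨-, h4⟩
    · rw [h4, ctr_in (hK y h1 y'' h3)]
      exact h2.symm
    · rw [h4]; exact h2.symm

/-- **The link pattern of a family of ends.** `xs` : ends of world 1 (every one is joined to another one),
`ys` : their images, ends of world 2. -/
theorem pat (M : StripMove Λ1 Λ2 D1 D2 w1 w2 Bl S)
    (hI : ∀ u v, u ∈ I → v ∉ I → (SG Λ2 D2 w2).Adj u v → v = b)
    (hK : ∀ c ∈ KB Bl, ∀ c', SR Λ1 D1 Bl S c c' → c' ∈ I) {ι : Type*} {xs ys : ι → ℤ × ℤ}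
    (hinj : Function.Injective ys) (he : ∀ i, IsEnd (SG Λ2 D2 w2) (ys i))
    (him : ∀ i, Img Λ1 Λ2 D1 D2 w2 Bl S I b (xs i) (ys i))
    (ht : ∀ i, ∃ j, j ≠ i ∧ (SG Λ1 D1 w1).Reachable (xs i) (xs j)) (i j : ι) :
    (SG Λ1 D1 w1).Reachable (xs i) (xs j) ↔ (SG Λ2 D2 w2).Reachable (ys i) (ys j) :=
  pat_of_conn SG_deg2 hinj he (fun i j h => conn M hI hK h (him i) (him j)) ht i j

end Pool.Agent.H82.W
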