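import Mathlib
import Pool.Agent.H82.W.Conn

set_option autoImplicit false
open Finset

/-! # Simulation of a world outside a block with one exit, general form

`Simu G1 G1o K G2 R` : `G1o` = world 1 outside the block, `K` = corners at the block, `R` = images of the
corners. `Simu.conn`, `Simu.pat` : if in world 2 a set `I` contains the images of the corners of `K` and has
one exit, all connections agree. `TMove` : strip moves with types of sides and junk sides; constructors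
`step_plain`, `step_strip`, `step_bottom`, `step_del`, `step_cornerA`. -/

namespace Pool.Agent.H82.W

open Pool.Agent.H75.Perc Pool.Agent.H75.TwoArm Pool.Agent.H99.W Pool.Agent.H13.W

section graph
variable {α β : Type*}

/-- **Simulation of `G1` by `G2` outside the block `K`.** -/
structure Simu (G1 G1o : SimpleGraph α) (K : Set α) (G2 : SimpleGraph β) (R : α → β → Prop) :
    Prop where
  split : ∀ c d, G1.Adj c d → G1o.Adj c d ∨ (c ∈ K ∧ d ∈ K)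
  step : ∀ c d c', G1o.Adj c d → R c c' → ∃ d', R d d' ∧ G2.Reachable c' d'
  ex : ∀ c ∈ K, ∀ d, G1o.Adj c d → ∃ c', R c c'
  uniq : ∀ c c' c'', R c c' → R c c'' → G2.Reachable c' c''

/-- `c'` is an image of `c` outside `I`, or `c` is at the block and `c'` is joined to the exit -/
def ImS (K : Set α) (G2 : SimpleGraph β) (R : α → β → Prop) (I : Set β) (b : β) (c : α) (c' : β) :
    Prop := (R c c' ∧ c' ∉ I) ∨ (c ∈ K ∧ G2.Reachable c' b)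

variable {G1 G1o : SimpleGraph α} {K : Set α} {G2 : SimpleGraph β} {R : α → β → Prop} {I : Set β}
  {b : β}

theorem Simu.conn_off (M : Simu G1 G1o K G2 R)
    (hI : ∀ u v, u ∈ I → v ∉ I → G2.Adj u v → v = b)
    (hK : ∀ c ∈ K, ∀ c', R c c' → c' ∈ I) {x y : α} {p : β}
    (h : G1.Reachable x y) (hx : (∃ c', R x c' ∧ p = ctr I b c') ∨ (x ∈ K ∧ p = b)) :
    ∃ q, ((∃ c', R y c' ∧ q = ctr I b c') ∨ (y ∈ K ∧ q = b)) ∧ (off G2 I).Reachable p q := by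
  obtain ⟨w⟩ := h
  induction w generalizing p with
  | nil => exact ⟨p, hx, SimpleGraph.Reachable.refl _⟩
  | @cons c d y hcd _ ih =>
    obtain ⟨q, hq, hpq⟩ : ∃ q, ((∃ c', R d c' ∧ q = ctr I b c') ∨ (d ∈ K ∧ q = b)) ∧
        (off G2 I).Reachable p q := by
      rcases M.split c d hcd with ho | ⟨kc, kd⟩
      · obtain ⟨c', h1, h2⟩ : ∃ c', R c c' ∧ p = ctr I b c' := by
          rcases hx with h | ⟨kc, h2⟩
          · exact h
          · obtain ⟨c', h1⟩ := M.ex c kc d ho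
            exact ⟨c', h1, by rw [h2, ctr_in (hK c kc c' h1)]⟩
        obtain ⟨d', h3, h4⟩ := M.step c d c' ho h1
        refine ⟨ctr I b d', Or.inl ⟨d', h3, rfl⟩, ?_⟩
        rw [h2]
        exact off_ctr hI h4
      · have hp : p = b := by
          rcases hx with ⟨c', h1, h2⟩ | ⟨-, h2⟩
          · rw [h2, ctr_in (hK c kc c' h1)]
          · exact h2
        exact ⟨b, Or.inr ⟨kd, rfl⟩, by rw [hp]⟩
    obtain ⟨q', hq', hqq'⟩ := ih hq
    exact ⟨q', hq', hpq.trans hqq'⟩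

/-- **Joined corners have joined images.** -/
theorem Simu.conn (M : Simu G1 G1o K G2 R)
    (hI : ∀ u v, u ∈ I → v ∉ I → G2.Adj u v → v = b)
    (hK : ∀ c ∈ K, ∀ c', R c c' → c' ∈ I) {x y : α} {x' y' : β}
    (h : G1.Reachable x y) (hx : ImS K G2 R I b x x') (hy : ImS K G2 R I b y y') :
    G2.Reachable x' y' := by
  obtain ⟨p, hp, hxp⟩ : ∃ p, ((∃ c', R x c' ∧ p = ctr I b c') ∨ (x ∈ K ∧ p = b)) ∧
      G2.Reachable x' p := by
    rcases hx with ⟨h1, h2⟩ | ⟨h1, h2⟩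
    · exact ⟨x', Or.inl ⟨x', h1, (ctr_out h2).symm⟩, SimpleGraph.Reachable.refl _⟩
    · exact ⟨b, Or.inr ⟨h1, rfl⟩, h2⟩
  obtain ⟨q, hq, hpq⟩ := M.conn_off hI hK h hp
  refine hxp.trans ((reach_of_off hpq).trans ?_)
  rcases hy with ⟨h1, h2⟩ | ⟨h1, h2⟩
  · rcases hq with ⟨y'', h3, h4⟩ | ⟨h3, -⟩
    · have h5 := off_ctr hI (M.uniq y y'' y' h3 h1)
      rw [ctr_out h2, ← h4] at h5
      exact reach_of_off h5
    · exact absurd (hK y h3 y' h1) h2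
  · rcases hq with ⟨y'', h3, h4⟩ | ⟨-, h4⟩
    · rw [h4, ctr_in (hK y h1 y'' h3)]
      exact h2.symm
    · rw [h4]; exact h2.symm

/-- **The link pattern of a family of ends.** -/
theorem Simu.pat (M : Simu G1 G1o K G2 R) (hd : Deg2 G2)
    (hI : ∀ u v, u ∈ I → v ∉ I → G2.Adj u v → v = b)
    (hK : ∀ c ∈ K, ∀ c', R c c' → c' ∈ I) {ι : Type*} {xs : ι → α} {ys : ι → β}
    (hinj : Function.Injective ys) (he : ∀ i, IsEnd G2 (ys i))
    (him : ∀ i, ImS K G2 R I b (xs i) (ys i))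
    (ht : ∀ i, ∃ j, j ≠ i ∧ G1.Reachable (xs i) (xs j)) (i j : ι) :
    G1.Reachable (xs i) (xs j) ↔ G2.Reachable (ys i) (ys j) :=
  pat_of_conn hd hinj he (fun i j h => M.conn hI hK h (him i) (him j)) ht i j

end graph

variable {Λ1 Λ2 D1 D2 : Set (ℤ × ℤ)} {w1 w2 : Finset (ℤ × ℤ)} {Bl S : Set (ℤ × ℤ)}
  {τ : ℤ × ℤ → Prop} {J : Set (ℤ × ℤ)} {e c d : ℤ × ℤ}

lemma SG_split {Λ D : Set (ℤ × ℤ)} {w : Finset (ℤ × ℤ)} {Bl : Set (ℤ × ℤ)} {c d : ℤ × ℤ}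
    (h : (SG Λ D w).Adj c d) : (SG (Λ \ Bl) D w).Adj c d ∨ (c ∈ KB Bl ∧ d ∈ KB Bl) := by
  obtain ⟨e, he, hT⟩ := h
  by_cases heB : e ∈ Bl
  · right
    constructor
    · rcases hT.label with h | h
      · exact Or.inl (h ▸ heB)
      · exact Or.inr (h ▸ heB)
    · rcases hT.label' with h | h
      · exact Or.inl (h ▸ heB)
      · exact Or.inr (h ▸ heB)
  · exact Or.inl ⟨e, ⟨he, heB⟩, hT⟩

/-- 13's strip moves -/
theorem _root_.Pool.Agent.H13.W.StripMove.simu (M : StripMove Λ1 Λ2 D1 D2 w1 w2 Bl S) :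
    Simu (SG Λ1 D1 w1) (SG (Λ1 \ Bl) D1 w1) (KB Bl) (SG Λ2 D2 w2) (SR Λ1 D1 Bl S) where
  split _ _ h := SG_split h
  step _ _ _ h hR := M.sim_step h hR
  ex _ _ _ h := exists_SR M h
  uniq _ _ _ h h' := SR_uniq M h h'

open Classical in
/-- image of a side: one row up if `τ` -/
noncomputable def img (τ : ℤ × ℤ → Prop) (c : ℤ × ℤ) : ℤ × ℤ := if τ c then up c else c

lemma img_t (h : τ c) : img τ c = up c := by unfold img; rw [if_pos h]

lemma img_f (h : ¬ τ c) : img τ c = c := by unfold img; rw [if_neg h]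

/-- **Strip move with types of sides**: `τ c` : the side `c` goes one row up; `J` : junk sides. -/
structure TMove (Λ1 Λ2 D1 D2 : Set (ℤ × ℤ)) (w1 w2 : Finset (ℤ × ℤ)) (Bl : Set (ℤ × ℤ))
    (τ : ℤ × ℤ → Prop) (J : Set (ℤ × ℤ)) : Prop where
  step : ∀ e ∈ Λ1, e ∉ Bl → ∀ c d, TJ D1 w1 e c d → c ∉ J →
    d ∉ J ∧ (SG Λ2 D2 w2).Reachable (img τ c) (img τ d)
  jk : ∀ c ∈ KB Bl, c ∉ J

/-- the images of the sides -/
def TR (τ : ℤ × ℤ → Prop) (J : Set (ℤ × ℤ)) (c c' : ℤ × ℤ) : Prop := c ∉ J ∧ c' = img τ c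

theorem TMove.simu (M : TMove Λ1 Λ2 D1 D2 w1 w2 Bl τ J) :
    Simu (SG Λ1 D1 w1) (SG (Λ1 \ Bl) D1 w1) (KB Bl) (SG Λ2 D2 w2) (TR τ J) where
  split _ _ h := SG_split h
  step := by
    rintro c d c' ⟨e, ⟨he, heB⟩, hT⟩ ⟨hc, rfl⟩
    obtain ⟨h1, h2⟩ := M.step e he heB c d hT hc
    exact ⟨_, ⟨h1, rfl⟩, h2⟩
  ex c hc _ _ := ⟨_, M.jk c hc, rfl⟩
  uniq := by
    rintro c c' c'' ⟨-, rfl⟩ ⟨-, rfl⟩
    exact SimpleGraph.Reachable.refl _

/-! ### Tiles -/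

/-- a plain tile: all sides stay, same state -/
lemma step_plain (h1 : ∀ c, Sd e c → ¬ τ c) (h2 : e ∈ Λ2) (hD : e ∈ D1 ↔ e ∈ D2)
    (hw : e ∉ D1 → (e ∈ w1 ↔ e ∈ w2)) (h : TJ D1 w1 e c d) :
    (SG Λ2 D2 w2).Reachable (img τ c) (img τ d) := by
  rw [img_f (h1 c h.sd), img_f (h1 d h.sd')]
  have ha : (SG Λ2 D2 w2).Adj c d := ⟨e, h2, (TJ_congr hD hw).1 h⟩
  exact ha.reachable

/-- a strip tile: all sides go up, flipped state -/
lemma step_strip (h1 : ∀ c, Sd e c → τ c) (h0 : e ∉ D1) (h2 : up e ∈ Λ2) (h3 : up e ∉ D2)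
    (hw : up e ∈ w2 ↔ e ∉ w1) (h : TJ D1 w1 e c d) :
    (SG Λ2 D2 w2).Reachable (img τ c) (img τ d) := by
  rw [img_t (h1 c h.sd), img_t (h1 d h.sd')]
  have ha : (SG Λ2 D2 w2).Adj (up c) (up d) := ⟨up e, h2, h.up h0 h3 hw⟩
  exact ha.reachable

/-- a tile at the bottom of the strip: the deleted row passes under it -/
lemma step_bottom (h1 : ¬ τ (eS e)) (h1' : ∀ c, Sd e c → c ≠ eS e → τ c)
    (ho : (e.1 + e.2) % 2 = 1) (h0 : e ∉ D1) (k2 : e ∈ Λ2) (k3 : e ∈ D2) (h2 : up e ∈ Λ2)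
    (h3 : up e ∉ D2) (hw : up e ∈ w2 ↔ e ∉ w1) (h : TJ D1 w1 e c d) :
    (SG Λ2 D2 w2).Reachable (img τ c) (img τ d) := by
  have key : ∀ {c : ℤ × ℤ}, Sd e c → (SG Λ2 D2 w2).Reachable (img τ c) (up c) := by
    intro c hc
    by_cases hS : c = eS e
    · rw [hS, img_f h1, up_eS]
      have ha : (SG Λ2 D2 w2).Adj (eS e) (eN e) := ⟨e, k2, Or.inl ⟨k3, ho, Or.inl ⟨rfl, rfl⟩⟩⟩
      exact ha.reachable
    · rw [img_t (h1' c hc hS)]
  have ha : (SG Λ2 D2 w2).Adj (up c) (up d) := ⟨up e, h2, h.up h0 h3 hw⟩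
  exact (key h.sd).trans (ha.reachable.trans (key h.sd').symm)

/-- a deleted tile at the top of the strip -/
lemma step_del (h0 : e ∈ D1) (h1 : τ (eS e)) (h2 : ¬ τ (eN e)) (h : TJ D1 w1 e c d) :
    (SG Λ2 D2 w2).Reachable (img τ c) (img τ d) := by
  have e1 : img τ (eS e) = img τ (eN e) := by rw [img_t h1, img_f h2, up_eS]
  rcases h with ⟨-, -, ⟨rfl, rfl⟩ | ⟨rfl, rfl⟩⟩ | ⟨h, -⟩
  · rw [e1]
  · rw [e1]
  · exact absurd h0 h

/-- the two states of a natural tile -/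
lemma TJ_A (ho : (e.1 + e.2) % 2 = 1) (h0 : e ∉ D1) (hA : e.1 % 2 = 1 ↔ e ∉ w1)
    (h : TJ D1 w1 e c d) : (c = eS e ∧ d = eE e) ∨ (c = eE e ∧ d = eS e) ∨
      (c = eW e ∧ d = eN e) ∨ (c = eN e ∧ d = eW e) := by
  have key : ∀ {c d : ℤ × ℤ}, lab c = e → nx w1 c = d → (c = eS e ∧ d = eE e) ∨
      (c = eE e ∧ d = eS e) ∨ (c = eW e ∧ d = eN e) ∨ (c = eN e ∧ d = eW e) := by
    rintro ⟨a, b⟩ ⟨a', b'⟩ h1 h2
    obtain ⟨x, y⟩ := e
    unfold nx at h2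
    rw [h1] at h2
    simp only at ho hA
    unfold lab at h1
    unfold nxO nxC at h2
    unfold eS eE eW eN
    by_cases hw : ((x, y) : ℤ × ℤ) ∈ w1
    · rw [if_pos hw] at h2
      have hx : ¬ x % 2 = 1 := fun h => hA.1 h hw
      rcases Int.emod_two_eq_zero_or_one a with ha | ha <;>
        rcases Int.emod_two_eq_zero_or_one b with hb | hb <;>
        simp [ha, hb, Prod.ext_iff] at h1 h2 ⊢ <;> omega
    · rw [if_neg hw] at h2
      have hx : x % 2 = 1 := hA.2 hw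
      rcases Int.emod_two_eq_zero_or_one a with ha | ha <;>
        rcases Int.emod_two_eq_zero_or_one b with hb | hb <;>
        simp [ha, hb, Prod.ext_iff] at h1 h2 ⊢ <;> omega
  rcases h with ⟨h, -⟩ | ⟨-, ⟨h1, h2⟩ | ⟨h1, h2⟩⟩
  · exact absurd h h0
  · exact key h1 h2
  · rcases key h1 h2 with ⟨g1, g2⟩ | ⟨g1, g2⟩ | ⟨g1, g2⟩ | ⟨g1, g2⟩
    · exact Or.inr (Or.inl ⟨g2, g1⟩)
    · exact Or.inl ⟨g2, g1⟩
    · exact Or.inr (Or.inr (Or.inr ⟨g2, g1⟩))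
    · exact Or.inr (Or.inr (Or.inl ⟨g2, g1⟩))

lemma TJ_B (ho : (e.1 + e.2) % 2 = 1) (h0 : e ∉ D1) (hA : e.1 % 2 = 1 ↔ e ∈ w1)
    (h : TJ D1 w1 e c d) : (c = eS e ∧ d = eW e) ∨ (c = eW e ∧ d = eS e) ∨
      (c = eE e ∧ d = eN e) ∨ (c = eN e ∧ d = eE e) := by
  have key : ∀ {c d : ℤ × ℤ}, lab c = e → nx w1 c = d → (c = eS e ∧ d = eW e) ∨
      (c = eW e ∧ d = eS e) ∨ (c = eE e ∧ d = eN e) ∨ (c = eN e ∧ d = eE e) := by
    rintro ⟨a, b⟩ ⟨a', b'⟩ h1 h2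
    obtain ⟨x, y⟩ := e
    unfold nx at h2
    rw [h1] at h2
    simp only at ho hA
    unfold lab at h1
    unfold nxO nxC at h2
    unfold eS eE eW eN
    by_cases hw : ((x, y) : ℤ × ℤ) ∈ w1
    · rw [if_pos hw] at h2
      have hx : x % 2 = 1 := hA.2 hw
      rcases Int.emod_two_eq_zero_or_one a with ha | ha <;>
        rcases Int.emod_two_eq_zero_or_one b with hb | hb <;>
        simp [ha, hb, Prod.ext_iff] at h1 h2 ⊢ <;> omega
    · rw [if_neg hw] at h2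
      have hx : ¬ x % 2 = 1 := fun h => hw (hA.1 h)
      rcases Int.emod_two_eq_zero_or_one a with ha | ha <;>
        rcases Int.emod_two_eq_zero_or_one b with hb | hb <;>
        simp [ha, hb, Prod.ext_iff] at h1 h2 ⊢ <;> omega
  rcases h with ⟨h, -⟩ | ⟨-, ⟨h1, h2⟩ | ⟨h1, h2⟩⟩
  · exact absurd h h0
  · exact key h1 h2
  · rcases key h1 h2 with ⟨g1, g2⟩ | ⟨g1, g2⟩ | ⟨g1, g2⟩ | ⟨g1, g2⟩
    · exact Or.inr (Or.inl ⟨g2, g1⟩)
    · exact Or.inl ⟨g2, g1⟩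
    · exact Or.inr (Or.inr (Or.inr ⟨g2, g1⟩))
    · exact Or.inr (Or.inr (Or.inl ⟨g2, g1⟩))

/-- **the corner tile at the right end of a chord, case A** (it joins S-E and W-N): S and E stay, W and N
go up -/
lemma step_cornerA (ho : (e.1 + e.2) % 2 = 1) (h0 : e ∉ D1) (hA : e.1 % 2 = 1 ↔ e ∉ w1)
    (tS : ¬ τ (eS e)) (tE : ¬ τ (eE e)) (tW : τ (eW e)) (tN : τ (eN e))
    (k2 : e ∈ Λ2) (k3 : e ∉ D2) (kw : e ∈ w2 ↔ e ∈ w1) (h2 : up e ∈ Λ2) (h3 : up e ∉ D2)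
    (hw : up e ∈ w2 ↔ e ∉ w1) (h : TJ D1 w1 e c d) :
    (SG Λ2 D2 w2).Reachable (img τ c) (img τ d) := by
  have hp : (SG Λ2 D2 w2).Adj c d := ⟨e, k2, (TJ_congr ⟨fun g => absurd g h0, fun g => absurd g k3⟩
    (fun _ => kw.symm)).1 h⟩
  have hu : (SG Λ2 D2 w2).Adj (up c) (up d) := ⟨up e, h2, h.up h0 h3 hw⟩
  rcases TJ_A ho h0 hA h with ⟨rfl, rfl⟩ | ⟨rfl, rfl⟩ | ⟨rfl, rfl⟩ | ⟨rfl, rfl⟩
  · rw [img_f tS, img_f tE]; exact hp.reachable
  · rw [img_f tS, img_f tE]; exact hp.reachable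
  · rw [img_t tW, img_t tN]; exact hu.reachable
  · rw [img_t tW, img_t tN]; exact hu.reachable

end Pool.Agent.H82.W
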