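import Mathlib
import Pool.Agent.H35.W.Couple

set_option autoImplicit false
set_option linter.unusedSectionVars false
open Finset

/-! # Expectations in a coin model

`EB E b V` = expectation of the complex functional `V` of the configuration in the coin model (58).
`Coup.EB_le` : two coupled worlds (35) whose functionals agree on the block have expectations which differ
by at most `2 M P (no block)`. -/

namespace Pool.Agent.H82.W

open Pool.Agent.H58.W Pool.Agent.H35.W
open Pool.Agent.H75.Perc (Pr Pr_eq)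

variable {α α' β β' : Type*} [DecidableEq α] [DecidableEq α'] [DecidableEq β] [DecidableEq β']

/-- **Expectation in a coin model.** -/
noncomputable def EB (E : Finset α) (b : α → β) (V : Finset α → ℂ) : ℂ :=
  (∑ ω ∈ (E.image b).powerset, V (up E b ω)) / 2 ^ (E.image b).card

lemma EB_congr {E : Finset α} {b : α → β} {V V' : Finset α → ℂ} (h : ∀ ω, ω ⊆ E → V ω = V' ω) :
    EB E b V = EB E b V' := by
  unfold EB
  rw [sum_congr rfl fun ω _ => h _ (up_subset _ _ _)]

lemma EB_add (E : Finset α) (b : α → β) (V V' : Finset α → ℂ) :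
    EB E b (fun ω => V ω + V' ω) = EB E b V + EB E b V' := by
  unfold EB
  rw [sum_add_distrib, add_div]

lemma EB_sub (E : Finset α) (b : α → β) (V V' : Finset α → ℂ) :
    EB E b (fun ω => V ω - V' ω) = EB E b V - EB E b V' := by
  unfold EB
  rw [sum_sub_distrib, sub_div]

lemma EB_mul (E : Finset α) (b : α → β) (c : ℂ) (V : Finset α → ℂ) :
    EB E b (fun ω => c * V ω) = c * EB E b V := by
  unfold EB
  rw [← mul_sum, mul_div_assoc]

lemma EB_neg (E : Finset α) (b : α → β) (V : Finset α → ℂ) :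
    EB E b (fun ω => - V ω) = - EB E b V := by
  unfold EB
  rw [sum_neg_distrib, neg_div]

lemma EB_sum {ι : Type*} (s : Finset ι) (E : Finset α) (b : α → β) (V : ι → Finset α → ℂ) :
    EB E b (fun ω => ∑ i ∈ s, V i ω) = ∑ i ∈ s, EB E b (V i) := by
  unfold EB
  rw [sum_comm, sum_div]

lemma EB_const (E : Finset α) (b : α → β) (c : ℂ) : EB E b (fun _ => c) = c := by
  unfold EB
  rw [sum_const, card_powerset, nsmul_eq_mul]
  push_cast
  rw [mul_comm, mul_div_assoc, div_self (pow_ne_zero _ two_ne_zero), mul_one]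

open Classical in
/-- indicator functions -/
lemma EB_ind (E : Finset α) (b : α → β) (A : Finset α → Prop) :
    EB E b (fun ω => if A ω then 1 else 0) = (PB E b A : ℂ) := by
  unfold EB PB
  rw [Pr_eq, sum_boole]
  push_cast
  rfl

open Classical in
/-- level sets -/
lemma EB_values {E : Finset α} (b : α → β) {V : Finset α → ℂ} (s : Finset ℂ)
    (h : ∀ ω, ω ⊆ E → V ω ∈ s) : EB E b V = ∑ c ∈ s, c * (PB E b (fun ω => V ω = c) : ℂ) := by
  have e1 : EB E b V = EB E b (fun ω => ∑ c ∈ s, c * (if V ω = c then 1 else 0)) := by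
    refine EB_congr fun ω hω => ?_
    rw [sum_eq_single (V ω)]
    · simp
    · intro c _ hc
      rw [if_neg (fun h => hc h.symm), mul_zero]
    · exact fun hn => absurd (h ω hω) hn
  rw [e1, EB_sum]
  refine sum_congr rfl fun c _ => ?_
  rw [EB_mul, EB_ind]

/-- a functional which is bounded and vanishes off an event -/
lemma norm_EB_le {E : Finset α} {b : α → β} {V : Finset α → ℂ} {M : ℝ} {A : Finset α → Prop}
    (h : ∀ ω, ω ⊆ E → A ω → ‖V ω‖ ≤ M) (h0 : ∀ ω, ω ⊆ E → ¬ A ω → V ω = 0) :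
    ‖EB E b V‖ ≤ M * PB E b A := by
  classical
  unfold EB PB
  rw [Pr_eq, norm_div, norm_pow, Complex.norm_ofNat, ← mul_div_assoc]
  refine div_le_div_of_nonneg_right ?_ (by positivity)
  refine (norm_sum_le _ _).trans ?_
  have h1 : ∀ ω ∈ (E.image b).powerset, ‖V (up E b ω)‖ ≤ M * (if A (up E b ω) then 1 else 0) := by
    intro ω _
    by_cases hA : A (up E b ω)
    · rw [if_pos hA, mul_one]
      exact h _ (up_subset _ _ _) hA
    · rw [if_neg hA, mul_zero, h0 _ (up_subset _ _ _) hA, norm_zero]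
  refine (sum_le_sum h1).trans ?_
  rw [← mul_sum, sum_boole]

lemma norm_EB_le' {E : Finset α} {b : α → β} {V : Finset α → ℂ} {M : ℝ}
    (h : ∀ ω, ω ⊆ E → ‖V ω‖ ≤ M) : ‖EB E b V‖ ≤ M := by
  have := norm_EB_le (E := E) (b := b) (V := V) (A := fun _ => True) (fun ω hω _ => h ω hω)
    (fun _ _ h => absurd trivial h)
  rwa [PB_true, mul_one] at this

/-- Only the partition into blocks matters. -/
lemma EB_blocks {E : Finset α} {b : α → β} {b' : α → β'}
    (h : ∀ l ∈ E, ∀ l' ∈ E, b l = b l' ↔ b' l = b' l') (V : Finset α → ℂ) :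
    EB E b V = EB E b' V := by
  classical
  have hs : ∀ ω, ω ⊆ E → V ω ∈ E.powerset.image V := fun ω hω =>
    mem_image_of_mem V (mem_powerset.2 hω)
  rw [EB_values b _ hs, EB_values b' _ hs]
  exact sum_congr rfl fun c _ => by rw [PB_blocks h]

/-- The trace of a coin model on a smaller set of labels. -/
lemma EB_restrict {E F : Finset α} (h : F ⊆ E) (b : α → β) (V : Finset α → ℂ) :
    EB E b (fun ω => V (ω ∩ F)) = EB F b V := by
  classical
  have hs : ∀ ω, ω ⊆ F → V ω ∈ F.powerset.image V := fun ω hω =>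
    mem_image_of_mem V (mem_powerset.2 hω)
  rw [EB_values b _ hs, EB_values (V := fun ω => V (ω ∩ F)) b (F.powerset.image V)
    (fun ω _ => hs _ inter_subset_right)]
  exact sum_congr rfl fun c _ => by rw [PB_restrict h b (fun ω => V ω = c)]

/-- Flipping a union of blocks preserves a coin model. -/
lemma EB_flip {E F : Finset α} {b : α → β} (hFE : F ⊆ E)
    (hF : ∀ l ∈ F, ∀ l' ∈ E, b l = b l' → l' ∈ F) (V : Finset α → ℂ) :
    EB E b (fun ω => V (symmDiff ω F)) = EB E b V := by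
  classical
  have hs : ∀ ω, ω ⊆ E → V ω ∈ E.powerset.image V := fun ω hω =>
    mem_image_of_mem V (mem_powerset.2 hω)
  have hs' : ∀ ω, ω ⊆ E → V (symmDiff ω F) ∈ E.powerset.image V := fun ω hω =>
    hs _ fun x hx => by
      rw [mem_symmDiff] at hx
      rcases hx with hx | hx
      · exact hω hx.1
      · exact hFE hx.1
  rw [EB_values b _ hs, EB_values (V := fun ω => V (symmDiff ω F)) b _ hs']
  exact sum_congr rfl fun c _ => by rw [PB_flip hFE hF (fun ω => V ω = c)]

/-- Relabelling. -/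
lemma EB_image (O : Finset α) (φ : α → α') (b : α' → β) (V : Finset α' → ℂ) :
    EB (O.image φ) b V = EB O (b ∘ φ) (fun ω => V (ω.image φ)) := by
  classical
  have hs : ∀ ω, ω ⊆ O.image φ → V ω ∈ (O.image φ).powerset.image V := fun ω hω =>
    mem_image_of_mem V (mem_powerset.2 hω)
  rw [EB_values b _ hs, EB_values (V := fun ω => V (ω.image φ)) (b ∘ φ) _
    (fun ω hω => hs _ (image_subset_image hω))]
  exact sum_congr rfl fun c _ => by rw [PB_image O φ b (fun ω => V ω = c)]

/-- **The coupling bound for functionals.** -/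
theorem Coup.EB_le {E1 : Finset α} {b1 : α → β} {E2 : Finset α'} {b2 : α' → β'} {O1 : Finset α}
    {O2 : Finset α'} {T : Finset α → Finset α'} {Blk : Finset α' → Prop}
    (C : Coup E1 b1 E2 b2 O1 O2 T Blk) {V1 : Finset α → ℂ} {V2 : Finset α' → ℂ} {M : ℝ} (hM : 0 ≤ M)
    (h1 : ∀ ω, ω ⊆ E1 → ‖V1 ω‖ ≤ M) (h2 : ∀ ω, ω ⊆ E2 → ‖V2 ω‖ ≤ M)
    (h : ∀ ω1 ⊆ E1, ∀ ω2 ⊆ E2, ω2 ∩ O2 = T (ω1 ∩ O1) → Blk (ω2 ∩ O2) → V1 ω1 = V2 ω2) :
    ‖EB E1 b1 V1 - EB E2 b2 V2‖ ≤ 2 * M * PB E2 b2 (fun ω => ¬ Blk (ω ∩ O2)) := by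
  classical
  set s : Finset ℂ := (E1.powerset.image V1 ∪ E2.powerset.image V2) with hs
  have m1 : ∀ ω, ω ⊆ E1 → V1 ω ∈ s := fun ω hω =>
    mem_union_left _ (mem_image_of_mem V1 (mem_powerset.2 hω))
  have m2 : ∀ ω, ω ⊆ E2 → V2 ω ∈ s := fun ω hω =>
    mem_union_right _ (mem_image_of_mem V2 (mem_powerset.2 hω))
  rw [EB_values b1 s m1, EB_values b2 s m2]
  refine C.le s (fun c => c) (M := M) ?_ hM (A := fun c ω => V1 ω = c) (A' := fun c ω => V2 ω = c)
    ?_ ?_ ?_
  · intro c hc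
    rw [hs, mem_union, mem_image, mem_image] at hc
    rcases hc with ⟨ω, hω, rfl⟩ | ⟨ω, hω, rfl⟩
    · exact h1 ω (mem_powerset.1 hω)
    · exact h2 ω (mem_powerset.1 hω)
  · intro c _ ω1 g1 ω2 g2 g3 g4
    beta_reduce
    rw [h ω1 g1 ω2 g2 g3 g4]
  · intro c _ d _ hcd ω _ hh
    exact hcd (hh.1.symm.trans hh.2)
  · intro c _ d _ hcd ω _ hh
    exact hcd (hh.1.symm.trans hh.2)

end Pool.Agent.H82.W
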