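import Mathlib
import Pool.Agent.H82.W.EB
import Pool.Agent.H82.W.Simu

set_option autoImplicit false
set_option linter.unusedSectionVars false
set_option linter.unusedVariables false
open Finset

/-! # LocalChord (P9): worlds, label bookkeeping of a move, comparison with one canonical world

`WD` : a world = tiles, deleted tiles, random labels with blocks (coins), labels which are read flipped,
deterministic open labels.
`LMove A B φ S O1 O2` : bookkeeping of the labels of a move of the world `A` onto the world `B` outside the block: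
the label `l` becomes `φ l` (one row up / down on `S`, where the state flips). It yields the coupling (35) and the
relation of the states (hypotheses of `StripMove` / `TMove`).
`Half A B O2 K R z z' x y Blk` : everything needed to compare the moving end `z` of `A` with the end `z'` of `B`:
bookkeeping, simulation (`Simu`: strip moves, with junk or not, up or down), block with one exit (99, 1).
Theorems `Half.far` (far ends agree), `Half.vis` (visible corners of the strands which do not end at `z`),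
`Half.le` : the values differ by at most `2 M P_B (no block)`. `local_chord` : all ends above and below the chord. -/

namespace Pool.Agent.H82.W

open Pool.Agent.H58.W Pool.Agent.H35.W Pool.Agent.H99.W Pool.Agent.H13.W

/-- **A world.** -/
structure WD (β : Type*) where
  Λ : Set (ℤ × ℤ)
  D : Set (ℤ × ℤ)
  E : Finset (ℤ × ℤ)
  b : ℤ × ℤ → β
  F : Finset (ℤ × ℤ)
  W : Finset (ℤ × ℤ)

namespace WD
variable {β : Type*}

/-- open labels -/
def st (A : WD β) (ω : Finset (ℤ × ℤ)) : Finset (ℤ × ℤ) := symmDiff ω A.F ∪ A.W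

/-- strand graph -/
def G (A : WD β) (ω : Finset (ℤ × ℤ)) : SimpleGraph (ℤ × ℤ) := SG A.Λ A.D (A.st ω)

lemma mem_st {A : WD β} {ω : Finset (ℤ × ℤ)} {l : ℤ × ℤ} (h : l ∉ A.W) :
    l ∈ A.st ω ↔ Xor (l ∈ ω) (l ∈ A.F) := by
  unfold st
  rw [mem_union, mem_symmDiff]
  by_cases a1 : l ∈ ω <;> by_cases a2 : l ∈ A.F <;> simp [a1, a2, h, Xor]

lemma mem_st' {A : WD β} {ω : Finset (ℤ × ℤ)} {l : ℤ × ℤ} (h : l ∉ ω) (hF : l ∉ A.F) :
    l ∈ A.st ω ↔ l ∈ A.W := by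
  unfold st
  rw [mem_union, mem_symmDiff]
  tauto

end WD

section
variable {β γ : Type*} [DecidableEq β] [DecidableEq γ]

open Classical in
/-- the labels of `O1` whose coin has to be flipped -/
noncomputable def fl (A : WD β) (B : WD γ) (φ : ℤ × ℤ → ℤ × ℤ) (S : Set (ℤ × ℤ)) (O1 : Finset (ℤ × ℤ)) :
    Finset (ℤ × ℤ) := O1.filter fun l => Xor (l ∈ S) (Xor (l ∈ A.F) (φ l ∈ B.F))

/-- **Bookkeeping of the labels of a move.** -/
structure LMove (A : WD β) (B : WD γ) (φ : ℤ × ℤ → ℤ × ℤ) (S : Set (ℤ × ℤ)) (O1 O2 : Finset (ℤ × ℤ)) :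
    Prop where
  s1 : O1 ⊆ A.E
  s2 : O2 ⊆ B.E
  im : O1.image φ = O2
  inj : Set.InjOn φ O1
  blk : ∀ l ∈ O1, ∀ l' ∈ O1, A.b l = A.b l' ↔ B.b (φ l) = B.b (φ l')
  par : ∀ l ∈ O1, ∀ l' ∈ O1, A.b l = A.b l' → l ∈ fl A B φ S O1 → l' ∈ fl A B φ S O1
  w1 : ∀ l ∈ O1, l ∉ A.W
  w2 : ∀ l ∈ O2, l ∉ B.W

variable {A : WD β} {B : WD γ} {φ : ℤ × ℤ → ℤ × ℤ} {S : Set (ℤ × ℤ)} {O1 O2 : Finset (ℤ × ℤ)}

lemma fl_subset : fl A B φ S O1 ⊆ O1 := by
  classical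
  unfold fl
  exact filter_subset _ _

/-- the measure preserving map of the outsides -/
noncomputable def LT (A : WD β) (B : WD γ) (φ : ℤ × ℤ → ℤ × ℤ) (S : Set (ℤ × ℤ)) (O1 : Finset (ℤ × ℤ)) :
    Finset (ℤ × ℤ) → Finset (ℤ × ℤ) := Tm φ (fl A B φ S O1)

/-- the coupling of 35 -/
theorem LMove.coup (L : LMove A B φ S O1 O2) (Blk : Finset (ℤ × ℤ) → Prop) :
    Coup A.E A.b B.E B.b O1 O2 (LT A B φ S O1) Blk :=
  Coup.mk' L.s1 L.s2 L.im fl_subset (fun l hl l' hl' h => L.par l (fl_subset hl) l' hl' h hl) L.blk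

/-- `ω2` and `ω1` correspond outside -/
def Cor (A : WD β) (B : WD γ) (φ : ℤ × ℤ → ℤ × ℤ) (S : Set (ℤ × ℤ)) (O1 O2 : Finset (ℤ × ℤ))
    (ω1 ω2 : Finset (ℤ × ℤ)) : Prop :=
  ω1 ⊆ A.E ∧ ω2 ⊆ B.E ∧ ω2 ∩ O2 = LT A B φ S O1 (ω1 ∩ O1)

/-- **The states of corresponding random labels**: flipped iff the label is in `S`. -/
theorem LMove.state (L : LMove A B φ S O1 O2) {ω1 ω2 : Finset (ℤ × ℤ)} (h : Cor A B φ S O1 O2 ω1 ω2)
    {l : ℤ × ℤ} (hl : l ∈ O1) : φ l ∈ B.st ω2 ↔ Xor (l ∈ A.st ω1) (l ∈ S) := by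
  have h2 : φ l ∈ O2 := L.im ▸ mem_image_of_mem φ hl
  rw [WD.mem_st (L.w1 l hl), WD.mem_st (L.w2 _ h2)]
  have e1 : φ l ∈ ω2 ↔ φ l ∈ LT A B φ S O1 (ω1 ∩ O1) := by
    rw [← h.2.2, mem_inter]
    exact ⟨fun g => ⟨g, h2⟩, fun g => g.1⟩
  have e2 : φ l ∈ LT A B φ S O1 (ω1 ∩ O1) ↔ _ := mem_Tm fl_subset L.inj inter_subset_right hl
  rw [e1, e2, mem_inter]
  have e3 : l ∈ fl A B φ S O1 ↔ Xor (l ∈ S) (Xor (l ∈ A.F) (φ l ∈ B.F)) := by
    classical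
    unfold fl
    rw [mem_filter]
    exact ⟨fun g => g.2, fun g => ⟨hl, g⟩⟩
  rw [e3]
  have hl' : l ∈ O1 := hl
  by_cases a1 : l ∈ ω1 <;> by_cases a2 : l ∈ S <;> by_cases a3 : l ∈ A.F <;>
    by_cases a4 : φ l ∈ B.F <;> simp [a1, a2, a3, a4, hl', Xor]

end

/-! ### Deterministic part -/

section det
variable {α δ : Type*} {G1 G1o : SimpleGraph α} {K : Set α} {G2 : SimpleGraph δ} {R : α → δ → Prop}
  {I : Set δ} {b : δ}

/-- the far end of the moving end -/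
theorem Simu.far (M : Simu G1 G1o K G2 R)
    (hI : ∀ u v, u ∈ I → v ∉ I → G2.Adj u v → v = b)
    (hK : ∀ c ∈ K, ∀ c', R c c' → c' ∈ I) {z : α} {z' : δ} (hz : z ∈ K) (hz' : z' ∈ I)
    {ι : Type*} {x : ι → α} {y : ι → δ} (hR : ∀ i, R (x i) (y i)) (hy : ∀ i, y i ∉ I)
    (ex1 : ∃ i, G1.Reachable z (x i)) (ex2 : ∃ i, G2.Reachable z' (y i))
    (un : ∀ i j, G2.Reachable z' (y i) → G2.Reachable z' (y j) → i = j) (i : ι) :
    G1.Reachable z (x i) ↔ G2.Reachable z' (y i) := by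
  have hb : G2.Reachable z' b := by
    obtain ⟨j, hj⟩ := ex2
    exact reach_exit hI hz' (hy j) hj
  have key : ∀ j, G1.Reachable z (x j) → G2.Reachable z' (y j) := fun j h =>
    M.conn hI hK h (Or.inr ⟨hz, hb⟩) (Or.inl ⟨hR j, hy j⟩)
  refine ⟨key i, fun h => ?_⟩
  obtain ⟨j, hj⟩ := ex1
  rw [un i j h (key j hj)]
  exact hj

/-- **Visible corners**: the strand of an end `x` which is not joined to the exit passes the same corners
outside the block in both worlds. `hs` : the reverse simulation outside `I`. -/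
theorem Simu.vis (M : Simu G1 G1o K G2 R)
    (hI : ∀ u v, u ∈ I → v ∉ I → G2.Adj u v → v = b)
    (hK : ∀ c ∈ K, ∀ c', R c c' → c' ∈ I) {R' : δ → α → Prop}
    (hs : ∀ c' d' c, (Pool.Agent.H99.W.off G2 I).Adj c' d' → R' c' c → ∃ d, R' d' d ∧ G1.Reachable c d)
    (hR' : ∀ c' c d, R c c' → R' c' d → G1.Reachable c d) {x : α} {y : δ} (hx : R x y) (hx' : R' y x)
    (hyI : y ∉ I) (hyb : ¬ G2.Reachable y b) {c : α} {c' : δ} (hc : R c c' ∨ (c ∈ K ∧ c' ∈ I)) :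
    G1.Reachable x c ↔ G2.Reachable y c' := by
  constructor
  · intro h
    obtain ⟨q, hq, hxq⟩ := M.conn_off hI hK h (Or.inl ⟨y, hx, (ctr_out hyI).symm⟩)
    have hqb : q ≠ b := fun e => hyb (e ▸ reach_of_off hxq)
    rcases hq with ⟨c'', h1, h2⟩ | ⟨-, h2⟩
    · rcases hc with h3 | ⟨h3, -⟩
      · by_cases hI2 : c'' ∈ I
        · exact absurd (h2.trans (ctr_in hI2)) hqb
        · rw [ctr_out hI2] at h2
          rw [h2] at hxq
          exact (reach_of_off hxq).trans (M.uniq c c'' c' h1 h3)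
      · exact absurd (h2.trans (ctr_in (hK c h3 c'' h1))) hqb
    · exact absurd h2 hqb
  · intro h
    have h1 := off_ctr hI h
    rw [ctr_out hyI] at h1
    have hcI : c' ∉ I := fun hcI => by
      rw [ctr_in hcI] at h1
      exact hyb (reach_of_off h1)
    rw [ctr_out hcI] at h1
    have hRc : R c c' := by
      rcases hc with h3 | ⟨-, h3⟩
      · exact h3
      · exact absurd h3 hcI
    have key : ∀ (u v : δ) (p : (Pool.Agent.H99.W.off G2 I).Walk u v) (a : α), R' u a →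
        ∃ d, R' v d ∧ G1.Reachable a d := by
      intro u v p
      induction p with
      | nil => exact fun a ha => ⟨a, ha, SimpleGraph.Reachable.refl _⟩
      | @cons u v w ha _ ih =>
        intro a hRa
        obtain ⟨d, h3, h4⟩ := hs u v a ha hRa
        obtain ⟨d2, h5, h6⟩ := ih d h3
        exact ⟨d2, h5, h4.trans h6⟩
    obtain ⟨p⟩ := h1
    obtain ⟨d, h3, h4⟩ := key _ _ p x hx'
    exact h4.trans (hR' c' c d hRc h3).symm

end det

/-! ### One moving end against the canonical world -/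

section half
variable {β γ : Type*} [DecidableEq β] [DecidableEq γ] {ι : Type*}

/-- **Comparison of the end `z` of `A` with the end `z'` of the canonical world `B`.** `x i`, `y i` far ends;
`K` = corners at the inner block; `R ω1 ω2` = images of the corners. -/
structure Half (A : WD β) (B : WD γ) (φ : ℤ × ℤ → ℤ × ℤ) (S : Set (ℤ × ℤ)) (O1 O2 : Finset (ℤ × ℤ))
    (K : Set (ℤ × ℤ)) (R : ℤ × ℤ → ℤ × ℤ → Prop) (z z' : ℤ × ℤ) (x y : ι → ℤ × ℤ)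
    (Blk : Finset (ℤ × ℤ) → Prop) : Prop where
  lm : LMove A B φ S O1 O2
  /-- the move (19) -/
  simu : ∀ ω1 ω2, Cor A B φ S O1 O2 ω1 ω2 → ∃ G1o, Simu (A.G ω1) G1o K (B.G ω2) R
  /-- the block with one exit (99, 1, 55) -/
  blk : ∀ ω2, ω2 ⊆ B.E → Blk (ω2 ∩ O2) → ∃ (I : Set (ℤ × ℤ)) (b : ℤ × ℤ),
    (∀ u v, u ∈ I → v ∉ I → (B.G ω2).Adj u v → v = b) ∧ (∀ c ∈ K, ∀ c', R c c' → c' ∈ I) ∧ z' ∈ I ∧
    ∀ i, y i ∉ I
  hz : z ∈ K
  hR : ∀ i, R (x i) (y i)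
  /-- existence and uniqueness of the far end (45) -/
  ex1 : ∀ ω, ω ⊆ A.E → ∃ i, (A.G ω).Reachable z (x i)
  ex2 : ∀ ω, ω ⊆ B.E → ∃ i, (B.G ω).Reachable z' (y i)
  un : ∀ ω, ω ⊆ B.E → ∀ i j, (B.G ω).Reachable z' (y i) → (B.G ω).Reachable z' (y j) → i = j

variable {A : WD β} {B : WD γ} {φ : ℤ × ℤ → ℤ × ℤ} {S : Set (ℤ × ℤ)} {O1 O2 : Finset (ℤ × ℤ)}
  {K : Set (ℤ × ℤ)} {R : ℤ × ℤ → ℤ × ℤ → Prop} {z z' : ℤ × ℤ} {x y : ι → ℤ × ℤ}
  {Blk : Finset (ℤ × ℤ) → Prop}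

theorem Half.far (H : Half A B φ S O1 O2 K R z z' x y Blk) {ω1 ω2 : Finset (ℤ × ℤ)}
    (hC : Cor A B φ S O1 O2 ω1 ω2) (hb : Blk (ω2 ∩ O2)) (i : ι) :
    (A.G ω1).Reachable z (x i) ↔ (B.G ω2).Reachable z' (y i) := by
  obtain ⟨G1o, M⟩ := H.simu ω1 ω2 hC
  obtain ⟨I, b, h1, h2, h3, h4⟩ := H.blk ω2 hC.2.1 hb
  exact M.far h1 h2 H.hz h3 H.hR h4 (H.ex1 ω1 hC.1) (H.ex2 ω2 hC.2.1) (H.un ω2 hC.2.1) i

/-- the value with weights `v i` -/
noncomputable def val (A : WD β) (z : ℤ × ℤ) (x : ι → ℤ × ℤ) (v : ι → ℂ) [Fintype ι] : ℂ :=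
  ∑ i, v i * (PB A.E A.b (fun ω => (A.G ω).Reachable z (x i)) : ℂ)

lemma Half.un1 (H : Half A B φ S O1 O2 K R z z' x y Blk)
    (hun : ∀ ω, ω ⊆ A.E → ∀ i j, (A.G ω).Reachable z (x i) → (A.G ω).Reachable z (x j) → i = j) :
    ∀ i j : ι, i ≠ j → ∀ ω, ω ⊆ A.E → ¬ ((A.G ω).Reachable z (x i) ∧ (A.G ω).Reachable z (x j)) :=
  fun i j hij ω hω h => hij (hun ω hω i j h.1 h.2)

/-- **The values differ by at most `2 M P (no block)`.** -/
theorem Half.le [Fintype ι] (H : Half A B φ S O1 O2 K R z z' x y Blk)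
    (hun : ∀ ω, ω ⊆ A.E → ∀ i j, (A.G ω).Reachable z (x i) → (A.G ω).Reachable z (x j) → i = j)
    {v : ι → ℂ} {M : ℝ} (hM : 0 ≤ M) (hv : ∀ i, ‖v i‖ ≤ M) :
    ‖val A z x v - val B z' y v‖ ≤ 2 * M * PB B.E B.b (fun ω => ¬ Blk (ω ∩ O2)) := by
  refine (H.lm.coup Blk).le univ v (fun i _ => hv i) hM ?_ ?_ ?_
  · intro i _ ω1 h1 ω2 h2 h3 h4
    exact H.far ⟨h1, h2, h3⟩ h4 i
  · exact fun i _ j _ hij ω hω => H.un1 hun i j hij ω hω
  · exact fun i _ j _ hij ω hω h => hij (H.un ω hω i j h.1 h.2)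

/-- the same for general functionals -/
theorem Half.EB_le (H : Half A B φ S O1 O2 K R z z' x y Blk) {V1 V2 : Finset (ℤ × ℤ) → ℂ} {M : ℝ}
    (hM : 0 ≤ M) (h1 : ∀ ω, ω ⊆ A.E → ‖V1 ω‖ ≤ M) (h2 : ∀ ω, ω ⊆ B.E → ‖V2 ω‖ ≤ M)
    (h : ∀ ω1 ω2, Cor A B φ S O1 O2 ω1 ω2 → Blk (ω2 ∩ O2) → V1 ω1 = V2 ω2) :
    ‖EB A.E A.b V1 - EB B.E B.b V2‖ ≤ 2 * M * PB B.E B.b (fun ω => ¬ Blk (ω ∩ O2)) :=
  Pool.Agent.H82.W.Coup.EB_le (H.lm.coup Blk) hM h1 h2 fun ω1 g1 ω2 g2 g3 g4 => h ω1 ω2 ⟨g1, g2, g3⟩ g4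

end half

/-- **LocalChord**: `f` = value of the moving end above, `g` = below, `a`, `a'` = values of the two canonical worlds
`G-up` and `G-low`, `s` = sign, `e` = block terms, `η` = one-row terms. -/
theorem local_chord {X Y : Type*} {f : X → ℂ} {g : Y → ℂ} {a a' s : ℂ} {e e' η : ℝ}
    (hf : ∀ z, ‖f z - a‖ ≤ e) (hg : ∀ z, ‖g z - a'‖ ≤ e') (hη : ‖a' - s * a‖ ≤ η) :
    ∃ c : ℂ, (∀ z, ‖f z - c‖ ≤ e) ∧ ∀ z, ‖g z - s * c‖ ≤ e' + η := by
  refine ⟨a, hf, fun z => ?_⟩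
  calc ‖g z - s * a‖ = ‖(g z - a') + (a' - s * a)‖ := by ring_nf
    _ ≤ _ := (norm_add_le _ _).trans (add_le_add (hg z) hη)

end Pool.Agent.H82.W
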