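import Mathlib
import Pool.Agent.H82.W.EB

set_option autoImplicit false
set_option linter.unusedSectionVars false
open Finset

/-! # Values with respect to two families of far ends

`far_conv` : in world 1 the far ends are `y i`, in world 2 the far ends `X k` belong to `π k` (e.g. the two loose
corners of a mark). If the end of world 1 at `y i` implies an end of world 2 at some `X k` with `π k = i`, and
the far end of world 2 is unique, the values are equal. -/

namespace Pool.Agent.H82.W

open Pool.Agent.H58.W Pool.Agent.H35.W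

variable {α β : Type*} [DecidableEq α] [DecidableEq β]

/-- probability of a disjoint union -/
lemma PB_disj {κ : Type*} [Fintype κ] (E : Finset α) (b : α → β) (P : κ → Finset α → Prop) (A : Finset α → Prop)
    (hA : ∀ ω, ω ⊆ E → (A ω ↔ ∃ k, P k ω)) (un : ∀ ω, ω ⊆ E → ∀ k k', P k ω → P k' ω → k = k') :
    (PB E b A : ℂ) = ∑ k, (PB E b (P k) : ℂ) := by
  classical
  rw [← EB_ind]
  have h1 : ∀ k, (PB E b (P k) : ℂ) = EB E b (fun ω => if P k ω then 1 else 0) := fun k =>
    (EB_ind E b (P k)).symm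
  rw [sum_congr rfl fun k _ => h1 k, ← EB_sum]
  refine EB_congr fun ω hω => ?_
  by_cases h : A ω
  · rw [if_pos h]
    obtain ⟨k, hk⟩ := (hA ω hω).1 h
    rw [sum_eq_single k, if_pos hk]
    · intro k' _ hk'
      rw [if_neg fun h' => hk' (un ω hω k' k h' hk)]
    · exact fun h' => absurd (mem_univ k) h'
  · rw [if_neg h]
    symm
    refine sum_eq_zero fun k _ => ?_
    rw [if_neg fun h' => h ((hA ω hω).2 ⟨k, h'⟩)]

/-- **Conversion of the far ends.** -/
theorem far_conv {ι κ γ δ : Type*} [Fintype ι] [Fintype κ] {E : Finset α} {b : α → β}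
    {G1 : Finset α → SimpleGraph γ} {G2 : Finset α → SimpleGraph δ} {z1 : γ} {z2 : δ} {y : ι → γ} {X : κ → δ}
    (π : κ → ι)
    (h1 : ∀ ω, ω ⊆ E → ∀ i, (G1 ω).Reachable z1 (y i) → ∃ k, π k = i ∧ (G2 ω).Reachable z2 (X k))
    (ex : ∀ ω, ω ⊆ E → ∃ i, (G1 ω).Reachable z1 (y i))
    (un : ∀ ω, ω ⊆ E → ∀ k k', (G2 ω).Reachable z2 (X k) → (G2 ω).Reachable z2 (X k') → k = k')
    (v : ι → ℂ) :
    ∑ i, v i * (PB E b (fun ω => (G1 ω).Reachable z1 (y i)) : ℂ) =
      ∑ k, v (π k) * (PB E b (fun ω => (G2 ω).Reachable z2 (X k)) : ℂ) := by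
  classical
  have key : ∀ i, (PB E b (fun ω => (G1 ω).Reachable z1 (y i)) : ℂ) =
      ∑ k, if π k = i then (PB E b (fun ω => (G2 ω).Reachable z2 (X k)) : ℂ) else 0 := by
    intro i
    rw [PB_disj (κ := κ) E b (fun k ω => π k = i ∧ (G2 ω).Reachable z2 (X k))
      (fun ω => (G1 ω).Reachable z1 (y i))]
    · refine sum_congr rfl fun k _ => ?_
      by_cases hk : π k = i
      · rw [if_pos hk]
        congr 1
        exact PB_congr fun ω _ => ⟨fun h => h.2, fun h => ⟨hk, h⟩⟩
      · rw [if_neg hk]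
        have : PB E b (fun ω => π k = i ∧ (G2 ω).Reachable z2 (X k)) = 0 := by
          have e1 : PB E b (fun ω => π k = i ∧ (G2 ω).Reachable z2 (X k)) = PB E b (fun _ => False) :=
            PB_congr fun ω _ => ⟨fun h => hk h.1, fun h => h.elim⟩
          rw [e1]
          unfold PB
          rw [Pool.Agent.H75.Perc.Pr_eq]
          simp
        rw [this]; simp
    · intro ω hω
      constructor
      · exact fun h => h1 ω hω i h
      · rintro ⟨k, hk, h⟩
        obtain ⟨i', hi'⟩ := ex ω hω
        obtain ⟨k', hk', h'⟩ := h1 ω hω i' hi'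
        have := un ω hω k k' h h'
        subst this
        rw [← hk, hk']; exact hi'
    · exact fun ω hω k k' h h' => un ω hω k k' h.2 h'.2
  rw [sum_congr rfl fun i _ => by rw [key i]]
  simp_rw [mul_sum]
  rw [sum_comm]
  refine sum_congr rfl fun k _ => ?_
  rw [sum_eq_single (π k)]
  · rw [if_pos rfl]
  · intro i _ hi
    rw [if_neg fun h => hi h.symm, mul_zero]
  · exact fun h => absurd (mem_univ _) h

end Pool.Agent.H82.W
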