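import Mathlib
import Pool.Agent.H71.W.J6B
import Pool.Agent.H55.W.JCh
import Pool.Agent.H87.W.Fields

set_option autoImplicit false
open Finset

/-! # Numbers of J6

`jnum` : for a point `x < -σ` of the slit and a scale `s` all numerical hypotheses of the chord comparison:
71's `UpH`, 55's `JWin`, the size of the block. -/

namespace Pool.Agent.H82.W

open Pool.Agent.H61.W Pool.Agent.H6.W Pool.Agent.H21.W Pool.Agent.H71.W Pool.Agent.H55.W
open Pool.Agent.H87.Fld (Rb)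

/-- the row of a tile of the room above the slit is above all plates to its right -/
lemma vt_of {b : JBox} {n : ℤ} (hM : 0 < b.M) (hn : 0 < n) {v : ℤ × ℤ} (hv : InR b n v.1 v.2)
    (h0 : -(b.τ * n : ℤ) ≤ v.2) {i : ℕ} (hi : v.1 < -(i * b.M * n : ℤ)) :
    ((b.τ : ℤ) + i) * n ≤ v.2 := by
  have hMn : (0 : ℤ) < b.M * n := mul_pos (by exact_mod_cast hM) hn
  have hi0 : (0 : ℤ) ≤ i * (b.M * n) := mul_nonneg (by positivity) hMn.le
  have hneg : v.1 < 0 := by nlinarith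
  set j : ℕ := ((-v.1 - 1) / (b.M * n)).toNat with hj
  have hq : 0 ≤ (-v.1 - 1) / (b.M * n) := Int.ediv_nonneg (by omega) hMn.le
  have hjz : (j : ℤ) = (-v.1 - 1) / (b.M * n) := by rw [hj]; omega
  have e1 := Int.ediv_mul_le (-v.1 - 1) hMn.ne'
  have e2 := Int.lt_ediv_add_one_mul_self (-v.1 - 1) hMn
  rw [← hjz] at e1 e2
  have hij : (i : ℤ) ≤ j := by
    by_contra hc
    have h1 : (j : ℤ) + 1 ≤ i := by omega
    have h2 : ((j : ℤ) + 1) * (b.M * n) ≤ i * (b.M * n) := mul_le_mul_of_nonneg_right h1 hMn.le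
    have h3 : (i : ℤ) * (b.M * n) = i * b.M * n := by ring
    linarith
  by_contra hc
  push Not at hc
  have hjn : ((b.τ : ℤ) + i) * n ≤ ((b.τ : ℤ) + j) * n := mul_le_mul_of_nonneg_right (by omega) hn.le
  have hjn' : (b.τ : ℤ) * n ≤ ((b.τ : ℤ) + j) * n := mul_le_mul_of_nonneg_right (by omega) hn.le
  have hch : chn 0 b.M b.τ (v.1 / n, v.2 / n) = some j := by
    rw [chn_tile hM hn]
    refine ⟨⟨?_, ?_⟩, ?_, ?_⟩
    · have : ((j : ℤ) + 1) * b.M * n = (j + 1) * (b.M * n) := by ring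
      rw [this]; linarith
    · have : (j : ℤ) * b.M * n = j * (b.M * n) := by ring
      rw [this]; linarith
    · linarith
    · linarith
  have hR := hv.2
  rw [hch] at hR
  exact absurd hR (by simp)

theorem jnum {σ x : ℝ} (hσ : 0 < σ) (hx : x < -σ) : ∃ ρ0 C : ℝ, 0 < ρ0 ∧ 0 < C ∧ ∀ s : ℝ, 0 < s → s < ρ0 →
    ∃ δ0 : ℝ, 0 < δ0 ∧ δ0 ≤ 1 ∧ ∀ (b : JBox) (δ : ℝ), 0 < δ → δ ≤ δ0 → b.Ok δ σ →
      ∃ k q r a : ℕ, 2 ≤ a ∧ 8 * b.M ≤ q ∧ a ≤ q ∧ q ≤ r ∧ JWin b k r ∧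
        10 * r + b.m * b.M ≤ k * b.M ∧ 3 * (q : ℝ) / r ≤ C * s ∧ ∀ h : ℕ, 1 ≤ h →
        (2 * (a * (2 * h)) + 1 : ℤ) ≤ 18 * q * h ∧
        ∀ (Yd y0 x1 : ℤ) (v : ℤ × ℤ), -(b.τ * (2 * h) : ℤ) < y0 → y0 + 2 ≤ Yd →
          Yd + 1 < b.τ * (2 * h) → |(v.1 : ℝ) - x * Rb b h| ≤ s * Rb b h →
          |(v.2 : ℝ)| ≤ s * Rb b h → Yd < v.2 → InR b (2 * h) v.1 v.2 →
          UpH δ σ b h x1 y0 (-(k * b.M * (2 * h) : ℤ)) (-(k * b.M * (2 * h) : ℤ) + a * (2 * h))
            (-(k * b.M * (2 * h) : ℤ) - a * (2 * h)) (a * (2 * h)) Yd v := by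
  set ρ : ℝ := min ((-x - σ) / 20) (1 / 20) with hρ
  have hρ0 : 0 < ρ := lt_min (by linarith) (by norm_num)
  have hρ1 : ρ ≤ 1 / 20 := min_le_right _ _
  have hρ2 : 20 * ρ ≤ -x - σ := by
    have := min_le_left ((-x - σ) / 20) (1 / 20 : ℝ)
    linarith
  refine ⟨ρ / 4, 12 / ρ, by positivity, by positivity, fun s hs hsρ => ?_⟩
  refine ⟨min (min (s / 12) (ρ / 100)) (1 / (10 * ρ - x + 1)), ?_, ?_, ?_⟩
  · have : 0 < 10 * ρ - x + 1 := by linarith
    positivity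
  · refine (min_le_left _ _).trans ((min_le_right _ _).trans ?_)
    linarith
  intro b δ hδ hδ0 hb
  have d1 : δ ≤ s / 12 := hδ0.trans ((min_le_left _ _).trans (min_le_left _ _))
  have d2 : δ ≤ ρ / 100 := hδ0.trans ((min_le_left _ _).trans (min_le_right _ _))
  have hxp : 0 < 10 * ρ - x + 1 := by linarith
  have d3 : δ * (10 * ρ - x + 1) ≤ 1 := by
    have := hδ0.trans (min_le_right _ _)
    rw [le_div_iff₀ hxp] at this
    exact this
  -- the box
  have hH : (0 : ℝ) < b.H := by exact_mod_cast hb.H0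
  have hM : (1 : ℝ) ≤ b.M := by exact_mod_cast hb.M0
  have hMδ := hb.M_le
  have hHX := hb.X_ge
  have hXH : (10 * ρ - x + 1) * b.H ≤ b.X := by
    have h1 : (10 * ρ - x + 1) * b.H ≤ (10 * ρ - x + 1) * (δ * b.X) := mul_le_mul_of_nonneg_left hHX hxp.le
    have h2 : (10 * ρ - x + 1) * (δ * b.X) = δ * (10 * ρ - x + 1) * b.X := by ring
    have h3 : δ * (10 * ρ - x + 1) * b.X ≤ 1 * b.X := mul_le_mul_of_nonneg_right d3 (by positivity)
    linarith
  have hτ := hb.τ_le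
  have hXM : (b.X : ℝ) = nP b * b.M := by exact_mod_cast X_eq hb
  have hM0 : (0 : ℝ) < b.M := by linarith
  have hnP : (b.X : ℝ) / b.M = nP b := by rw [hXM]; field_simp
  rw [hnP] at hτ
  have hlen := hb.len
  have hδH : δ * b.H ≤ ρ / 100 * b.H := mul_le_mul_of_nonneg_right d2 hH.le
  have hδH' : δ * b.H ≤ s / 12 * b.H := mul_le_mul_of_nonneg_right d1 hH.le
  -- products
  have p1 : 0 < ρ * b.H := by positivity
  have p2 : s * b.H ≤ ρ / 4 * b.H := mul_le_mul_of_nonneg_right hsρ.le hH.le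
  have p3 : 20 * ρ * b.H ≤ (-x - σ) * b.H := mul_le_mul_of_nonneg_right hρ2 hH.le
  have p4 : ρ * b.H ≤ 1 / 20 * b.H := mul_le_mul_of_nonneg_right hρ1 hH.le
  have p5 : 0 < σ * b.H := by positivity
  have p6 : 0 < s * b.H := by positivity
  -- the numbers
  set k : ℕ := ⌊-x * b.H / b.M⌋₊ with hk
  set a : ℕ := ⌈s * b.H⌉₊ + b.M + 1 + b.τ + nP b with ha
  set q : ℕ := a + 8 * b.M with hq
  set r : ℕ := ⌊ρ * b.H⌋₊ with hr
  have hx0 : 0 < -x := by linarith
  have k1 : (k : ℝ) * b.M ≤ -x * b.H := by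
    have := Nat.floor_le (show 0 ≤ -x * b.H / b.M by positivity)
    rwa [le_div_iff₀ hM0] at this
  have k2 : -x * b.H < (k + 1) * b.M := by
    have := Nat.lt_floor_add_one (-x * b.H / b.M)
    rwa [div_lt_iff₀ hM0] at this
  have r1 : (r : ℝ) ≤ ρ * b.H := Nat.floor_le (by positivity)
  have r2 : ρ * b.H < r + 1 := Nat.lt_floor_add_one _
  have a1 : s * b.H + b.M + 1 + b.τ + nP b ≤ (a : ℝ) := by
    rw [ha]; push_cast
    have := Nat.le_ceil (s * b.H)
    linarith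
  have a2 : (a : ℝ) < s * b.H + 1 + b.M + 1 + b.τ + nP b := by
    rw [ha]; push_cast
    have := Nat.ceil_lt_add_one (show 0 ≤ s * b.H by positivity)
    linarith
  have q1 : (q : ℝ) = a + 8 * b.M := by rw [hq]; push_cast; ring
  have hM1 : (1 : ℝ) ≤ δ * b.H := hM.trans hMδ
  have hτ0 : (0 : ℝ) ≤ b.τ := by positivity
  have hnP0 : (0 : ℝ) ≤ nP b := by positivity
  have qs : (q : ℝ) ≤ s * b.H + 12 * (δ * b.H) := by
    rw [q1]; linarith
  have qr' : (q : ℝ) + 2 ≤ ρ * b.H := by linarith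
  have hqr : q ≤ r := by
    have : (q : ℝ) < r + 1 := by linarith
    exact_mod_cast Nat.lt_add_one_iff.1 (by exact_mod_cast this)
  have haq : a ≤ q := by rw [hq]; omega
  have aq' : (a : ℝ) ≤ q := by exact_mod_cast haq
  have qr'' : (q : ℝ) ≤ r := by exact_mod_cast hqr
  have hw : JWin b k r := by
    refine ⟨?_, ?_, ?_⟩
    · have : (10 * r : ℝ) ≤ k * b.M := by linarith
      exact_mod_cast this
    · have : (10 * r + k * b.M : ℝ) ≤ b.X := by linarith
      exact_mod_cast this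
    · have : (10 * r : ℝ) < b.H := by linarith
      exact_mod_cast this
  have hPw : 10 * r + b.m * b.M ≤ k * b.M := by
    have : (10 * r + b.m * b.M : ℝ) ≤ k * b.M := by
      rw [hlen]; linarith
    exact_mod_cast this
  have hcs : 3 * (q : ℝ) / r ≤ 12 / ρ * s := by
    have hr0 : (0 : ℝ) < r := by linarith [show (0 : ℝ) ≤ q by positivity]
    rw [div_le_iff₀ hr0]
    have e1 : (q : ℝ) ≤ 2 * (s * b.H) := by linarith
    have e2 : ρ * b.H / 2 ≤ r := by linarith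
    have e3 : 12 / ρ * s * (ρ * b.H / 2) ≤ 12 / ρ * s * r :=
      mul_le_mul_of_nonneg_left e2 (by positivity)
    have e4 : 12 / ρ * s * (ρ * b.H / 2) = 6 * (s * b.H) := by field_simp; ring
    linarith
  refine ⟨k, q, r, a, ?_, by rw [hq]; omega, haq, hqr, hw, hPw, hcs, fun h hh => ⟨?_, ?_⟩⟩
  · rw [ha]
    have := hb.M0
    omega
  · have h1 : (a : ℤ) ≤ q := by exact_mod_cast haq
    have h2 : (1 : ℤ) ≤ q := by
      have := hb.M0
      have : 1 ≤ q := by rw [hq]; omega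
      exact_mod_cast this
    have h3 : (1 : ℤ) ≤ h := by exact_mod_cast hh
    have h4 := mul_le_mul_of_nonneg_right h1 (by omega : (0 : ℤ) ≤ h)
    have h5 := mul_le_mul h2 h3 (by norm_num) (by omega : (0 : ℤ) ≤ q)
    linarith
  intro Yd y0 x1 v hy0 hyd hYd hv1 hv2 hvd hvR
  have hn : (0 : ℝ) < 2 * h := by
    have : (1 : ℝ) ≤ h := by exact_mod_cast hh
    linarith
  have hR : Rb b h = 2 * h * b.H := rfl
  rw [abs_le] at hv1 hv2
  rw [hR] at hv1 hv2
  -- real forms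
  have v1u : (v.1 : ℝ) ≤ (x * b.H + s * b.H) * (2 * h) := by linarith [hv1.2]
  have v1l : (x * b.H - s * b.H) * (2 * h) ≤ (v.1 : ℝ) := by linarith [hv1.1]
  have v2u : (v.2 : ℝ) ≤ s * b.H * (2 * h) := by linarith [hv2.2]
  have f1 : (v.1 : ℝ) < (-(k * b.M) + a) * (2 * h) := by
    refine lt_of_le_of_lt v1u (mul_lt_mul_of_pos_right ?_ hn)
    linarith
  have f2 : (-(k * b.M) - a : ℝ) * (2 * h) ≤ v.1 := by
    refine le_trans (mul_le_mul_of_nonneg_right ?_ hn.le) v1l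
    linarith
  have f3 : (v.2 : ℝ) < a * (2 * h) := by
    refine lt_of_le_of_lt v2u (mul_lt_mul_of_pos_right ?_ hn)
    linarith
  have f4 : (v.2 : ℝ) < b.H * (2 * h) := by
    refine lt_of_le_of_lt v2u (mul_lt_mul_of_pos_right ?_ hn)
    linarith
  have g1 : v.1 < -(k * b.M * (2 * h) : ℤ) + a * (2 * h) := by
    have : (v.1 : ℝ) < ((-(k * b.M * (2 * h)) + a * (2 * h) : ℤ) : ℝ) := by push_cast; linarith
    exact_mod_cast this
  have hnz : (0 : ℤ) < 2 * h := by omega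
  have hmn : b.m ≤ nP b := by
    have h1 : (b.m * b.M : ℝ) ≤ nP b * b.M := by
      rw [hlen, ← hXM]; linarith
    have h2 := le_of_mul_le_mul_right h1 hM0
    exact_mod_cast h2
  refine ⟨hb, by omega, ?_, hmn, ?_, ?_, ?_, ?_, g1, ?_, ?_, ?_, hyd, hy0.le, by omega, ?_, ?_, hvd⟩
  · -- thk
    have : ((b.τ : ℝ) + nP b) < b.H := by linarith
    exact_mod_cast this
  · -- xl0
    have h1 : ((k : ℝ) * b.M + a) ≤ b.X := by
      have : (10 * r + k * b.M : ℝ) ≤ b.X := by exact_mod_cast hw.wall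
      have h3 : (0 : ℝ) ≤ r := by positivity
      linarith
    have h2 : ((k : ℤ) * b.M + a) ≤ b.X := by exact_mod_cast h1
    linarith [mul_le_mul_of_nonneg_right h2 hnz.le]
  · -- xls
    have : (0 : ℤ) ≤ a * (2 * h) := by positivity
    linarith
  · -- xse
    have : (0 : ℤ) ≤ a * (2 * h) := by positivity
    linarith
  · -- xlv
    have : ((-(k * b.M * (2 * h)) - a * (2 * h) : ℤ) : ℝ) ≤ v.1 := by push_cast; linarith
    exact_mod_cast this
  · -- xem
    have h1 : (b.m * b.M + a : ℝ) ≤ k * b.M := by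
      have : (10 * r + b.m * b.M : ℝ) ≤ k * b.M := by exact_mod_cast hPw
      have h3 : (0 : ℝ) ≤ r := by positivity
      linarith
    have h2 : ((b.m : ℤ) * b.M + a) ≤ k * b.M := by exact_mod_cast h1
    linarith [mul_le_mul_of_nonneg_right h2 hnz.le]
  · -- rho
    have h1 : ((b.τ : ℝ) + nP b) < a := by linarith
    have h2 : ((b.τ : ℤ) + nP b) < a := by exact_mod_cast h1
    exact mul_lt_mul_of_pos_right h2 hnz
  · -- vr
    have : (v.2 : ℝ) < ((a * (2 * h) : ℤ) : ℝ) := by push_cast; exact f3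
    exact_mod_cast this
  · -- vt
    intro i hi _
    have hvi : v.1 < -(i * b.M * (2 * h) : ℤ) := by linarith
    exact vt_of hb.M0 hnz hvR (by linarith) hvi
  · -- vH
    have : (v.2 : ℝ) < ((b.H * (2 * h) : ℤ) : ℝ) := by push_cast; exact f4
    exact_mod_cast this

end Pool.Agent.H82.W
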