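import Mathlib
import Pool.Agent.H78.W.VG
import Pool.Agent.H99.W.BlkXY
import Pool.Agent.H55.W.BlkK

set_option autoImplicit false
set_option linter.unusedVariables false
open Finset

/-! # StChd, V8: the blocks of the canonical worlds `WU`, `WL` of a chord

`CM G C c R dU dL` : the chord `C : Ch` (55) is the chord of the picture `G` near the vertex `c = (xs, Yc)`, plates
raised by `dU` rows on the top and lowered by `dL` rows at the bottom.
`blkU`, `blkL` : the block event (read from `O`) has one exit (99's `blkX`). -/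

namespace Pool.Agent.H82.W

open Pool.Agent.H33.Q1 (lt tt ct lt_odd tt_lt lt_tt lt_inj)
open Pool.Agent.H75.Perc hiding WL CT hh PB
open Pool.Agent.H75.TwoArm Pool.Agent.H75.Four Pool.Agent.H60.Q1
open Pool.Agent.H91.W hiding cT
open Pool.Agent.H55.W Pool.Agent.H99.W Pool.Agent.H78.W Pool.Agent.H99.NC
open Pool.Agent.H19.W (cx cy cx_lt cy_lt lt_cc)
open Pool.Agent.H13.W (SG up dn)

variable {κ : Type*} [DecidableEq κ]

/-- representative label of the plate `i` -/
def rpG (G : Pic κ) (i : ℤ) : ℤ × ℤ := lt (G.m * i, G.Yc)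

lemma rpG_x (G : Pic κ) (i : ℤ) : cx (rpG G i) = G.m * i := cx_lt _
lemma rpG_y (G : Pic κ) (i : ℤ) : cy (rpG G i) = G.Yc := cy_lt _

/-- **The chord of a picture.** -/
structure CM (G : Pic κ) (C : Ch) (c : ℤ × ℤ) (R : ℤ) (dU dL : ℤ → ℤ) (xl H : ℤ) : Prop where
  hX : C.X0 = 0
  hN : 2 * C.N = G.m
  U : ∀ i, C.TU i = G.Yc + 2 * G.h * (G.B - i) + dU i
  L : ∀ i, C.TL i = -G.Yc + 2 * G.h * (G.B - i) + dL i
  cs : c.1 + c.2 = G.xs
  cd : c.2 - c.1 = G.Yc
  wl : xl ≤ G.xs - 2 * R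
  wr : G.xs + 2 * R ≤ G.xe

variable {G : Pic κ} {xl H : ℤ} {C : Ch} {c : ℤ × ℤ} {R τ : ℤ} {dU dL : ℤ → ℤ}

section basic
variable (hG : G.Ok xl H)
include hG

lemma Pk_KN {t : ℤ} {e : ℤ × ℤ} (he : e ∈ G.E) : e ∉ G.KN t := by
  classical
  unfold Pic.KN
  rw [mem_symmDiff, mem_filter, mem_sdiff]
  have := fun h => hG.dis e h he
  tauto

lemma st_U {e : ℤ × ℤ} (he : e ∈ G.E) {ω : Finset (ℤ × ℤ)} :
    e ∈ G.WU.st ω ↔ Xor (e ∈ ω) (e ∈ G.FU) := WD.mem_st (Pk_KN hG he)

lemma st_L {e : ℤ × ℤ} (he : e ∈ G.E \ G.Rt) {ω : Finset (ℤ × ℤ)} :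
    e ∈ G.WL.st ω ↔ Xor (e ∈ ω) (e ∈ G.FL) := by
  classical
  refine WD.mem_st ?_
  show e ∉ G.KN G.Yd ∪ G.RtW
  rw [mem_sdiff] at he
  rw [mem_union]
  unfold Pic.RtW
  rw [mem_filter]
  have := Pk_KN hG he.1 (t := G.Yd)
  tauto

/-- columns of a plate -/
lemma pl_div {i x : ℤ} (h1 : G.m * i ≤ x) (h2 : x < G.m * (i + 1)) : x / G.m = i := by
  have hm := hG.hm
  refine le_antisymm ?_ ((Int.le_ediv_iff_mul_le hm).2 (by linarith [mul_comm i G.m]))
  have : x / G.m < i + 1 := (Int.ediv_lt_iff_lt_mul hm).2 (by linarith [mul_comm (i + 1) G.m])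
  omega

lemma T_div {i x : ℤ} (h1 : G.m * i ≤ x) (h2 : x < G.m * (i + 1)) : G.T x = 2 * G.h * (G.B - i) := by
  unfold Pic.T; rw [pl_div hG h1 h2]

/-- `xs` separates the plates -/
lemma xs_plate {i : ℤ} : G.xs ≤ G.m * i ∨ G.m * (i + 1) ≤ G.xs := by
  obtain ⟨a, ha⟩ := hG.dxs
  have hm := hG.hm
  rcases le_or_gt a i with h | h
  · left; rw [ha]; exact mul_le_mul_of_nonneg_left h hm.le
  · right; rw [ha]; exact mul_le_mul_of_nonneg_left (by omega) hm.le

lemma x_plate {i z x : ℤ} (hz : G.m ∣ z) (h1 : G.m * i ≤ x) (h2 : x < G.m * (i + 1)) :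
    (z ≤ G.m * i ↔ z ≤ x) ∧ (G.m * (i + 1) ≤ z ↔ x < z) := by
  obtain ⟨a, rfl⟩ := hz
  have hm := hG.hm
  refine ⟨⟨fun h => h.trans h1, fun h => ?_⟩, fun h => h2.trans_le h, fun h => ?_⟩
  · have : G.m * a < G.m * (i + 1) := h.trans_lt h2
    exact mul_le_mul_of_nonneg_left (by have := lt_of_mul_lt_mul_left this hm.le; omega) hm.le
  · have : G.m * i < G.m * a := h1.trans_lt h
    exact mul_le_mul_of_nonneg_left (by have := lt_of_mul_lt_mul_left this hm.le; omega) hm.le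

end basic

section main
variable (hG : G.Ok xl H) (hM : CM G C c R dU dL xl H)
include hG hM

/-- the plates of the window are in the band -/
lemma CM.win {i : ℤ} (hi : C.Win c R i) : xl ≤ G.m * i ∧ G.m * (i + 1) ≤ G.xe := by
  obtain ⟨h1, h2⟩ := hi
  have e1 : C.X0 + 2 * C.N * (i + 1) = G.m * (i + 1) := by rw [hM.hX, hM.hN]; ring
  have e2 : C.X0 + 2 * C.N * i = G.m * i := by rw [hM.hX, hM.hN]; ring
  rw [e1, hM.cs] at h1
  rw [e2, hM.cs] at h2
  have w1 := hM.wl
  have w2 := hM.wr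
  have hm := hG.hm
  obtain ⟨a, ha⟩ := hG.dxl
  obtain ⟨a', ha'⟩ := hG.dxe
  constructor
  · have : G.m * a < G.m * (i + 1) := by rw [← ha]; linarith
    rw [ha]
    exact mul_le_mul_of_nonneg_left (by have := lt_of_mul_lt_mul_left this hm.le; omega) hm.le
  · have : G.m * i < G.m * a' := by rw [← ha']; linarith
    rw [ha']
    exact mul_le_mul_of_nonneg_left (by have := lt_of_mul_lt_mul_left this hm.le; omega) hm.le

lemma CM.cols (i : ℤ) : C.X0 + 2 * C.N * i = G.m * i := by rw [hM.hX, hM.hN]; ring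

lemma CM.rpE {i : ℤ} (hi : C.Win c R i) : rpG G i ∈ G.E := by
  obtain ⟨h1, h2⟩ := hM.win hG hi
  have hm := hG.hm
  have h3 : G.m * i < G.m * (i + 1) := by nlinarith
  have := hG.th (G.m * i) h1 (by linarith)
  exact hG.gl _ _ h1 (by linarith) (by linarith) (by linarith)

/-- the plate of a label, without the extra rows -/
lemma CM.name {i x y : ℤ} (hi : C.Win c R i) (h1 : G.m * i ≤ x) (h2 : x < G.m * (i + 1))
    (h3 : G.Yc - G.T x ≤ y) (h4 : y < G.Yc + G.T x) : G.pl x y = some (G.kn i) := by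
  obtain ⟨w1, w2⟩ := hM.win hG hi
  have := hG.th x (by linarith) (by linarith)
  rw [hG.pc x y (by linarith) (by linarith) (by linarith) (by linarith), if_pos ⟨h3, h4⟩,
    pl_div hG h1 h2]

/-- the room profile of the chord -/
lemma CM.Ux (x : ℤ) : C.U x = G.Yc + G.T x + dU (x / G.m) := by
  unfold Ch.U plx Pic.T
  rw [hM.U, hM.hX, hM.hN, sub_zero]

lemma CM.Lx (x : ℤ) : C.L x = -G.Yc + G.T x + dL (x / G.m) := by
  unfold Ch.L plx Pic.T
  rw [hM.L, hM.hX, hM.hN, sub_zero]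

/-- columns of the box -/
lemma CM.box {a : ℤ} (ha : a ≤ R) {e : ℤ × ℤ} (he : e ∈ BR c a) : (e.1 + e.2) % 2 = 1 ∧
    G.xs - 2 * R ≤ cx e ∧ cx e < G.xs + 2 * R ∧ G.Yc - 2 * R ≤ cy e ∧ cy e < G.Yc + 2 * R := by
  rw [mem_BR] at he
  have h1 := hM.cs
  have h2 := hM.cd
  unfold cx cy
  omega

end main

/-- `xs` in plates -/
lemma ge_xs (hG : G.Ok xl H) {x : ℤ} : G.xs / G.m ≤ x / G.m ↔ G.xs ≤ x := by
  obtain ⟨a, ha⟩ := hG.dxs
  have hm := hG.hm
  have e1 : G.xs / G.m = a := by rw [ha]; exact Int.mul_ediv_cancel_left a hm.ne'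
  rw [e1, Int.le_ediv_iff_mul_le hm, ha, mul_comm]

/-- the raised rows of `WU` -/
noncomputable def dUs (G : Pic κ) (i : ℤ) : ℤ := if G.xs / G.m ≤ i then 1 else 0

lemma dUs_x (hG : G.Ok xl H) (x : ℤ) : dUs G (x / G.m) = if G.xs ≤ x then 1 else 0 := by
  unfold dUs
  by_cases h : G.xs ≤ x
  · rw [if_pos ((ge_xs hG).2 h), if_pos h]
  · rw [if_neg (fun h' => h ((ge_xs hG).1 h')), if_neg h]

lemma dUs_i (hG : G.Ok xl H) (i : ℤ) : dUs G i = if G.xs ≤ G.m * i then 1 else 0 := by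
  have hm := hG.hm
  have := dUs_x hG (G.m * i)
  rwa [Int.mul_ediv_cancel_left i hm.ne'] at this

/-- **One exit for the canonical world `WU`.** -/
theorem blkU (hG : G.Ok xl H) (hM : CM G C c R (dUs G) (fun _ => 0) xl H) (hC : C.Ok c R τ) (hh : 2 ≤ G.h)
    {s r : ℕ} (hs : 8 * C.N ≤ s) (hR : 10 * r ≤ R) {O : Finset (ℤ × ℤ)} (hOE : O ⊆ G.E)
    (hO : ∀ e ∈ G.E, e ∉ G.DN G.xs G.Yd → (cx e < G.xs - 28 * s ∨ G.xs + 28 * s ≤ cx e) → e ∈ O)
    {ω : Finset (ℤ × ℤ)} (hB : C.BlkS c (KFull O (bb G.plU) (rpG G) (KW (rpG G) fun _ => True)) s r (ω ∩ O)) :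
    ∃ u : ℕ, s ≤ u ∧ 3 * u ≤ r ∧ OneExit (G.Λ : Set (ℤ × ℤ)) (G.DN G.xs G.Yd) (G.WU.st ω) c u := by
  classical
  obtain ⟨u, hu, hur, hb⟩ := hB
  refine ⟨u, hu, hur, ?_⟩
  have hN : 0 < C.N := by have := hC.hN; omega
  have hs1 : (0 : ℤ) < s := by nlinarith
  have hu1 : (s : ℤ) ≤ u := by exact_mod_cast hu
  have hur' : (3 * u : ℤ) ≤ r := by exact_mod_cast hur
  have hR' : 30 * (u : ℤ) ≤ R := by linarith
  have hm := hG.hm
  have hhZ : (2 : ℤ) ≤ G.h := by exact_mod_cast hh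
  have hwl := hM.wl
  have hwr := hM.wr
  have hR0 : 0 < R := by linarith
  -- state of a label of `E`
  have stF : ∀ {e : ℤ × ℤ}, e ∈ G.FU ↔ e ∈ G.E ∧ G.xs ≤ cx e ∧ cx e < G.xe ∧ G.Yd < cy e ∧
      cy e ≤ G.Yc + G.T (cx e) := by
    intro e; unfold Pic.FU; rw [mem_filter]
  refine blkX hC (by linarith) hR' hb (fun e he => hG.odd e he) (Yl := G.Yc) (Yh := G.Yc + G.h + 1)
    (Yd := G.Yd) ⟨?_, ?_⟩ ⟨?_, ?_, ?_⟩ ?_ ?_
  · -- upper room
    intro e he heU
    obtain ⟨he1, he2⟩ := mem_inter.1 he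
    rw [st_U hG (hOE he2), stF]
    refine Or.inl ⟨he1, fun hF => ?_⟩
    unfold Ch.rU at heU
    rw [mem_RU] at heU
    have h2 := heU.2
    change C.U (cx e) ≤ cy e at h2
    rw [hM.Ux hG, dUs_x hG, if_pos hF.2.1] at h2
    linarith [hF.2.2.2.2]
  · -- lower room
    intro e he heL
    obtain ⟨he1, he2⟩ := mem_inter.1 he
    rw [st_U hG (hOE he2), stF]
    refine Or.inl ⟨he1, fun hF => ?_⟩
    unfold Ch.rL at heL
    rw [mem_RL] at heL
    have h2 := heL.2
    have h4 := hG.th (cx e) (hG.xls.trans hF.2.1) hF.2.2.1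
    change cy e ≤ -1 - C.L (cx e) at h2
    rw [hM.Lx hG] at h2
    have h3 := hF.2.2.2.1
    unfold Pic.Yd at h3
    linarith
  · -- banks below the string
    intro i hi
    obtain ⟨w1, w2⟩ := hM.win hG hi
    have h0 : G.m * i < G.m * (i + 1) := by nlinarith
    have h1 := hG.th (G.m * i) w1 (by linarith)
    rw [T_div hG le_rfl h0] at h1
    rw [hM.L i]
    linarith
  · intro i hi
    obtain ⟨w1, w2⟩ := hM.win hG hi
    have h0 : G.m * i < G.m * (i + 1) := by nlinarith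
    have h1 := hG.th (G.m * i) w1 (by linarith)
    rw [T_div hG le_rfl h0] at h1
    rw [hM.U i]
    have h2 : 0 ≤ dUs G i := by unfold dUs; split_ifs <;> norm_num
    linarith
  · -- deleted tiles of the window
    intro e heD heQ ho
    obtain ⟨-, h | h⟩ := heD
    · change G.Yc ≤ cy e ∧ cy e < _
      rw [h.1]
      unfold Pic.Yd
      constructor <;> linarith
    · exfalso
      rw [mem_Qw] at heQ
      have h1 := hM.cs
      have h2 := h.2.2.1
      unfold cx at h2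
      have h3 := hG.xet
      obtain ⟨⟨q1, q2⟩, q3, q4⟩ := heQ
      omega
  · unfold Pic.Yd
    constructor <;> linarith
  · intro j i hj hi hK
    obtain ⟨hK1, hKj, hKi⟩ := hK
    have Wj := isW_win hN hR' (by linarith) hj
    have Wi := isE_win hN hR' (by linarith) hi
    obtain ⟨j1, j2⟩ := hj
    obtain ⟨i1, i2⟩ := hi
    rw [hM.cols hG, hM.cs] at j1 j2 i1 i2
    have Bj := hM.win hG Wj
    have Bi := hM.win hG Wi
    have hj0 : G.m * j < G.m * (j + 1) := by nlinarith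
    have hi0 : G.m * i < G.m * (i + 1) := by nlinarith
    have Tj := hG.th (G.m * j) Bj.1 (by linarith)
    have Ti := hG.th (G.m * i) Bi.1 (by linarith)
    rw [T_div hG le_rfl hj0] at Tj
    rw [T_div hG le_rfl hi0] at Ti
    -- names
    have nr : ∀ a, C.Win c R a → G.m * (a + 1) ≤ G.xs ∨ G.xs ≤ G.m * a →
        bb G.plU (rpG G a) = Sum.inr (G.kn a) := by
      intro a ha hc
      have h0 : G.m * a < G.m * (a + 1) := by nlinarith
      obtain ⟨w1, w2⟩ := hM.win hG ha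
      have h1 := hG.th (G.m * a) w1 (by linarith)
      have h2 : G.pl (G.m * a) G.Yc = some (G.kn a) := hM.name hG ha le_rfl h0 (by linarith) (by linarith)
      unfold bb Pic.plU
      rw [rpG_x, rpG_y, if_neg (by rintro ⟨-, -, h⟩; linarith), h2]
    refine ⟨?_, rpG G i ∈ ω ∩ O, ?_⟩
    · intro e ho h1 h2 h3 h4
      rw [hM.cols hG] at h1 h2
      change G.m * _ ≤ cx e at h1
      change cx e < _ at h2
      change _ ≤ cy e at h3
      change cy e < _ at h4
      rw [hM.L] at h3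
      rw [hM.U] at h4
      have d1 : dUs G j = 0 := by rw [dUs_i hG, if_neg]; linarith
      have e3 : G.T (cx e) = 2 * G.h * (G.B - j) := T_div hG h1 h2
      have hE : e ∈ G.E := by
        rw [← lt_cc ho]
        exact hG.gl _ _ (by linarith) (by linarith) (by linarith) (by linarith)
      have hD : e ∉ G.DN G.xs G.Yd := by
        rintro ⟨-, h | h⟩
        · linarith [h.2.1]
        · have := hG.xet
          linarith [h.2.2.1]
      refine ⟨⟨fun h => hD h, fun h => h.elim⟩, fun _ => ⟨fun _ => trivial, fun _ => ?_⟩⟩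
      have heO : e ∈ O := hO e hE hD (Or.inl (by linarith))
      have hnm : bb G.plU e = bb G.plU (rpG G j) := by
        rw [nr j Wj (Or.inl (by linarith))]
        unfold bb Pic.plU
        rw [if_neg (by rintro ⟨h, -, -⟩; linarith), hM.name hG Wj h1 h2 (by linarith) (by linarith)]
      have := (hKj e heO hnm).2 (hK1.2 trivial)
      rw [st_U hG hE, stF]
      exact Or.inl ⟨(mem_inter.1 this).1, fun h => by linarith [h.2.1]⟩
    · intro e ho h1 h2 h3 h4
      rw [hM.cols hG] at h1 h2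
      change G.m * _ ≤ cx e at h1
      change cx e < _ at h2
      change _ ≤ cy e at h3
      change cy e < _ at h4
      rw [hM.L] at h3
      rw [hM.U] at h4
      have d1 : dUs G i = 1 := by rw [dUs_i hG, if_pos]; linarith
      have e3 : G.T (cx e) = 2 * G.h * (G.B - i) := T_div hG h1 h2
      have hE : e ∈ G.E := by
        rw [← lt_cc ho]
        exact hG.gl _ _ (by linarith) (by linarith) (by linarith) (by linarith)
      have hD : e ∈ G.DN G.xs G.Yd ↔ cy e = G.Yd := by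
        constructor
        · rintro ⟨-, h | h⟩
          · exact h.1
          · have := hG.xet
            linarith [h.2.2.1]
        · exact fun h => ⟨ho, Or.inl ⟨h, by linarith, by linarith⟩⟩
      refine ⟨hD, fun hne => ?_⟩
      have heO : e ∈ O := hO e hE (fun h => hne (hD.1 h)) (Or.inr (by linarith))
      have hnm : bb G.plU e = bb G.plU (rpG G i) := by
        rw [nr i Wi (Or.inr (by linarith))]
        unfold bb Pic.plU
        by_cases hy : cy e = G.Yc + G.T (cx e)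
        · rw [if_pos ⟨by linarith, by linarith, hy⟩, hM.name hG Wi h1 h2 (by linarith) (by linarith)]
        · rw [if_neg (by rintro ⟨-, -, h⟩; exact hy h), hM.name hG Wi h1 h2 (by linarith)
            (lt_of_le_of_ne (Int.lt_add_one_iff.1 (by linarith)) hy)]
      have hst := hKi e heO hnm
      have hw : e ∈ ω ∩ O ↔ e ∈ ω := by rw [mem_inter]; exact ⟨fun h => h.1, fun h => ⟨h, heO⟩⟩
      rw [hw] at hst
      rw [st_U hG hE, stF, hst]
      have hF : (e ∈ G.E ∧ G.xs ≤ cx e ∧ cx e < G.xe ∧ G.Yd < cy e ∧ cy e ≤ G.Yc + G.T (cx e)) ↔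
          ¬ cy e < G.Yd := by
        constructor
        · exact fun h => by linarith [h.2.2.2.1]
        · exact fun h => ⟨hE, by linarith, by linarith, lt_of_le_of_ne (not_lt.1 h) (fun h' => hne h'.symm),
            by linarith⟩
      rw [hF]
      change _ ↔ (cy e < G.Yd ↔ _)
      by_cases a1 : rpG G i ∈ ω ∩ O <;> by_cases a2 : cy e < G.Yd <;> simp [a1, a2, Xor]

/-- **One exit for the canonical world `WL`.** -/
theorem blkL (hG : G.Ok xl H) (hM : CM G C c R (fun _ => 0) (dUs G) xl H) (hC : C.Ok c R τ) (hh : 2 ≤ G.h)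
    {s r : ℕ} (hs : 8 * C.N ≤ s) (hR : 10 * r ≤ R) {O : Finset (ℤ × ℤ)} (hOE : O ⊆ G.E \ G.Rt)
    (hO : ∀ e ∈ G.E \ G.Rt, e ∉ G.DN G.xs G.Yd → (cx e < G.xs - 28 * s ∨ G.xs + 28 * s ≤ cx e) → e ∈ O)
    {ω : Finset (ℤ × ℤ)} (hB : C.BlkS c (KFull O (bb G.plL) (rpG G) (KW (rpG G) fun _ => True)) s r (ω ∩ O)) :
    ∃ u : ℕ, s ≤ u ∧ 3 * u ≤ r ∧ OneExit (G.Λ : Set (ℤ × ℤ)) (G.DN G.xs G.Yd) (G.WL.st ω) c u := by
  classical
  obtain ⟨u, hu, hur, hb⟩ := hB
  refine ⟨u, hu, hur, ?_⟩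
  have hN : 0 < C.N := by have := hC.hN; omega
  have hs1 : (0 : ℤ) < s := by nlinarith
  have hu1 : (s : ℤ) ≤ u := by exact_mod_cast hu
  have hur' : (3 * u : ℤ) ≤ r := by exact_mod_cast hur
  have hR' : 30 * (u : ℤ) ≤ R := by linarith
  have hm := hG.hm
  have hhZ : (2 : ℤ) ≤ G.h := by exact_mod_cast hh
  have hwl := hM.wl
  have hwr := hM.wr
  have hR0 : 0 < R := by linarith
  -- state of a label of `E`
  have stF : ∀ {e : ℤ × ℤ}, e ∈ G.FL ↔ e ∈ G.E ∧ G.xs ≤ cx e ∧ cx e < G.xe ∧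
      G.Yc - G.T (cx e) - 1 ≤ cy e ∧ cy e < G.Yd := by
    intro e; unfold Pic.FL; rw [mem_filter]
  have ERt : ∀ {e : ℤ × ℤ}, e ∈ G.E → cx e < G.xe → e ∈ G.E \ G.Rt := by
    intro e he hx
    refine mem_sdiff.2 ⟨he, fun h => ?_⟩
    unfold Pic.Rt at h
    rw [mem_filter] at h
    linarith [h.2.2.1]
  refine blkX hC (by linarith) hR' hb (fun e he => hG.odd e he) (Yl := G.Yc) (Yh := G.Yc + G.h + 1)
    (Yd := G.Yd) ⟨?_, ?_⟩ ⟨?_, ?_, ?_⟩ ?_ ?_
  · -- upper room
    intro e he heU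
    obtain ⟨he1, he2⟩ := mem_inter.1 he
    rw [st_L hG (hOE he2), stF]
    refine Or.inl ⟨he1, fun hF => ?_⟩
    unfold Ch.rU at heU
    rw [mem_RU] at heU
    have h2 := heU.2
    change C.U (cx e) ≤ cy e at h2
    rw [hM.Ux hG] at h2
    have h4 := hG.th (cx e) (hG.xls.trans hF.2.1) hF.2.2.1
    have h3 := hF.2.2.2.2
    unfold Pic.Yd at h3
    linarith
  · -- lower room
    intro e he heL
    obtain ⟨he1, he2⟩ := mem_inter.1 he
    rw [st_L hG (hOE he2), stF]
    refine Or.inl ⟨he1, fun hF => ?_⟩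
    unfold Ch.rL at heL
    rw [mem_RL] at heL
    have h2 := heL.2
    change cy e ≤ -1 - C.L (cx e) at h2
    rw [hM.Lx hG, dUs_x hG, if_pos hF.2.1] at h2
    linarith [hF.2.2.2.1]
  · -- banks
    intro i hi
    obtain ⟨w1, w2⟩ := hM.win hG hi
    have h0 : G.m * i < G.m * (i + 1) := by nlinarith
    have h1 := hG.th (G.m * i) w1 (by linarith)
    rw [T_div hG le_rfl h0] at h1
    rw [hM.L i]
    have h2 : 0 ≤ dUs G i := by unfold dUs; split_ifs <;> norm_num
    linarith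
  · intro i hi
    obtain ⟨w1, w2⟩ := hM.win hG hi
    have h0 : G.m * i < G.m * (i + 1) := by nlinarith
    have h1 := hG.th (G.m * i) w1 (by linarith)
    rw [T_div hG le_rfl h0] at h1
    rw [hM.U i]
    linarith
  · -- deleted tiles of the window
    intro e heD heQ ho
    obtain ⟨-, h | h⟩ := heD
    · change G.Yc ≤ cy e ∧ cy e < _
      rw [h.1]
      unfold Pic.Yd
      constructor <;> linarith
    · exfalso
      rw [mem_Qw] at heQ
      have h1 := hM.cs
      have h2 := h.2.2.1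
      unfold cx at h2
      have h3 := hG.xet
      obtain ⟨⟨q1, q2⟩, q3, q4⟩ := heQ
      omega
  · unfold Pic.Yd
    constructor <;> linarith
  · intro j i hj hi hK
    obtain ⟨hK1, hKj, hKi⟩ := hK
    have Wj := isW_win hN hR' (by linarith) hj
    have Wi := isE_win hN hR' (by linarith) hi
    obtain ⟨j1, j2⟩ := hj
    obtain ⟨i1, i2⟩ := hi
    rw [hM.cols hG, hM.cs] at j1 j2 i1 i2
    have Bj := hM.win hG Wj
    have Bi := hM.win hG Wi
    have hj0 : G.m * j < G.m * (j + 1) := by nlinarith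
    have hi0 : G.m * i < G.m * (i + 1) := by nlinarith
    have Tj := hG.th (G.m * j) Bj.1 (by linarith)
    have Ti := hG.th (G.m * i) Bi.1 (by linarith)
    rw [T_div hG le_rfl hj0] at Tj
    rw [T_div hG le_rfl hi0] at Ti
    -- names
    have nr : ∀ a, C.Win c R a → bb G.plL (rpG G a) = Sum.inr (G.kn a) := by
      intro a ha
      have h0 : G.m * a < G.m * (a + 1) := by nlinarith
      obtain ⟨w1, w2⟩ := hM.win hG ha
      have h1 := hG.th (G.m * a) w1 (by linarith)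
      have h2 : G.pl (G.m * a) G.Yc = some (G.kn a) := hM.name hG ha le_rfl h0 (by linarith) (by linarith)
      unfold bb Pic.plL
      rw [rpG_x, rpG_y, if_neg (by rintro ⟨-, -, h⟩; linarith), h2]
    refine ⟨?_, ¬ rpG G i ∈ ω ∩ O, ?_⟩
    · intro e ho h1 h2 h3 h4
      rw [hM.cols hG] at h1 h2
      change G.m * _ ≤ cx e at h1
      change cx e < _ at h2
      change _ ≤ cy e at h3
      change cy e < _ at h4
      rw [hM.L] at h3
      rw [hM.U] at h4
      have d1 : dUs G j = 0 := by rw [dUs_i hG, if_neg]; linarith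
      have e3 : G.T (cx e) = 2 * G.h * (G.B - j) := T_div hG h1 h2
      have hE : e ∈ G.E := by
        rw [← lt_cc ho]
        exact hG.gl _ _ (by linarith) (by linarith) (by linarith) (by linarith)
      have hE' : e ∈ G.E \ G.Rt := ERt hE (by linarith)
      have hD : e ∉ G.DN G.xs G.Yd := by
        rintro ⟨-, h | h⟩
        · linarith [h.2.1]
        · have := hG.xet
          linarith [h.2.2.1]
      refine ⟨⟨fun h => hD h, fun h => h.elim⟩, fun _ => ⟨fun _ => trivial, fun _ => ?_⟩⟩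
      have heO : e ∈ O := hO e hE' hD (Or.inl (by linarith))
      have hnm : bb G.plL e = bb G.plL (rpG G j) := by
        rw [nr j Wj]
        unfold bb Pic.plL
        rw [if_neg (by rintro ⟨h, -, -⟩; linarith), hM.name hG Wj h1 h2 (by linarith) (by linarith)]
      have := (hKj e heO hnm).2 (hK1.2 trivial)
      rw [st_L hG hE', stF]
      exact Or.inl ⟨(mem_inter.1 this).1, fun h => by linarith [h.2.1]⟩
    · intro e ho h1 h2 h3 h4
      rw [hM.cols hG] at h1 h2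
      change G.m * _ ≤ cx e at h1
      change cx e < _ at h2
      change _ ≤ cy e at h3
      change cy e < _ at h4
      rw [hM.L] at h3
      rw [hM.U] at h4
      have d1 : dUs G i = 1 := by rw [dUs_i hG, if_pos]; linarith
      have e3 : G.T (cx e) = 2 * G.h * (G.B - i) := T_div hG h1 h2
      have hE : e ∈ G.E := by
        rw [← lt_cc ho]
        exact hG.gl _ _ (by linarith) (by linarith) (by linarith) (by linarith)
      have hE' : e ∈ G.E \ G.Rt := ERt hE (by linarith)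
      have hD : e ∈ G.DN G.xs G.Yd ↔ cy e = G.Yd := by
        constructor
        · rintro ⟨-, h | h⟩
          · exact h.1
          · have := hG.xet
            linarith [h.2.2.1]
        · exact fun h => ⟨ho, Or.inl ⟨h, by linarith, by linarith⟩⟩
      refine ⟨hD, fun hne => ?_⟩
      have heO : e ∈ O := hO e hE' (fun h => hne (hD.1 h)) (Or.inr (by linarith))
      have hnm : bb G.plL e = bb G.plL (rpG G i) := by
        rw [nr i Wi]
        unfold bb Pic.plL
        by_cases hy : cy e = G.Yc - G.T (cx e) - 1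
        · rw [if_pos ⟨by linarith, by linarith, hy⟩, hM.name hG Wi h1 h2 (by linarith) (by linarith)]
        · rw [if_neg (by rintro ⟨-, -, h⟩; exact hy h), hM.name hG Wi h1 h2
            (by have : G.Yc - G.T (cx e) - 1 < cy e := lt_of_le_of_ne (by linarith) (Ne.symm hy)
                omega) (by linarith)]
      have hst := hKi e heO hnm
      have hw : e ∈ ω ∩ O ↔ e ∈ ω := by rw [mem_inter]; exact ⟨fun h => h.1, fun h => ⟨h, heO⟩⟩
      rw [hw] at hst
      rw [st_L hG hE', stF, hst]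
      have hF : (e ∈ G.E ∧ G.xs ≤ cx e ∧ cx e < G.xe ∧ G.Yc - G.T (cx e) - 1 ≤ cy e ∧ cy e < G.Yd) ↔
          cy e < G.Yd := by
        constructor
        · exact fun h => h.2.2.2.2
        · exact fun h => ⟨hE, by linarith, by linarith, by linarith, h⟩
      rw [hF]
      change _ ↔ (cy e < G.Yd ↔ _)
      by_cases a1 : rpG G i ∈ ω ∩ O <;> by_cases a2 : cy e < G.Yd <;> simp [a1, a2, Xor]

omit [DecidableEq κ] in
/-- the field `blk` of `Half` -/
theorem blk_field {Λ D : Set (ℤ × ℤ)} {w : Finset (ℤ × ℤ)} {c : ℤ × ℤ} {s r : ℕ}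
    (H : ∃ u : ℕ, s ≤ u ∧ 3 * u ≤ r ∧ OneExit Λ D w c u) {K : Set (ℤ × ℤ)} {R : ℤ × ℤ → ℤ × ℤ → Prop}
    (hK : ∀ a ∈ K, ∀ a', R a a' → |(fi a').1 - c.1| ≤ 9 * (s : ℤ) ∧ |(fi a').2 - c.2| ≤ 9 * (s : ℤ))
    {z' : ℤ × ℤ} (hz' : |(fi z').1 - c.1| ≤ 9 * (s : ℤ) ∧ |(fi z').2 - c.2| ≤ 9 * (s : ℤ))
    {ι : Type*} {y : ι → ℤ × ℤ}
    (hy : ∀ i, 8 * (r : ℤ) < |(fi (y i)).1 - c.1| ∨ 8 * (r : ℤ) < |(fi (y i)).2 - c.2|) :
    ∃ (I : Set (ℤ × ℤ)) (b : ℤ × ℤ), (∀ u v, u ∈ I → v ∉ I → (SG Λ D w).Adj u v → v = b) ∧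
      (∀ a ∈ K, ∀ a', R a a' → a' ∈ I) ∧ z' ∈ I ∧ ∀ i, y i ∉ I := by
  obtain ⟨u, hu, hur, I, b, h1, h2, h3⟩ := H
  have e1 : (s : ℤ) ≤ u := by exact_mod_cast hu
  have e2 : (3 * u : ℤ) ≤ r := by exact_mod_cast hur
  have e3 : (0 : ℤ) ≤ s := by positivity
  refine ⟨I, b, h1, fun a ha a' hR => ?_, h2 z' (by linarith [hz'.1]) (by linarith [hz'.2]), fun i => h3 _ ?_⟩
  · obtain ⟨g1, g2⟩ := hK a ha a' hR
    exact h2 a' (by linarith) (by linarith)
  · rcases hy i with h | h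
    · left; linarith
    · right; linarith

end Pool.Agent.H82.W
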