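import Mathlib
import Pool.Agent.H78.W.VGm
import Pool.Agent.H82.W.VBlk

set_option autoImplicit false
set_option linter.unusedVariables false
open Finset

/-! # StChd, V10a: the comparison `Half` of an end in the narrow room with the canonical world `WU` -/

namespace Pool.Agent.H82.W

open Pool.Agent.H33.Q1 (lt tt ct lt_odd tt_lt lt_tt lt_inj)
open Pool.Agent.H75.Perc hiding WL CT hh PB
open Pool.Agent.H75.TwoArm
open Pool.Agent.H55.W Pool.Agent.H99.W Pool.Agent.H78.W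
open Pool.Agent.H19.W (cx cy cx_lt cy_lt lt_cc mv mv_in mv_out cx_up cy_up cx_dn cy_dn odd_up odd_dn)
open Pool.Agent.H13.W (SG up dn SR KB eW Sd of_side)

variable {κ : Type*} [DecidableEq κ] {G : Pic κ} {xl H xa xb ya yb : ℤ} {p : ℤ × ℤ}

lemma up_dn (e : ℤ × ℤ) : up (dn e) = e := by unfold up dn; simp

/-- **The outside labels of `WU`.** -/
lemma O2_up (U : VUp G xl H xa xb ya yb p) {e : ℤ × ℤ} (he : e ∈ G.E) (hD : e ∉ G.DN G.xs G.Yd)
    (hx : e ∉ Bk xa xb ya yb) : e ∈ VUp.O2 G xa xb ya yb p := by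
  classical
  have hG := U.ok
  have ho := hG.oddE he
  have hYd := hG.Yd_gt
  have hr1 := U.r1
  have hr2 := U.r2
  have hxet := hG.xet
  unfold VUp.O2
  by_cases hc : xb ≤ cx e ∧ cx e ≤ G.xe ∧ G.Yd < cy e ∧ cy e ≤ p.2
  · obtain ⟨c1, c2, c3, c4⟩ := hc
    have h5 : cx e < G.xe := by
      by_contra h
      exact (hG.eT ho (by omega) (by omega) (by omega) (by omega)).1 he
    refine mem_image.2 ⟨dn e, ?_, ?_⟩
    · have := U.xlb
      have hH := (U.Tp (x := cx e) (by omega) h5)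
      rw [VUp.mem_O1]
      refine ⟨hG.eL (odd_dn.2 ho) (by rw [cx_dn]; omega) (by rw [cx_dn]; exact h5)
        (by rw [cy_dn]; omega) (by rw [cy_dn]; omega), ?_, ?_⟩
      · rintro ⟨⟨-, g⟩, -⟩
        rw [cx_dn] at g
        omega
      · rw [Pic.mem_DN (odd_dn.2 ho), cx_dn, cy_dn]
        rintro (g | g) <;> omega
    · rw [mv_in, up_dn]
      rw [VUp.mem_S, cx_dn, cy_dn]
      exact ⟨⟨c1, c2⟩, by omega, by omega⟩
  · have hS : e ∉ VUp.S G xb p := by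
      rw [VUp.mem_S]
      rintro ⟨⟨g1, g2⟩, g3, g4⟩
      apply hD
      rw [Pic.mem_DN ho]
      have := U.xsb
      refine Or.inl ⟨?_, by omega, g2⟩
      by_contra h
      exact hc ⟨g1, g2, by omega, by omega⟩
    refine mem_image.2 ⟨e, ?_, mv_out hS⟩
    rw [VUp.mem_O1]
    refine ⟨he, hx, ?_⟩
    rw [Pic.mem_DN ho]
    rintro (⟨g1, g2, g3⟩ | g)
    · have := U.xap
      have := U.ya1
      have := U.yb1
      rcases lt_or_ge (cx e) xb with g4 | g4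
      · exact hx ⟨⟨by omega, g4⟩, by omega, by omega⟩
      · exact hc ⟨g4, g3, by omega, by omega⟩
    · exact hD ((Pic.mem_DN ho).2 (Or.inr g))

/-- a corner at a rectangle of labels is near its centre -/
lemma KB_near {c : ℤ × ℤ} {X Y A B a : ℤ} (hc : c.1 + c.2 = X) (hd : c.2 - c.1 = Y)
    (hxa : X - A ≤ xa) (hxb : xb ≤ X + A) (hya : Y - B ≤ ya) (hyb : yb ≤ Y + B)
    (hA : A + B + 8 ≤ 2 * a) {s : ℤ × ℤ} (hs : s ∈ KB (Bk xa xb ya yb)) :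
    (|(fi s).1 - c.1| ≤ a - 1 ∧ |(fi s).2 - c.2| ≤ a - 1) := by
  have hf := lab_fi s
  have hv := vx_fi s
  rcases hs with h | h
  · obtain ⟨⟨h1, h2⟩, h3, h4⟩ := h
    have o := hv.2.2.1
    unfold cx at h1 h2
    unfold cy at h3 h4
    rw [abs_le, abs_le]
    refine ⟨⟨?_, ?_⟩, ?_, ?_⟩ <;> omega
  · obtain ⟨⟨h1, h2⟩, h3, h4⟩ := h
    have o := hv.2.2.2.1
    unfold cx at h1 h2
    unfold cy at h3 h4
    rw [abs_le, abs_le]
    refine ⟨⟨?_, ?_⟩, ?_, ?_⟩ <;> omega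

lemma fi_up (s : ℤ × ℤ) : ((fi s).1 - 1 ≤ (fi (up s)).1 ∧ (fi (up s)).1 ≤ (fi s).1 + 1) ∧
    (fi s).2 - 1 ≤ (fi (up s)).2 ∧ (fi (up s)).2 ≤ (fi s).2 + 1 := by
  unfold fi up; simp only; omega

lemma fi_dn (s : ℤ × ℤ) : ((fi s).1 - 1 ≤ (fi (dn s)).1 ∧ (fi (dn s)).1 ≤ (fi s).1 + 1) ∧
    (fi s).2 - 1 ≤ (fi (dn s)).2 ∧ (fi (dn s)).2 ≤ (fi s).2 + 1 := by
  unfold fi dn; simp only; omega

/-- the west side of a tile of the rectangle is at the rectangle -/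
lemma eW_KB {e : ℤ × ℤ} (ho : (e.1 + e.2) % 2 = 1) (he : e ∈ Bk xa xb ya yb) :
    eW e ∈ KB (Bk xa xb ya yb) := by
  show lab (eW e) ∈ Bk xa xb ya yb ∨ plab (eW e) ∈ Bk xa xb ya yb
  rcases of_side ho (eW e) (Or.inl rfl) with h | h
  · left; rwa [← h]
  · right; rwa [← h]

/-- the block of the up move -/
noncomputable abbrev BkU (G : Pic κ) (C : Ch) (c : ℤ × ℤ) (s r : ℕ) (O : Finset (ℤ × ℤ)) :
    Finset (ℤ × ℤ) → Prop := C.BlkS c (KFull O (bb G.plU) (rpG G) (KW (rpG G) fun _ => True)) s r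

/-- the block of the down move -/
noncomputable abbrev BkL (G : Pic κ) (C : Ch) (c : ℤ × ℤ) (s r : ℕ) (O : Finset (ℤ × ℤ)) :
    Finset (ℤ × ℤ) → Prop := C.BlkS c (KFull O (bb G.plL) (rpG G) (KW (rpG G) fun _ => True)) s r

/-- **`Half` for an end in the narrow room.** -/
theorem halfUp {C : Ch} {c : ℤ × ℤ} {R τ A B : ℤ} (U : VUp G xl H xa xb ya yb p)
    (hpx : p.1 < xb) (hM : CM G C c R (dUs G) (fun _ => 0) xl H) (hC : C.Ok c R τ) (hh : 2 ≤ G.h)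
    {s r : ℕ} (hs : 8 * C.N ≤ s) (hR : 10 * r ≤ R) (hxa : G.xs - A ≤ xa) (hxb : xb ≤ G.xs + A)
    (hya : G.Yc - B ≤ ya) (hyb : yb ≤ G.Yc + B) (hA : A + B + 8 ≤ 18 * s)
    {ι : Type*} {x y : ι → ℤ × ℤ}
    (hy : ∀ i, 8 * (r : ℤ) < |(fi (y i)).1 - c.1| ∨ 8 * (r : ℤ) < |(fi (y i)).2 - c.2|)
    (hxy : ∀ i, SR (G.WN p).Λ (G.WN p).D (Bk xa xb ya yb) (VUp.S G xb p) (x i) (y i))
    (ex1 : ∀ ω, ω ⊆ G.E → ∃ i, ((G.WN p).G ω).Reachable (eW (lt p)) (x i))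
    (ex2 : ∀ ω, ω ⊆ G.E → ∃ i, (G.WU.G ω).Reachable (eW (lt (G.xs, G.Yd))) (y i))
    (un : ∀ ω, ω ⊆ G.E → ∀ i j, (G.WU.G ω).Reachable (eW (lt (G.xs, G.Yd))) (y i) →
      (G.WU.G ω).Reachable (eW (lt (G.xs, G.Yd))) (y j) → i = j) :
    Half (G.WN p) G.WU (mv (VUp.S G xb p)) (VUp.S G xb p) (VUp.O1 G xa xb ya yb p)
      (VUp.O2 G xa xb ya yb p) (KB (Bk xa xb ya yb))
      (SR (G.WN p).Λ (G.WN p).D (Bk xa xb ya yb) (VUp.S G xb p)) (eW (lt p)) (eW (lt (G.xs, G.Yd))) x y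
      (BkU G C c s r (VUp.O2 G xa xb ya yb p)) := by
  have hG := U.ok
  have hYd := hG.Yd_gt
  have h1 := hG.h1
  have r1 := U.r1
  have hN : 80 ≤ C.N := hC.hN
  have hxlb := U.xlb
  have hB : (0 : ℤ) ≤ B := by have := U.yb1; omega
  have hA0 : (0 : ℤ) ≤ A := by have := U.xsb; omega
  refine ⟨U.lm, fun ω1 ω2 h => U.simu h, fun ω2 hω hb => ?_, ?_, hxy, ex1, ex2, un⟩
  · refine blk_field (blkU hG hM hC hh hs hR U.lm.s2 ?_ hb) ?_ ?_ hy
    · intro e he hD hx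
      refine O2_up U he hD ?_
      rintro ⟨⟨g1, g2⟩, -⟩
      omega
    · intro a ha a' haa
      obtain ⟨k1, k2⟩ := KB_near hM.cs hM.cd hxa hxb hya hyb (a := 9 * s) (by omega) ha
      have hup := fi_up a
      rcases haa with ⟨rfl, -⟩ | ⟨rfl, -⟩
      · exact ⟨by omega, by omega⟩
      · rw [abs_le] at k1 k2 ⊢
        rw [abs_le]
        constructor <;> constructor <;> omega
    · have h2 := hM.cs
      have h3 := hM.cd
      have h4 := U.yb1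
      have h5 : fi (eW (lt (G.xs, G.Yd))) = ((G.xs - G.Yd + 1) / 2, (G.xs + G.Yd + 1 + 1) / 2) := rfl
      rw [h5, abs_le, abs_le]
      simp only
      constructor <;> constructor <;> omega
  · refine eW_KB (lt_odd p) ⟨⟨?_, ?_⟩, ?_, ?_⟩
    · rw [cx_lt]; exact U.xap
    · rw [cx_lt]; exact hpx
    · rw [cy_lt]; have := U.ya1; omega
    · rw [cy_lt]; exact U.yb1

end Pool.Agent.H82.W
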