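import Mathlib
import Pool.Agent.H82.W.VHalf
import Pool.Agent.H51.W.VP

set_option autoImplicit false
set_option linter.unusedVariables false
open Finset

/-! # StChd, V10b: values of an end in the narrow room and of the canonical world `WU` -/

namespace Pool.Agent.H82.W

open Pool.Agent.H33.Q1 (lt tt ct lt_odd tt_lt lt_tt lt_inj)
open Pool.Agent.H75.Perc hiding WL CT hh PB
open Pool.Agent.H75.TwoArm
open Pool.Agent.H55.W Pool.Agent.H99.W Pool.Agent.H78.W Pool.Agent.H51.W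
open Pool.Agent.H19.W (cx cy cx_lt cy_lt lt_cc mv mv_in mv_out cx_up cy_up cx_dn cy_dn odd_up odd_dn)
open Pool.Agent.H13.W (SG up dn SR KB eW Sd of_side)
open Pool.Agent.H58.W (PB)

variable {κ : Type*} [DecidableEq κ] {G : Pic κ} {xl H xa xb ya yb : ℤ} {p : ℤ × ℤ}

lemma cm_of (hG : G.Ok xl H) {r : ℕ} (hw : PWin G xl H r) (dU dL : ℤ → ℤ) :
    CM G (pCh G dU dL) (pv G) (10 * r) dU dL xl H := by
  obtain ⟨M', hM', e1, e2⟩ := pm hG
  have hY : G.Yc / (2 * G.h) * (2 * G.h) = G.Yc := Int.ediv_mul_cancel hG.dYc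
  refine ⟨rfl, ?_, fun i => ?_, fun i => ?_, ?_, ?_, ?_, ?_⟩
  · show 2 * (G.m / 2) = G.m
    rw [e2]
    linarith
  · show (G.Yc / (2 * G.h) + (G.B - i)) * (2 * G.h) + dU i = _
    linear_combination hY
  · show (-(G.Yc / (2 * G.h)) + (G.B - i)) * (2 * G.h) + dL i = _
    linear_combination -hY
  · exact pv_sum hG
  · exact pv_dif hG
  · have := hw.lef; linarith
  · have := hw.rig; linarith

/-- west and east plates at scale `u` are far from the centre -/
lemma far_plate {C : Ch} {c : ℤ × ℤ} {R : ℤ} {dU dL : ℤ → ℤ} (hG : G.Ok xl H)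
    (hM : CM G C c R dU dL xl H) {u m : ℤ} (hu : 0 ≤ u) (h : C.isW c u m ∨ C.isE c u m) :
    cx (rpG G m) ≤ G.xs - 28 * u ∨ G.xs + 28 * u ≤ cx (rpG G m) := by
  have hm := hG.hm
  rw [rpG_x]
  rcases h with ⟨h1, h2⟩ | ⟨h1, h2⟩
  · rw [hM.cols hG, hM.cs] at h2
    left
    nlinarith
  · rw [hM.cols hG, hM.cs] at h1
    right
    exact h1

/-- the data of the two values of the up move -/
structure UpD (G : Pic κ) (xl H xa xb ya yb A : ℤ) (p : ℤ × ℤ) (s r : ℕ) {ι : Type*} (x y : ι → ℤ × ℤ) :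
    Prop where
  U : VUp G xl H xa xb ya yb p
  px : p.1 < xb
  w : PWin G xl H r
  ms : 4 * G.m ≤ s
  sr : s ≤ r
  a1 : G.xs - A ≤ xa
  a2 : xb ≤ G.xs + A
  a3 : G.Yc - A ≤ ya
  a4 : yb ≤ G.Yc + A
  a5 : 2 * A + 8 ≤ 18 * s
  far : ∀ i, 8 * (r : ℤ) < |(fi (y i)).1 - (pv G).1| ∨ 8 * (r : ℤ) < |(fi (y i)).2 - (pv G).2|
  xy : ∀ i, SR (G.WN p).Λ (G.WN p).D (Bk xa xb ya yb) (VUp.S G xb p) (x i) (y i)
  ex1 : ∀ ω, ω ⊆ G.E → ∃ i, ((G.WN p).G ω).Reachable (eW (lt p)) (x i)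
  un1 : ∀ ω, ω ⊆ G.E → ∀ i j, ((G.WN p).G ω).Reachable (eW (lt p)) (x i) →
    ((G.WN p).G ω).Reachable (eW (lt p)) (x j) → i = j
  ex2 : ∀ ω, ω ⊆ G.E → ∃ i, (G.WU.G ω).Reachable (eW (lt (G.xs, G.Yd))) (y i)
  un2 : ∀ ω, ω ⊆ G.E → ∀ i j, (G.WU.G ω).Reachable (eW (lt (G.xs, G.Yd))) (y i) →
    (G.WU.G ω).Reachable (eW (lt (G.xs, G.Yd))) (y j) → i = j

/-- **The value of an end in the narrow room is near the value of `WU`.** -/
theorem vUp_le : ∃ kap : ℝ, 0 < kap ∧ ∀ {κ : Type*} [DecidableEq κ] (G : Pic κ)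
    (xl H xa xb ya yb A : ℤ) (p : ℤ × ℤ) (s r : ℕ) {ι : Type*} [Fintype ι] (x y : ι → ℤ × ℤ),
    UpD G xl H xa xb ya yb A p s r x y → ∀ (v : ι → ℂ) (M : ℝ), 0 ≤ M → (∀ i, ‖v i‖ ≤ M) →
      ‖val (G.WN p) (eW (lt p)) x v - val G.WU (eW (lt (G.xs, G.Yd))) y v‖ ≤
        2 * M * (3 * (s : ℝ) / r) ^ kap := by
  obtain ⟨kap, hk, HB⟩ := pG_block
  refine ⟨kap, hk, fun {κ} _ G xl H xa xb ya yb A p s r {ι} _ x y D v M hM hv => ?_⟩
  have hG := D.U.ok
  have hCM := cm_of hG D.w (dR G) (fun _ => 0)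
  obtain ⟨τ, hC⟩ := pCh_ok hG D.w (dR_bd G) (dL := fun _ => 0) (fun _ => ⟨le_refl _, by norm_num⟩)
  obtain ⟨M', hM', e1, e2⟩ := pm hG
  have hN : 8 * (pCh G (dR G) fun _ => 0).N ≤ s := by
    show 8 * (G.m / 2) ≤ (s : ℤ)
    have := D.ms
    rw [e2]
    linarith
  have hA0 : 0 ≤ A := by
    have := D.U.xsb
    have := D.a2
    linarith
  have hm := hG.hm
  have hs0 : (0 : ℤ) < s := by have := D.ms; linarith
  have hf := halfUp D.U D.px hCM hC D.w.h2 hN le_rfl D.a1 D.a2 D.a3 D.a4 (by have := D.a5; linarith)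
    D.far D.xy D.ex1 D.ex2 D.un2
  refine (hf.le D.un1 hM hv).trans (mul_le_mul_of_nonneg_left ?_ (by positivity))
  refine le_trans (blkFull_le D.U.lm.s2 fun u hu hu' i hi => ?_)
    ((HB G xl H s r hG D.w D.ms D.sr A A hA0 (by have := D.a5; linarith) _ _).1 ?_).1
  · -- reference labels of the plates
    have hu1 : (s : ℤ) ≤ u := by exact_mod_cast hu
    have hu2 : (3 * u : ℤ) ≤ r := by exact_mod_cast hu'
    have hWin : (pCh G (dR G) fun _ => 0).Win (pv G) (10 * r) i := by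
      rcases hi with hi | hi
      · exact isW_win (by have := hC.hN; omega) (by linarith) (by linarith) hi
      · exact isE_win (by have := hC.hN; omega) (by linarith) (by linarith) hi
    have hE := hCM.rpE hG hWin
    refine O2_up D.U hE ?_ ?_
    · rw [Pic.mem_DN (hG.oddE hE), rpG_x, rpG_y]
      have hh := hG.h1
      have hw2 := (hCM.win hG hWin).2
      have hxet := hG.xet
      unfold Pic.Yd
      rintro (g | g)
      · linarith [g.1]
      · have h0 : G.m * i < G.m * (i + 1) := by nlinarith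
        linarith [g.2.2.1]
    · rintro ⟨⟨g1, g2⟩, -⟩
      have h5 := D.a5
      have h1 := D.a1
      have h2 := D.a2
      rcases far_plate hG hCM (by linarith) hi with g | g <;> linarith
  · intro e he hR hne h1 h2 h3 h4
    have he' : e ∈ G.E := he
    by_cases hD : e ∈ G.DN G.xs G.Yd
    · exfalso
      rw [Pic.mem_DN (hG.oddE he')] at hD
      have hxet := hG.xet
      rcases hD with g | g
      · exact hne g.1
      · linarith [g.2.2.1]
    · refine O2_up D.U he' hD ?_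
      rintro ⟨⟨g1, g2⟩, g3, g4⟩
      have k1 := D.a1
      have k2 := D.a2
      have k3 := D.a3
      have k4 := D.a4
      apply hR
      refine ⟨?_, ?_⟩ <;> (rw [abs_le]; constructor <;> linarith)

end Pool.Agent.H82.W
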