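import Mathlib
import Pool.Agent.H13.W.VDown
import Pool.Agent.H82.W.VHalf2

set_option autoImplicit false
set_option linter.unusedVariables false
open Finset

/-! # StChd, V10c: an end in the wide room and the canonical world `WL` -/

namespace Pool.Agent.H82.W

open Pool.Agent.H33.Q1 (lt tt ct lt_odd tt_lt lt_tt lt_inj)
open Pool.Agent.H75.Perc hiding WL CT hh PB
open Pool.Agent.H75.TwoArm
open Pool.Agent.H55.W Pool.Agent.H99.W Pool.Agent.H78.W Pool.Agent.H51.W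
open Pool.Agent.H19.W (cx cy cx_lt cy_lt lt_cc cx_up cy_up cx_dn cy_dn odd_up odd_dn)
open Pool.Agent.H13.W (SG up dn KB eW Sd of_side Dn SD mvd up_lt')
open Pool.Agent.H45.W (SRd)
open Pool.Agent.H58.W (PB)

variable {κ : Type*} [DecidableEq κ] {G : Pic κ} {xl H xa ρ : ℤ} {p : ℤ × ℤ}

/-- images of the outside labels -/
noncomputable def O2d (G : Pic κ) (xa ρ : ℤ) (p : ℤ × ℤ) : Finset (ℤ × ℤ) :=
  (Dn.O1 G xa ρ p).image (mvd (SD G p))

/-- **The outside labels of `WL`.** -/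
lemma O2_dn (N : Dn G xl H xa ρ p) {e : ℤ × ℤ} (he : e ∈ G.E \ G.Rt) (hD : e ∉ G.DN G.xs G.Yd)
    (hx : e ∉ Pool.Agent.H13.W.Bk G xa ρ) : e ∈ O2d G xa ρ p := by
  classical
  have hG := N.ok
  obtain ⟨heE, heR⟩ := mem_sdiff.1 he
  have ho := hG.oddE heE
  obtain ⟨n1, n2, n3, n4, n5, n6, n7, n8, n9⟩ := N.nums
  obtain ⟨x, y, rfl⟩ : ∃ x y, e = lt (x, y) := ⟨cx e, cy e, (lt_cc ho).symm⟩
  have hYF := hG.YF2
  unfold O2d
  rw [Pic.mem_DN ho, cx_lt, cy_lt] at hD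
  rw [Pool.Agent.H13.W.mem_Rt] at heR
  rw [Dn.mem_Bk] at hx
  have htp := Pool.Agent.H13.W.tp_cases (G := G) G.Yd x
  by_cases hc : G.xs ≤ x ∧ x ≤ G.xw ∧ p.2 ≤ y ∧ y < G.tp G.Yd x
  · obtain ⟨c1, c2, c3, c4⟩ := hc
    have hS : lt (x, y + 1) ∈ SD G p := by
      rw [Dn.mem_S]
      exact ⟨c1, c2, by omega, by omega⟩
    have hup : lt (x, y + 1) ∈ G.E := by
      rw [Pool.Agent.H13.W.memE hG (by omega) c2 (by omega) (by omega)]
      rw [Pool.Agent.H13.W.memE hG (by omega) c2 (by omega) (by omega)] at heE heR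
      rcases Bool.eq_false_or_eq_true G.P with hP | hP
      · simp only [hP, true_and] at heE heR hD htp ⊢
        omega
      · have := hG.xtw' hP
        simp only [hP, Bool.false_eq_true, false_and, or_false, and_false, not_false_eq_true, true_and,
          false_or] at heE heR hD htp ⊢
        omega
    refine mem_image.2 ⟨lt (x, y + 1), ?_, ?_⟩
    · rw [Dn.mem_O1]
      refine ⟨hup, ?_, ?_⟩
      · rw [Dn.mem_Bk]; omega
      · rw [Dn.mem_D1]; omega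
    · unfold mvd
      rw [if_pos hS, Pool.Agent.H13.W.dn_lt]
      congr 2
      ring
  · have hE2 : ∀ (h1 : xl ≤ x) (h2 : x ≤ G.xw) (h3 : G.Yc - H ≤ y) (h4 : y < G.Yc + H),
        x < G.xe ∨ (x < G.xw ∧ (y < G.Yc ∨ (G.P = true ∧ G.xt ≤ x))) := fun h1 h2 h3 h4 =>
      (Pool.Agent.H13.W.memE hG h1 h2 h3 h4).1 heE
    have hS : lt (x, y) ∉ SD G p := by
      rw [Dn.mem_S]
      rintro ⟨g1, g2, g3, g4⟩
      have hE3 := hE2 (by omega) g2 (by omega) (by omega)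
      rcases Bool.eq_false_or_eq_true G.P with hP | hP
      · simp only [hP, true_and] at hE3 hD htp
        omega
      · have := hG.xtw' hP
        simp only [hP, Bool.false_eq_true, false_and, or_false, and_false, not_false_eq_true, true_and,
          false_or] at hE3 hD htp
        omega
    refine mem_image.2 ⟨lt (x, y), ?_, ?_⟩
    · rw [Dn.mem_O1]
      refine ⟨heE, by rw [Dn.mem_Bk]; exact hx, ?_⟩
      rw [Dn.mem_D1]
      rintro ⟨g1, g2, g3⟩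
      have k1 := N.p1
      have k2 := N.p2
      have k3 := N.Yr
      apply hc
      refine ⟨?_, g3, g1.ge, ?_⟩
      · by_contra h
        exact hx ⟨by omega, by omega, by omega, by omega⟩
      · have := (N.tp_lt x).1
        omega
    · unfold mvd
      rw [if_neg hS]

/-- **`Half` for an end in the wide room.** -/
theorem halfDn {C : Ch} {c : ℤ × ℤ} {R τ A : ℤ} (N : Dn G xl H xa ρ p)
    (hM : CM G C c R (fun _ => 0) (dUs G) xl H) (hC : C.Ok c R τ)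
    {s r : ℕ} (hs : 8 * C.N ≤ s) (hR : 10 * r ≤ R) (hxa : G.xs - A ≤ xa)
    (hρ : ρ ≤ A) (hA : 2 * A + 8 ≤ 18 * s)
    {ι : Type*} {x y : ι → ℤ × ℤ}
    (hy : ∀ i, 8 * (r : ℤ) < |(fi (y i)).1 - c.1| ∨ 8 * (r : ℤ) < |(fi (y i)).2 - c.2|)
    (hxy : ∀ i, SRd (G.WW p).Λ (G.WW p).D (Pool.Agent.H13.W.Bk G xa ρ) (SD G p) (x i) (y i))
    (ex1 : ∀ ω, ω ⊆ G.E → ∃ i, ((G.WW p).G ω).Reachable (eW (lt p)) (x i))
    (ex2 : ∀ ω, ω ⊆ G.E \ G.Rt → ∃ i, (G.WL.G ω).Reachable (eW (lt (G.xs, G.Yd))) (y i))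
    (un : ∀ ω, ω ⊆ G.E \ G.Rt → ∀ i j, (G.WL.G ω).Reachable (eW (lt (G.xs, G.Yd))) (y i) →
      (G.WL.G ω).Reachable (eW (lt (G.xs, G.Yd))) (y j) → i = j) :
    Half (G.WW p) G.WL (mvd (SD G p)) (SD G p) (Dn.O1 G xa ρ p)
      (O2d G xa ρ p) (KB (Pool.Agent.H13.W.Bk G xa ρ))
      (SRd (G.WW p).Λ (G.WW p).D (Pool.Agent.H13.W.Bk G xa ρ) (SD G p)) (eW (lt p)) (eW (lt (G.xs, G.Yd))) x y
      (BkL G C c s r (O2d G xa ρ p)) := by
  have hG := N.ok
  have hYd := hG.Yd_gt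
  have h1 := hG.h1
  have hN : 80 ≤ C.N := hC.hN
  obtain ⟨n1, n2, n3, n4, n5, n6, n7, n8, n9⟩ := N.nums
  have hYr := N.Yr
  have hp1 := N.p1
  have hp2 := N.p2
  have hA0 : (0 : ℤ) ≤ A := by omega
  refine ⟨N.lm, fun ω1 ω2 h => N.simu h, fun ω2 hω hb => ?_, ?_, hxy, ex1, ex2, un⟩
  · refine blk_field (blkL (O := O2d G xa ρ p) hG hM hC N.h2 hs hR N.lm.s2 ?_ hb) ?_ ?_ hy
    · intro e he hD hx
      refine O2_dn N he hD ?_
      rintro ⟨g1, g2, g3, g4⟩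
      omega
    · intro a ha a' haa
      have ha' : a ∈ KB (Pool.Agent.H78.W.Bk xa G.xs (G.Yc - ρ) (G.Yc + ρ)) := by
        rcases ha with ⟨g1, g2, g3, g4⟩ | ⟨g1, g2, g3, g4⟩
        · exact Or.inl ⟨⟨g1, g2⟩, g3, g4⟩
        · exact Or.inr ⟨⟨g1, g2⟩, g3, g4⟩
      obtain ⟨k1, k2⟩ := KB_near hM.cs hM.cd hxa (show G.xs ≤ G.xs + A by omega)
        (show G.Yc - A ≤ G.Yc - ρ by omega) (show G.Yc + ρ ≤ G.Yc + A by omega) (a := 9 * s) (by omega) ha'
      have hup := fi_dn a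
      rcases haa with ⟨rfl, -⟩ | ⟨rfl, -⟩
      · exact ⟨by omega, by omega⟩
      · rw [abs_le] at k1 k2 ⊢
        rw [abs_le]
        constructor <;> constructor <;> omega
    · have h2 := hM.cs
      have h3 := hM.cd
      have h5 : fi (eW (lt (G.xs, G.Yd))) = ((G.xs - G.Yd + 1) / 2, (G.xs + G.Yd + 1 + 1) / 2) := rfl
      rw [h5, abs_le, abs_le]
      simp only
      constructor <;> constructor <;> omega
  · show lab (eW (lt p)) ∈ Pool.Agent.H13.W.Bk G xa ρ ∨ plab (eW (lt p)) ∈ Pool.Agent.H13.W.Bk G xa ρ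
    have hp : lt p ∈ Pool.Agent.H13.W.Bk G xa ρ := by
      refine ⟨?_, ?_, ?_, ?_⟩
      · rw [cx_lt]; exact N.p1
      · rw [cx_lt]; exact N.p1'
      · rw [cy_lt]; exact N.p2
      · rw [cy_lt]; omega
    rcases of_side (lt_odd p) (eW (lt p)) (Or.inl rfl) with h | h
    · left; rwa [← h]
    · right; rwa [← h]

/-- the data of the two values of the down move -/
structure DnD (G : Pic κ) (xl H xa ρ A : ℤ) (p : ℤ × ℤ) (s r : ℕ) {ι : Type*} (x y : ι → ℤ × ℤ) :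
    Prop where
  N : Dn G xl H xa ρ p
  w : PWin G xl H r
  ms : 4 * G.m ≤ s
  sr : s ≤ r
  a1 : G.xs - A ≤ xa
  a2 : ρ ≤ A
  a5 : 2 * A + 8 ≤ 18 * s
  far : ∀ i, 8 * (r : ℤ) < |(fi (y i)).1 - (pv G).1| ∨ 8 * (r : ℤ) < |(fi (y i)).2 - (pv G).2|
  xy : ∀ i, SRd (G.WW p).Λ (G.WW p).D (Pool.Agent.H13.W.Bk G xa ρ) (SD G p) (x i) (y i)
  ex1 : ∀ ω, ω ⊆ G.E → ∃ i, ((G.WW p).G ω).Reachable (eW (lt p)) (x i)
  un1 : ∀ ω, ω ⊆ G.E → ∀ i j, ((G.WW p).G ω).Reachable (eW (lt p)) (x i) →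
    ((G.WW p).G ω).Reachable (eW (lt p)) (x j) → i = j
  ex2 : ∀ ω, ω ⊆ G.E \ G.Rt → ∃ i, (G.WL.G ω).Reachable (eW (lt (G.xs, G.Yd))) (y i)
  un2 : ∀ ω, ω ⊆ G.E \ G.Rt → ∀ i j, (G.WL.G ω).Reachable (eW (lt (G.xs, G.Yd))) (y i) →
    (G.WL.G ω).Reachable (eW (lt (G.xs, G.Yd))) (y j) → i = j

/-- **The value of an end in the wide room is near the value of `WL`.** -/
theorem vDn_le : ∃ kap : ℝ, 0 < kap ∧ ∀ {κ : Type*} [DecidableEq κ] (G : Pic κ)
    (xl H xa ρ A : ℤ) (p : ℤ × ℤ) (s r : ℕ) {ι : Type*} [Fintype ι] (x y : ι → ℤ × ℤ),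
    DnD G xl H xa ρ A p s r x y → ∀ (v : ι → ℂ) (M : ℝ), 0 ≤ M → (∀ i, ‖v i‖ ≤ M) →
      ‖val (G.WW p) (eW (lt p)) x v - val G.WL (eW (lt (G.xs, G.Yd))) y v‖ ≤
        2 * M * (3 * (s : ℝ) / r) ^ kap := by
  obtain ⟨kap, hk, HB⟩ := pG_block
  refine ⟨kap, hk, fun {κ} _ G xl H xa ρ A p s r {ι} _ x y D v M hM hv => ?_⟩
  have hG := D.N.ok
  have hCM := cm_of hG D.w (fun _ => 0) (dR G)
  obtain ⟨τ, hC⟩ := pCh_ok hG D.w (dU := fun _ => 0) (fun _ => ⟨le_refl _, by norm_num⟩) (dR_bd G)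
  obtain ⟨M', hM', e1, e2⟩ := pm hG
  obtain ⟨n1, n2, n3, n4, n5, n6, n7, n8, n9⟩ := D.N.nums
  have hN : 8 * (pCh G (fun _ => 0) (dR G)).N ≤ s := by
    show 8 * (G.m / 2) ≤ (s : ℤ)
    have := D.ms
    rw [e2]
    linarith
  have hA0 : 0 ≤ A := by
    have := D.N.Yr
    have := D.a2
    omega
  have hm := hG.hm
  have hs0 : (0 : ℤ) < s := by have := D.ms; linarith
  have hf := halfDn D.N hCM hC hN le_rfl D.a1 D.a2 D.a5 D.far D.xy D.ex1 D.ex2 D.un2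
  refine (hf.le D.un1 hM hv).trans (mul_le_mul_of_nonneg_left ?_ (by positivity))
  refine le_trans (blkFull_le (O := O2d G xa ρ p) D.N.lm.s2 fun u hu hu' i hi => ?_)
    ((HB G xl H s r hG D.w D.ms D.sr A A hA0 (by have := D.a5; linarith) _ _).2 ?_).1
  · -- reference labels of the plates
    have hu1 : (s : ℤ) ≤ u := by exact_mod_cast hu
    have hu2 : (3 * u : ℤ) ≤ r := by exact_mod_cast hu'
    have hWin : (pCh G (fun _ => 0) (dR G)).Win (pv G) (10 * r) i := by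
      rcases hi with hi | hi
      · exact isW_win (by have := hC.hN; omega) (by linarith) (by linarith) hi
      · exact isE_win (by have := hC.hN; omega) (by linarith) (by linarith) hi
    have hE := hCM.rpE hG hWin
    have hw2 := (hCM.win hG hWin).2
    have h0 : G.m * i < G.m * (i + 1) := by nlinarith
    refine O2_dn D.N (mem_sdiff.2 ⟨hE, ?_⟩) ?_ ?_
    · rw [Pic.mem_Rt, rpG_x, rpG_y]
      rintro ⟨-, g, -⟩
      omega
    · rw [Pic.mem_DN (hG.oddE hE), rpG_x, rpG_y]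
      have hh := hG.h1
      have hxet := hG.xet
      unfold Pic.Yd
      rintro (g | g)
      · linarith [g.1]
      · linarith [g.2.2.1]
    · rintro ⟨g1, g2, -, -⟩
      have h5 := D.a5
      have h1 := D.a1
      rcases far_plate hG hCM (by linarith) hi with g | g <;> linarith
  · intro e he hR hne h1 h2 h3 h4
    have he' : e ∈ G.E \ G.Rt := he
    have heE := (mem_sdiff.1 he').1
    by_cases hD : e ∈ G.DN G.xs G.Yd
    · exfalso
      rw [Pic.mem_DN (hG.oddE heE)] at hD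
      have hxet := hG.xet
      rcases hD with g | g
      · exact hne g.1
      · linarith [g.2.2.1]
    · refine O2_dn D.N he' hD ?_
      rintro ⟨g1, g2, g3, g4⟩
      have k1 := D.a1
      have k2 := D.a2
      apply hR
      refine ⟨?_, ?_⟩ <;> (rw [abs_le]; constructor <;> linarith)

end Pool.Agent.H82.W
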