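import Mathlib
import Pool.Agent.H74.W.World

set_option autoImplicit false
open Finset

/-! # StChd from its pieces (W-D, V10)

`PR` : RAISE, `PBk` : blocks, `PO` : one-row + coin flip, for the values `hA` of the auxiliary world `A+`. -/

namespace Pool.Agent.H82.W

open Pool.Agent.H21.FM (Shape)
open Pool.Agent.Q1.M4 (Cell)
open Pool.Agent.H5.C3 (Gen)
open Pool.Agent.H13.W (chG)
open Pool.Agent.H74.W
open Filter Metric

/-- **RAISE**: the value of the world of `p` is near the value of the auxiliary world (`z1`: fixed point off the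
chord). -/
def PR (S : Shape) (b : ℤ) (z1 : ℂ) (hA : ℕ × ℕ → ℕ → ℤ × ℤ → ℂ) : Prop :=
  ∃ r > (0 : ℝ), ∀ ε > (0 : ℝ), ∀ᶠ k in lK, ∀ᶠ h : ℕ in atTop, ∀ p : ℤ × ℤ, dist (ps k h p) z1 < r →
    ‖HF S b k h p - hA k h p‖ ≤ ε

/-- **Block**: all values of the auxiliary world near `z1` are near one number `g k h`. -/
def PBk (z1 : ℂ) (hA : ℕ × ℕ → ℕ → ℤ × ℤ → ℂ) (g : ℕ × ℕ → ℕ → ℂ) (e : ℝ) : Prop :=
  ∃ r > (0 : ℝ), ∀ᶠ k in lK, ∀ᶠ h : ℕ in atTop, ∀ p : ℤ × ℤ, dist (ps k h p) z1 < r →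
    ‖hA k h p - g k h‖ ≤ e

/-- **One row and coin flip**: the two canonical worlds have nearly the same value. -/
def PO (gU gL : ℕ × ℕ → ℕ → ℂ) : Prop :=
  ∀ ε > (0 : ℝ), ∀ᶠ k in lK, ∀ᶠ h : ℕ in atTop, ‖gU k h - gL k h‖ ≤ ε

/-- **Chord data near one point `z0` of a chord**: canonical worlds of the scale `s` (`gU s`, `gL s`), auxiliary
worlds `hU`, `hL` above and below. -/
def ChdAt (S : Shape) (b : ℤ) (z0 : ℂ) : Prop :=
  ∃ (C κ r0 : ℝ) (hU hL : ℕ × ℕ → ℕ → ℤ × ℤ → ℂ) (gU gL : ℝ → ℕ × ℕ → ℕ → ℂ), 0 < κ ∧ 0 < r0 ∧ 0 ≤ C ∧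
    (∀ z1 ∈ ball z0 r0, z0.im < z1.im → PR S b z1 hU) ∧
    (∀ z1 ∈ ball z0 r0, z1.im < z0.im → PR S b z1 hL) ∧
    ∀ s : ℝ, 0 < s → s < r0 →
      (∀ z1 ∈ ball z0 s, z0.im < z1.im → PBk z1 hU (gU s) (C * (s / r0) ^ κ)) ∧
      (∀ z1 ∈ ball z0 s, z1.im < z0.im → PBk z1 hL (gL s) (C * (s / r0) ^ κ)) ∧ PO (gU s) (gL s)

theorem chd_at {S : Shape} {b : ℤ} {z0 : ℂ} (H : ChdAt S b z0) {ε : ℝ} (hε : 0 < ε) :
    ∃ δ > (0 : ℝ), ∀ z ∈ ball z0 δ, ∀ z' ∈ ball z0 δ, z.im < z0.im → z0.im < z'.im →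
      ∃ r > (0 : ℝ), ∀ᶠ k in lK, ∀ᶠ h : ℕ in atTop, ∀ p p' : ℤ × ℤ, dist (ps k h p) z < r →
        dist (ps k h p') z' < r → ‖HF S b k h p - HF S b k h p'‖ ≤ ε := by
  obtain ⟨C, κ, r0, hU, hL, gU, gL, hκ, hr0, hC, rU, rL, hB⟩ := H
  -- the scale
  obtain ⟨s, hs, hs0, hsC⟩ : ∃ s : ℝ, 0 < s ∧ s < r0 ∧ C * (s / r0) ^ κ ≤ ε / 8 := by
    have ht : Tendsto (fun t : ℝ => C * t ^ κ) (nhds 0) (nhds 0) := by
      have h1 : ContinuousAt (fun t : ℝ => C * t ^ κ) 0 := by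
        have := Real.continuousAt_rpow_const (0 : ℝ) κ (Or.inr hκ.le)
        exact continuousAt_const.mul this
      have h2 : C * (0 : ℝ) ^ κ = 0 := by rw [Real.zero_rpow hκ.ne', mul_zero]
      have h3 := h1.tendsto
      rwa [h2] at h3
    have h1 : ∀ᶠ t : ℝ in nhds 0, C * t ^ κ < ε / 8 :=
      ht.eventually (gt_mem_nhds (by positivity))
    obtain ⟨a, ha, ha'⟩ := Metric.eventually_nhds_iff.1 h1
    set t := min (a / 2) (1 / 2) with htt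
    have ht0 : 0 < t := lt_min (by positivity) (by norm_num)
    refine ⟨t * r0, by positivity, ?_, ?_⟩
    · have : t ≤ 1 / 2 := min_le_right _ _
      nlinarith
    · rw [mul_div_assoc, div_self hr0.ne', mul_one]
      refine (ha' ?_).le
      rw [Real.dist_eq, sub_zero, abs_of_pos ht0]
      have : t ≤ a / 2 := min_le_left _ _
      linarith
  obtain ⟨bU, bL, hO⟩ := hB s hs hs0
  refine ⟨s, hs, fun z hz z' hz' h1 h2 => ?_⟩
  have hsub : ball z0 s ⊆ ball z0 r0 := ball_subset_ball hs0.le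
  obtain ⟨r1, hr1, e1⟩ := rL z (hsub hz) h1
  obtain ⟨r2, hr2, e2⟩ := rU z' (hsub hz') h2
  obtain ⟨r3, hr3, e3⟩ := bL z hz h1
  obtain ⟨r4, hr4, e4⟩ := bU z' hz' h2
  refine ⟨min (min r1 r2) (min r3 r4), by positivity, ?_⟩
  filter_upwards [e1 (ε / 8) (by positivity), e2 (ε / 8) (by positivity), e3, e4,
    hO (ε / 8) (by positivity)] with k k1 k2 k3 k4 k5
  filter_upwards [k1, k2, k3, k4, k5] with h h1 h2 h3 h4 h5 p p' hp hp'
  have q1 := h1 p (hp.trans_le ((min_le_left _ _).trans (min_le_left _ _)))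
  have q2 := h2 p' (hp'.trans_le ((min_le_left _ _).trans (min_le_right _ _)))
  have q3 := h3 p (hp.trans_le ((min_le_right _ _).trans (min_le_left _ _)))
  have q4 := h4 p' (hp'.trans_le ((min_le_right _ _).trans (min_le_right _ _)))
  have key : HF S b k h p - HF S b k h p' = (HF S b k h p - hL k h p) + (hL k h p - gL s k h) -
      (gU s k h - gL s k h) - (hU k h p' - gU s k h) - (HF S b k h p' - hU k h p') := by ring
  rw [key]
  calc _ ≤ ‖HF S b k h p - hL k h p‖ + ‖hL k h p - gL s k h‖ + ‖gU s k h - gL s k h‖ +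
        ‖hU k h p' - gU s k h‖ + ‖HF S b k h p' - hU k h p'‖ := by
        refine (norm_sub_le _ _).trans (add_le_add ?_ le_rfl)
        refine (norm_sub_le _ _).trans (add_le_add ?_ le_rfl)
        refine (norm_sub_le _ _).trans (add_le_add ?_ le_rfl)
        exact norm_add_le _ _
    _ ≤ ε := by linarith

/-- **StChd from its pieces.** -/
theorem stChd_of (H : ∀ S : Shape, Gen S.P.Q → ∀ b : ℤ, (∀ c ∈ chG S.P.Q, c.1 < b) →
    ∃ F : Finset ℂ, ∀ z0 ∈ chU S.P.Q, z0 ∉ F → ChdAt S b z0) : StChd := by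
  intro S hS b hb
  obtain ⟨F, hF⟩ := H S hS b hb
  refine ⟨F, fun z0 hz0 hF0 ε hε => ?_⟩
  obtain ⟨δ, hδ, h1⟩ := chd_at (hF z0 hz0 hF0) hε
  refine ⟨δ, hδ, fun z hz z' hz' _ h2 h3 => ?_⟩
  obtain ⟨r, hr, h4⟩ := h1 z hz z' hz' h2 h3
  refine ⟨r, hr, ?_⟩
  filter_upwards [h4] with k hk
  filter_upwards [hk] with h hh p p' _ hp hp'
  exact hh p p' hp hp'

end Pool.Agent.H82.W
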