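import Mathlib
import Pool.Agent.H82.W.VHalfD
import Pool.Agent.H82.W.ChdTop
import Pool.Agent.H35.W.VO

set_option autoImplicit false
set_option linter.unusedVariables false
open Finset

/-! # StChd, V10: final assembly

`EndOk G xl H y` : the ends `y i` of the four worlds of a picture. `PicOk` : numbers of the picture. `Inst` : a
chord of a polygon as a picture (78), RAISE (19), values (41, 22, 72). `chdAt_of` : the values near a point of a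
chord. -/

namespace Pool.Agent.H82.W

open Pool.Agent.H33.Q1 (lt tt ct lt_odd tt_lt lt_tt lt_inj)
open Pool.Agent.H75.Perc hiding WL CT hh PB
open Pool.Agent.H75.TwoArm
open Pool.Agent.H21.FM (Shape)
open Pool.Agent.Q1.M4 (Cell)
open Pool.Agent.H55.W Pool.Agent.H99.W Pool.Agent.H78.W Pool.Agent.H51.W
open Pool.Agent.H19.W (cx cy cx_lt cy_lt lt_cc cx_up cy_up cx_dn cy_dn odd_up odd_dn)
open Pool.Agent.H13.W (SG SR up dn KB eW Sd of_side Dn SD mvd up_lt' chG)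
open Pool.Agent.H45.W (SRd)
open Pool.Agent.H58.W (PB PB_congr)
open Pool.Agent.H92.W (OutC)
open Pool.Agent.H35.W.VO (FcU FcL Num po_le)
open Pool.Agent.H35.W (Force)
open Pool.Agent.H74.W
open Filter Metric

/-- **The far ends of the worlds of a picture**: `y i` = alive corner of the mark `i` in `WN`, `WU`, `WL`, `yW i` =
alive corner in `WW` (they differ only at a mark at `(xw, Yc)`). -/
structure EndOk {κ : Type} [DecidableEq κ] (G : Pic κ) (xl H : ℤ) (y yW : Fin 3 → ℤ × ℤ) : Prop where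
  far : ∀ r : ℕ, 2 ≤ r → PWin G xl H r → ∀ i, 8 * (r : ℤ) + 2 < |(fi (y i)).1 - (pv G).1| ∨
    8 * (r : ℤ) + 2 < |(fi (y i)).2 - (pv G).2|
  out : ∀ i, OutC (G.Λ : Set (ℤ × ℤ)) (G.DN G.xs G.Yd) (y i)
  up : ∀ {xa xb ya yb : ℤ} {p : ℤ × ℤ}, VUp G xl H xa xb ya yb p → xl ≤ xa → G.Yc - H < ya →
    yb < G.Yc + H → ∀ i, SR (G.WN p).Λ (G.WN p).D (Bk xa xb ya yb) (VUp.S G xb p) (y i) (y i)
  exN : ∀ p : ℤ × ℤ, xl < p.1 → p.1 < G.xs → G.Yd < p.2 → p.2 + 4 < G.Yc + H → ∀ ω, ω ⊆ G.E →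
    ∃ i, ((G.WN p).G ω).Reachable (eW (lt p)) (y i)
  unN : ∀ p : ℤ × ℤ, xl < p.1 → p.1 < G.xs → G.Yd < p.2 → p.2 + 4 < G.Yc + H → ∀ ω, ω ⊆ G.E →
    ∀ i j, ((G.WN p).G ω).Reachable (eW (lt p)) (y i) → ((G.WN p).G ω).Reachable (eW (lt p)) (y j) → i = j
  exW : ∀ p : ℤ × ℤ, xl < p.1 → p.1 < G.xs → G.Yc - H + 4 < p.2 → p.2 + 4 < G.Yc → ∀ ω, ω ⊆ G.E →
    ∃ i, ((G.WW p).G ω).Reachable (eW (lt p)) (yW i)
  unW : ∀ p : ℤ × ℤ, xl < p.1 → p.1 < G.xs → G.Yc - H + 4 < p.2 → p.2 + 4 < G.Yc → ∀ ω, ω ⊆ G.E →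
    ∀ i j, ((G.WW p).G ω).Reachable (eW (lt p)) (yW i) → ((G.WW p).G ω).Reachable (eW (lt p)) (yW j) → i = j
  exU : ∀ ω, ω ⊆ G.E → ∃ i, (G.WU.G ω).Reachable (eW (lt (G.xs, G.Yd))) (y i)
  unU : ∀ ω, ω ⊆ G.E → ∀ i j, (G.WU.G ω).Reachable (eW (lt (G.xs, G.Yd))) (y i) →
    (G.WU.G ω).Reachable (eW (lt (G.xs, G.Yd))) (y j) → i = j
  exL : ∀ ω, ω ⊆ G.E \ G.Rt → ∃ i, (G.WL.G ω).Reachable (eW (lt (G.xs, G.Yd))) (y i)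
  unL : ∀ ω, ω ⊆ G.E \ G.Rt → ∀ i j, (G.WL.G ω).Reachable (eW (lt (G.xs, G.Yd))) (y i) →
    (G.WL.G ω).Reachable (eW (lt (G.xs, G.Yd))) (y j) → i = j
  dn : ∀ {xa ρ : ℤ} {p : ℤ × ℤ}, Dn G xl H xa ρ p → ∃ y' : Fin 3 → ℤ × ℤ,
    (∀ i, SRd (G.WW p).Λ (G.WW p).D (Pool.Agent.H13.W.Bk G xa ρ) (SD G p) (yW i) (y' i)) ∧
    (∀ i, |(fi (y' i)).1 - (fi (y i)).1| ≤ 2 ∧ |(fi (y' i)).2 - (fi (y i)).2| ≤ 2) ∧
    ∀ ω, ω ⊆ G.E \ G.Rt → ∀ i, ((G.WL.G ω).Reachable (eW (lt (G.xs, G.Yd))) (y' i) ↔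
      (G.WL.G ω).Reachable (eW (lt (G.xs, G.Yd))) (y i))

/-- plate index of the start of the canonical string, right of all ends -/
noncomputable def k0 (z : ℂ) (s : ℝ) (N : ℕ) : ℤ := ⌊(N : ℝ) * (z.re + s)⌋ + 2

/-- **Numbers of the picture** of the chord `(X, Y)` at the scale `σ`; `sg = true` : tooth above. -/
structure PicOk (b : ℤ) (z0 : ℂ) (X Y : ℤ) (sg : Bool) (σ : ℝ) (k : ℕ × ℕ) (h : ℕ) (G : Pic (ℤ × ℤ)) :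
    Prop where
  h_eq : G.h = h
  m_eq : G.m = 2 * h * k.2
  B_eq : G.B = k.1 * b
  xs_eq : G.xs = 2 * h * k.2 * k0 z0 σ k.1
  Yc_eq : G.Yc = (if sg then 1 else -1) * (2 * h * ((k.1 * k.2 : ℕ) : ℤ) * Y)
  xe_ge : 2 * h * ((k.1 * k.2 : ℕ) : ℤ) * (X + 1) ≤ G.xe
  ok : G.Ok (2 * h * ((k.1 * k.2 : ℕ) : ℤ) * X) (2 * h * ((3 * (k.1 * k.2) / 4 : ℕ) : ℤ))

/-- reflection -/
def rfl' (sg : Bool) (p : ℤ × ℤ) : ℤ × ℤ := if sg then p else (p.1, -1 - p.2)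

/-- weights of the far ends -/
noncomputable def tv (j : Fin 3) : ℂ := Pool.Agent.H74.W.tau ^ (j : ℕ)

/-- **A chord of a polygon as a picture**, scale `σ`; `dl ∈ {0, 1}` : shift of RAISE(V). -/
structure Inst (S : Shape) (b : ℤ) (z0 : ℂ) (X Y : ℤ) (sg : Bool) (dl : ℤ) (σ : ℝ)
    (G : ℕ × ℕ → ℕ → Pic (ℤ × ℤ)) (y yW : ℕ × ℕ → ℕ → Fin 3 → ℤ × ℤ) : Prop where
  d0 : 0 ≤ dl
  d1 : dl ≤ 1
  pic : ∀ᶠ k in lK, ∀ᶠ h : ℕ in atTop, PicOk b z0 X Y sg σ k h (G k h)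
  ends : ∀ᶠ k in lK, ∀ᶠ h : ℕ in atTop, EndOk (G k h) (2 * h * ((k.1 * k.2 : ℕ) : ℤ) * X)
    (2 * h * ((3 * (k.1 * k.2) / 4 : ℕ) : ℤ)) (y k h) (yW k h)
  tooth : ∀ᶠ k in lK, ∃ A : ℝ, ∀ᶠ h : ℕ in atTop, (((G k h).xt - (G k h).xs : ℤ) : ℝ) ≤ A * h
  wide : ∀ z1 ∈ ball z0 σ, (if sg then z1.im < z0.im else z0.im < z1.im) → ∃ r > (0 : ℝ),
    ∀ᶠ k in lK, ∀ᶠ h : ℕ in atTop, ∀ p : ℤ × ℤ, dist (ps k h p) z1 < r →
      HF S b k h p = val ((G k h).WW (rfl' sg p)) (eW (lt (rfl' sg p))) (yW k h) tv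
  narrow : ∀ z1 ∈ ball z0 σ, (if sg then z0.im < z1.im else z1.im < z0.im) → ∃ r > (0 : ℝ), ∀ ε > (0 : ℝ),
    ∀ᶠ k in lK, ∀ᶠ h : ℕ in atTop, ∀ p : ℤ × ℤ, dist (ps k h p) z1 < r →
      ‖HF S b k h p - val ((G k h).WN (rfl' sg (p.1, p.2 - dl))) (eW (lt (rfl' sg (p.1, p.2 - dl))))
        (y k h) tv‖ ≤ ε

end Pool.Agent.H82.W
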