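import Mathlib
import Pool.Agent.H82.W.VTop
import Pool.Agent.H78.W.VGo
import Pool.Agent.H74.W.TopS4

set_option autoImplicit false
set_option linter.unusedVariables false
open Finset

/-! # StChd, V10: the pictures of a chord (78's `pic`) at all scales: numbers

`GI` : the picture at the scale `k = (N, M')`, `h`, start of the canonical string `k0 z0 σ N`. `gi_D` : 78's
`PicD`. `gi_pic`, `gi_tooth` : the fields `pic`, `tooth` of `Inst`. -/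

namespace Pool.Agent.H82.W

open Pool.Agent.H21.FM (Shape)
open Pool.Agent.Q1.M4 (Cell)
open Pool.Agent.H78.W
open Pool.Agent.H13.W (chG)
open Pool.Agent.H74.W
open Filter Metric

/-- **The pictures of a chord.** -/
noncomputable def GI (S : Shape) (b : ℤ) (sg P : Bool) (be bt bw Y : ℤ) (z0 : ℂ) (σ : ℝ) (k : ℕ × ℕ) (h : ℕ) :
    Pic (ℤ × ℤ) :=
  if hM : 0 < k.1 * k.2 then pic S b k.1 k.2 h hM sg P be bt bw Y (k0 z0 σ k.1)
  else pic S b 1 1 h (by norm_num) sg P be bt bw Y (k0 z0 σ k.1)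

variable {S : Shape} {b X Y be bt bw aL : ℤ} {sg P : Bool} {z0 : ℂ} {σ : ℝ}

lemma GI_eq {k : ℕ × ℕ} {h : ℕ} (hM : 0 < k.1 * k.2) : GI S b sg P be bt bw Y z0 σ k h =
    pic S b k.1 k.2 h hM sg P be bt bw Y (k0 z0 σ k.1) := dif_pos hM

/-- **78's data, eventually.** -/
theorem gi_D (C : Cc S.P.Q sg X be bt bw Y P) (hb : ∀ c ∈ chG S.P.Q, c.1 < b)
    (ha : ∀ c ∈ chG S.P.Q, aL ≤ c.1) (h1 : (X : ℝ) < z0.re) (hσ : 0 < σ) (h2 : z0.re + σ < X + 1) :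
    ∀ᶠ k in lK, ∃ hM : 0 < k.1 * k.2, ∀ h : ℕ, 2 ≤ h →
      PicD S aL b k.1 k.2 h hM sg P X be bt bw Y (k0 z0 σ k.1) := by
  rw [eventually_lK]
  have hpos : 0 < (X : ℝ) + 1 - (z0.re + σ) := by linarith
  filter_upwards [eventually_gt_atTop ⌈2 / ((X : ℝ) + 1 - (z0.re + σ))⌉₊] with N hN
  filter_upwards [eventually_ge_atTop (64 * (N * (b - aL)).toNat + 1)] with M' hM'
  have hN0 : 0 < N := by omega
  have hNr : 2 / ((X : ℝ) + 1 - (z0.re + σ)) < N := by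
    have := Nat.le_ceil (2 / ((X : ℝ) + 1 - (z0.re + σ)))
    have h3 : ((⌈2 / ((X : ℝ) + 1 - (z0.re + σ))⌉₊ : ℕ) : ℝ) < N := by exact_mod_cast hN
    linarith
  rw [div_lt_iff₀ hpos] at hNr
  refine ⟨Nat.mul_pos hN0 (by omega), fun h hh => ⟨C, ⟨hN0, by omega, ha, hb, by omega⟩, hh, ?_, ?_⟩⟩
  · -- left
    have h3 : ((N : ℝ) * (z0.re + σ)) < ⌊(N : ℝ) * (z0.re + σ)⌋ + 1 := Int.lt_floor_add_one _
    have h4 : (N : ℝ) * X ≤ (N : ℝ) * (z0.re + σ) :=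
      mul_le_mul_of_nonneg_left (by linarith) (by positivity)
    have h5 : (((N : ℤ) * X : ℤ) : ℝ) ≤ ((k0 z0 σ N : ℤ) : ℝ) := by
      unfold k0; push_cast; linarith
    exact_mod_cast h5
  · -- right
    have h3 : ((⌊(N : ℝ) * (z0.re + σ)⌋ : ℤ) : ℝ) ≤ (N : ℝ) * (z0.re + σ) := Int.floor_le _
    have h4 : (N : ℝ) * (X + 1) ≤ N * be := by
      refine mul_le_mul_of_nonneg_left ?_ (by positivity)
      exact_mod_cast C.l1
    have h5 : ((k0 z0 σ N : ℤ) : ℝ) < (((N : ℤ) * be : ℤ) : ℝ) := by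
      unfold k0; push_cast
      have : (N : ℝ) * (X + 1 - (z0.re + σ)) = N * (X + 1) - N * (z0.re + σ) := by ring
      linarith
    exact_mod_cast h5

/-- **Field `pic` of `Inst`.** -/
theorem gi_pic (C : Cc S.P.Q sg X be bt bw Y P) (hb : ∀ c ∈ chG S.P.Q, c.1 < b)
    (ha : ∀ c ∈ chG S.P.Q, aL ≤ c.1) (h1 : (X : ℝ) < z0.re) (hσ : 0 < σ) (h2 : z0.re + σ < X + 1) :
    ∀ᶠ k in lK, ∀ᶠ h : ℕ in atTop, PicOk b z0 X Y sg σ k h (GI S b sg P be bt bw Y z0 σ k h) := by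
  filter_upwards [gi_D C hb ha h1 hσ h2] with k hk
  obtain ⟨hM, hD⟩ := hk
  filter_upwards [eventually_ge_atTop 2] with h hh
  have D := hD h hh
  rw [GI_eq hM]
  have c1 : (((k.1 * k.2 : ℕ) : ℤ)) = (k.1 : ℤ) * k.2 := by push_cast; ring
  have c2 : ((3 * (k.1 * k.2) / 4 : ℕ) : ℤ) = 3 * ((k.1 : ℤ) * k.2) / 4 := by push_cast; ring_nf
  refine ⟨rfl, rfl, rfl, rfl, ?_, ?_, ?_⟩
  · show yc sg (2 * h * (k.1 * k.2)) Y = _
    unfold yc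
    rw [c1]
    cases sg
    · simp
    · simp
  · show 2 * (h : ℤ) * ((k.1 * k.2 : ℕ) : ℤ) * (X + 1) ≤ 2 * h * (k.1 * k.2) * be
    rw [c1]
    have h3 : X + 1 ≤ be := C.l1
    have h4 : (0 : ℤ) ≤ 2 * h * (k.1 * k.2) := by positivity
    exact mul_le_mul_of_nonneg_left h3 h4
  · rw [c1, c2]
    exact D.ok

/-- **Field `tooth` of `Inst`.** -/
theorem gi_tooth (C : Cc S.P.Q sg X be bt bw Y P) (hb : ∀ c ∈ chG S.P.Q, c.1 < b)
    (ha : ∀ c ∈ chG S.P.Q, aL ≤ c.1) (h1 : (X : ℝ) < z0.re) (hσ : 0 < σ) (h2 : z0.re + σ < X + 1) :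
    ∀ᶠ k in lK, ∃ A : ℝ, ∀ᶠ h : ℕ in atTop,
      (((GI S b sg P be bt bw Y z0 σ k h).xt - (GI S b sg P be bt bw Y z0 σ k h).xs : ℤ) : ℝ) ≤ A * h := by
  filter_upwards [gi_D C hb ha h1 hσ h2] with k hk
  obtain ⟨hM, hD⟩ := hk
  refine ⟨2 * (k.1 * k.2) * bt - 2 * k.2 * k0 z0 σ k.1, Eventually.of_forall fun h => ?_⟩
  rw [GI_eq hM]
  show (((2 * (h : ℤ) * (k.1 * k.2) * bt - 2 * h * k.2 * k0 z0 σ k.1 : ℤ)) : ℝ) ≤ _
  push_cast
  apply le_of_eq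
  ring

end Pool.Agent.H82.W
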