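import Mathlib
import Pool.Agent.H82.W.EB

set_option autoImplicit false
set_option linter.unusedSectionVars false
open Finset

/-! # Equality of the laws of two coin worlds

`EB_pull` : states read through a map `r` of the live labels into the labels. `law_eq` : two worlds whose states
on the live labels `L` are `coin (r l) xor f l`, with the same partition into blocks and `f1 xor f2` constant on
the blocks, have the same expectations (flip the coins of the blocks where `f1 xor f2`). -/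

namespace Pool.Agent.H82.W

open Pool.Agent.H58.W Pool.Agent.H35.W
open Pool.Agent.H75.Perc (Pr Pr_eq)

variable {α γ β β' : Type*} [DecidableEq α] [DecidableEq γ] [DecidableEq β] [DecidableEq β']

lemma Pr_eq_of_pull {B C : Finset β} (h : C ⊆ B) (Q : Finset β → Prop) :
    Pr B (fun η => Q (η ∩ C)) = Pr C Q := by
  have h1 := PB_restrict (E := B) (F := C) h (fun x : β => x) Q
  unfold PB at h1
  have e1 : ∀ (D : Finset β) (η : Finset β), η ⊆ D → up D (fun x : β => x) η = η := by
    intro D η hη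
    ext x
    rw [mem_up]
    exact ⟨fun h => h.2, fun h => ⟨hη h, h⟩⟩
  rw [image_id', image_id'] at h1
  rw [Pool.Agent.H75.Perc.Pr_congr (B := fun η => Q (up B (fun x : β => x) η ∩ C)) fun η hη => by
    rw [e1 B η hη], h1]
  exact Pool.Agent.H75.Perc.Pr_congr fun η hη => by rw [e1 C η hη]

open Classical in
/-- the live labels whose representative is open -/
noncomputable def pull (L : Finset γ) (r : γ → α) (ω : Finset α) : Finset γ := L.filter fun l => r l ∈ ω

lemma pull_up {E : Finset α} {b : α → β} {L : Finset γ} {r : γ → α} (hr : ∀ l ∈ L, r l ∈ E)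
    (η : Finset β) : pull L r (up E b η) = up L (b ∘ r) (η ∩ L.image (b ∘ r)) := by
  classical
  ext l
  unfold pull
  rw [mem_filter, mem_up, mem_up, mem_inter]
  constructor
  · rintro ⟨h1, h2, h3⟩
    exact ⟨h1, h3, mem_image_of_mem _ h1⟩
  · rintro ⟨h1, h2, -⟩
    exact ⟨h1, hr l h1, h2⟩

/-- **States read through a map of the labels.** -/
theorem PB_pull {E : Finset α} {b : α → β} {L : Finset γ} {r : γ → α} (hr : ∀ l ∈ L, r l ∈ E)
    (Q : Finset γ → Prop) : PB E b (fun ω => Q (pull L r ω)) = PB L (b ∘ r) Q := by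
  classical
  have h2 : L.image (b ∘ r) ⊆ E.image b := by
    intro x hx
    obtain ⟨l, hl, rfl⟩ := mem_image.1 hx
    exact mem_image_of_mem b (hr l hl)
  unfold PB
  rw [← Pr_eq_of_pull h2]
  exact Pool.Agent.H75.Perc.Pr_congr fun η _ => by
    beta_reduce
    rw [pull_up hr]

theorem EB_pull {E : Finset α} {b : α → β} {L : Finset γ} {r : γ → α} (hr : ∀ l ∈ L, r l ∈ E)
    (V : Finset γ → ℂ) : EB E b (fun ω => V (pull L r ω)) = EB L (b ∘ r) V := by
  classical
  have hs : ∀ ω, ω ⊆ L → V ω ∈ L.powerset.image V := fun ω hω =>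
    mem_image_of_mem V (mem_powerset.2 hω)
  have hp : ∀ ω : Finset α, pull L r ω ⊆ L := fun ω => filter_subset _ _
  rw [EB_values (V := fun ω => V (pull L r ω)) b (L.powerset.image V) (fun ω _ => hs _ (hp ω)),
    EB_values (V := V) (b ∘ r) (L.powerset.image V) hs]
  exact sum_congr rfl fun c _ => by rw [PB_pull hr (fun ω => V ω = c)]

open Classical in
/-- the live labels with `coin xor f` -/
noncomputable def xf (L : Finset γ) (r : γ → α) (f : γ → Prop) (ω : Finset α) : Finset γ :=
  L.filter fun l => Xor (r l ∈ ω) (f l)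

/-- **Equality of the laws.** -/
theorem law_eq {α' : Type*} [DecidableEq α'] {E1 : Finset α} {b1 : α → β} {E2 : Finset α'} {b2 : α' → β'}
    {L : Finset γ} {r1 : γ → α} {r2 : γ → α'} {f1 f2 : γ → Prop} (h1 : ∀ l ∈ L, r1 l ∈ E1)
    (h2 : ∀ l ∈ L, r2 l ∈ E2)
    (hb : ∀ l ∈ L, ∀ l' ∈ L, b1 (r1 l) = b1 (r1 l') ↔ b2 (r2 l) = b2 (r2 l'))
    (hf : ∀ l ∈ L, ∀ l' ∈ L, b1 (r1 l) = b1 (r1 l') → (Xor (f1 l) (f2 l) ↔ Xor (f1 l') (f2 l')))
    (V : Finset γ → ℂ) :
    EB E1 b1 (fun ω => V (xf L r1 f1 ω)) = EB E2 b2 (fun ω => V (xf L r2 f2 ω)) := by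
  classical
  set F : Finset γ := L.filter fun l => Xor (f1 l) (f2 l) with hF
  have e1 : ∀ ω : Finset α, xf L r1 f1 ω =
      (fun η : Finset γ => L.filter fun l => Xor (l ∈ η) (f1 l)) (pull L r1 ω) := by
    intro ω
    ext l
    simp only [xf, pull, mem_filter]
    constructor
    · rintro ⟨a, b⟩; exact ⟨a, by simpa [a] using b⟩
    · rintro ⟨a, b⟩; exact ⟨a, by simpa [a] using b⟩
  have e2 : ∀ ω : Finset α', xf L r2 f2 ω =
      (fun η : Finset γ => L.filter fun l => Xor (l ∈ η) (f2 l)) (pull L r2 ω) := by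
    intro ω
    ext l
    simp only [xf, pull, mem_filter]
    constructor
    · rintro ⟨a, b⟩; exact ⟨a, by simpa [a] using b⟩
    · rintro ⟨a, b⟩; exact ⟨a, by simpa [a] using b⟩
  have g1 : EB E1 b1 (fun ω => V (xf L r1 f1 ω)) =
      EB L (b1 ∘ r1) (fun η => V (L.filter fun l => Xor (l ∈ η) (f1 l))) := by
    rw [← EB_pull h1]
    exact EB_congr fun ω _ => by rw [e1]
  have g2 : EB E2 b2 (fun ω => V (xf L r2 f2 ω)) =
      EB L (b2 ∘ r2) (fun η => V (L.filter fun l => Xor (l ∈ η) (f2 l))) := by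
    rw [← EB_pull h2]
    exact EB_congr fun ω _ => by rw [e2]
  have g3 : EB L (b2 ∘ r2) (fun η => V (L.filter fun l => Xor (l ∈ η) (f2 l))) =
      EB L (b1 ∘ r1) (fun η => V (L.filter fun l => Xor (l ∈ η) (f2 l))) :=
    (EB_blocks (fun l hl l' hl' => hb l hl l' hl') _).symm
  rw [g1, g2, g3, ← EB_flip (E := L) (F := F) (b := b1 ∘ r1) (filter_subset _ _) ?_
    (fun η => V (L.filter fun l => Xor (l ∈ η) (f2 l)))]
  · refine EB_congr fun η hη => ?_
    congr 1
    ext l
    simp only [mem_filter]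
    refine and_congr_right fun hl => ?_
    rw [mem_symmDiff, hF, mem_filter]
    by_cases a1 : l ∈ η <;> by_cases a2 : f1 l <;> by_cases a3 : f2 l <;> simp [a1, a2, a3, hl, Xor]
  · intro l hl l' hl' hbb
    rw [hF, mem_filter] at hl ⊢
    exact ⟨hl', (hf l hl.1 l' hl' hbb).1 hl.2⟩

end Pool.Agent.H82.W
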