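import Mathlib
import Pool.Agent.H78.W.VGi
import Pool.Agent.H82.W.EqLaw
import Pool.Agent.H82.W.S3

set_option autoImplicit false
set_option linter.unusedVariables false
open Finset

/-! # Values of a world and of its picture (reflected or not)

`val_rl` : `B` = picture of `A` under 78's `rl sg`. -/

namespace Pool.Agent.H82.W

open Pool.Agent.H13.W (SG SG_congr)
open Pool.Agent.H45.W (sw swF swS mem_swF sw_sw reach_sw)
open Pool.Agent.H78.W (rl rlF mem_rlF)
open Pool.Agent.H58.W (PB PB_congr)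

variable {β γ : Type*} [DecidableEq β] [DecidableEq γ]

lemma rl_rl (sg : Bool) (e : ℤ × ℤ) : rl sg (rl sg e) = e := by
  unfold rl; cases sg <;> simp

lemma rlF_rlF (sg : Bool) (A : Finset (ℤ × ℤ)) : rlF sg (rlF sg A) = A := by
  ext e; rw [mem_rlF, mem_rlF, rl_rl]

lemma mem_xf' {α γ' : Type*} [DecidableEq α] [DecidableEq γ'] {L : Finset γ'} {r : γ' → α} {f : γ' → Prop}
    {ω : Finset α} {l : γ'} : l ∈ xf L r f ω ↔ l ∈ L ∧ Xor (r l ∈ ω) (f l) := by
  classical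
  unfold xf
  rw [mem_filter]

/-- the law of the picture -/
theorem PB_rl (sg : Bool) {E E' : Finset (ℤ × ℤ)} {b : ℤ × ℤ → β} {b' : ℤ × ℤ → γ} (hE : E' = rlF sg E)
    (hb : ∀ e ∈ E, ∀ e' ∈ E, b e = b e' ↔ b' (rl sg e) = b' (rl sg e')) (Q : Finset (ℤ × ℤ) → Prop) :
    PB E' b' Q = PB E b (fun ω => Q (rlF sg ω)) := by
  classical
  have hL : ∀ l ∈ E', rl sg l ∈ E := fun l hl => by rw [hE, mem_rlF] at hl; exact hl
  have h := law_eq (E1 := E') (b1 := b') (E2 := E) (b2 := b) (L := E') (r1 := fun l => l) (r2 := rl sg)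
    (f1 := fun _ => False) (f2 := fun _ => False) (fun l hl => hl) hL
    (fun l hl l' hl' => by
      have := hb _ (hL l hl) _ (hL l' hl')
      rw [rl_rl, rl_rl] at this
      exact this.symm)
    (fun _ _ _ _ _ => Iff.rfl) (fun ω => if Q ω then (1 : ℂ) else 0)
  have e1 : ∀ ω, ω ⊆ E' → xf E' (fun l => l) (fun _ => False) ω = ω := by
    intro ω hω
    ext l
    rw [mem_xf']
    constructor
    · rintro ⟨h1, h2⟩
      simpa [Xor] using h2
    · intro h1
      exact ⟨hω h1, by simpa [Xor] using h1⟩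
  have e2 : ∀ ω, ω ⊆ E → xf E' (rl sg) (fun _ => False) ω = rlF sg ω := by
    intro ω hω
    ext l
    rw [mem_xf', mem_rlF, hE, mem_rlF]
    constructor
    · rintro ⟨h1, h2⟩
      simpa [Xor] using h2
    · intro h1
      exact ⟨hω h1, by simpa [Xor] using h1⟩
  rw [EB_congr (V' := fun ω => if Q ω then (1 : ℂ) else 0) (fun ω hω => by simp only [e1 ω hω]),
    EB_congr (E := E) (V' := fun ω => if Q (rlF sg ω) then (1 : ℂ) else 0)
      (fun ω hω => by simp only [e2 ω hω]), EB_ind, EB_ind] at h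
  exact_mod_cast h

/-- connections of the picture -/
lemma reach_rl (sg : Bool) {Λ Λ' D D' : Set (ℤ × ℤ)} {w w' : Finset (ℤ × ℤ)}
    (hΛ : ∀ e, e ∈ Λ' ↔ rl sg e ∈ Λ) (hD : ∀ e ∈ Λ, (rl sg e ∈ D' ↔ e ∈ D))
    (hw : ∀ e ∈ Λ, e ∉ D → (rl sg e ∈ w' ↔ e ∈ w)) (c d : ℤ × ℤ) :
    (SG Λ' D' w').Reachable (rl sg c) (rl sg d) ↔ (SG Λ D w).Reachable c d := by
  cases sg
  · have e1 : SG Λ' D' w' = SG (swS Λ) (swS D) (swF w) := by
      have hΛ' : Λ' = swS Λ := by
        ext e; exact hΛ e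
      rw [hΛ']
      refine SG_congr (fun e he => ?_) (fun e he hd => ?_)
      · have := hD _ he
        rw [show rl false (sw e) = e from sw_sw e] at this
        rw [this]
        exact Iff.rfl
      · have h1 := hD _ he
        rw [show rl false (sw e) = e from sw_sw e] at h1
        have h2 := hw _ he (fun h => hd (h1.2 h))
        rw [show rl false (sw e) = e from sw_sw e] at h2
        rw [h2, mem_swF]
    rw [e1]
    exact reach_sw
  · have hΛ' : Λ' = Λ := by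
      ext e; exact hΛ e
    rw [hΛ', SG_congr (w' := w) (fun e he => hD e he) (fun e he hd => hw e he (fun h => hd ((hD e he).2 h)))]
    exact Iff.rfl

/-- **The value of the picture.** -/
theorem val_rl (sg : Bool) {A : WD β} {B : WD γ} (hE : B.E = rlF sg A.E)
    (hb : ∀ e ∈ A.E, ∀ e' ∈ A.E, A.b e = A.b e' ↔ B.b (rl sg e) = B.b (rl sg e'))
    (hΛ : ∀ e, e ∈ B.Λ ↔ rl sg e ∈ A.Λ) (hD : ∀ e ∈ A.Λ, (rl sg e ∈ B.D ↔ e ∈ A.D))
    (hw : ∀ ω, ω ⊆ A.E → ∀ e ∈ A.Λ, e ∉ A.D → (rl sg e ∈ B.st (rlF sg ω) ↔ e ∈ A.st ω))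
    {ι : Type*} [Fintype ι] (z : ℤ × ℤ) (x : ι → ℤ × ℤ) (v : ι → ℂ) :
    val B (rl sg z) (fun i => rl sg (x i)) v = val A z x v := by
  unfold val
  refine sum_congr rfl fun i _ => ?_
  have h : PB B.E B.b (fun ω => (B.G ω).Reachable (rl sg z) (rl sg (x i))) =
      PB A.E A.b (fun ω => (A.G ω).Reachable z (x i)) :=
    (PB_rl sg hE hb _).trans (PB_congr fun ω hω => reach_rl sg hΛ hD (hw ω hω) z (x i))
  rw [h]

end Pool.Agent.H82.W
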