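import Mathlib
import Pool.Agent.H82.W.S3
import Pool.Agent.H19.W.MoveC
import Pool.Agent.H61.W.JWorld

set_option autoImplicit false
set_option linter.unusedVariables false
open Finset

/-! # The junction worlds and their canonical worlds as `WD` (C6, J6)

Tile coordinates `(x, y)`, label `lt (x, y)`, box `b`, `n = 2 h`.
`sl : Option Slit` = slit data: deleted row `y0` to the left of the abscissa `x1`, the plate labels above
(`s = true`) resp. below (`s = false`) this row and left of `x1` are flipped (61: `y0 = Yr s`, any row is allowed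
here). `none` : no mark on `P` (X world).
`AZ` = world of the moving end `v` (61's GX for `sl = none`, GY for `sl = some (s, Yr s, x1)`).
`AU` = canonical world of the upper bank: the string is the row `Yd` from `xs` on, the plates right of `xs` are
one row higher above this row (content of the tile `(x, y)` = tile `cnt (x, y)`), flipped.
`AL` = canonical world of the lower bank: the plates right of `xs` are one row lower below the row `Yd`. -/

namespace Pool.Agent.H82.W

open Pool.Agent.H33.Q1 Pool.Agent.H6.W Pool.Agent.H50.W Pool.Agent.H58.W Pool.Agent.H13.W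
open Pool.Agent.H61.W

/-- slit data: bank, row, abscissa -/
structure Slit where
  s : Bool
  y0 : ℤ
  x1 : ℤ

/-- 61's slit of the mark on the bank `s` -/
def slit0 (s : Bool) (x1 : ℤ) : Slit := ⟨s, Yr s, x1⟩

/-- deleted tiles of the slit -/
def slR (sl : Option Slit) (x y : ℤ) : Prop := ∃ t ∈ sl, y = t.y0 ∧ x < t.x1

/-- the tile is on the flipped side of the slit -/
def slF (sl : Option Slit) (x y : ℤ) : Prop :=
  ∃ t ∈ sl, x < t.x1 ∧ (if t.s then t.y0 < y else y < t.y0)

section
variable (b : JBox) (h : ℕ) (base o : Bool) (M : Finset (Bool × ℕ)) (sl : Option Slit)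

/-- plate of the tile `(x, y)` -/
def pla (x y : ℤ) : Option ℕ := chn 0 b.M b.τ (x / (2 * h : ℤ), y / (2 * h : ℤ))

/-- tile of the chunk `P` -/
def InP (x y : ℤ) : Prop := InQ b (2 * h) x y ∧ ∃ i < b.m, pla b h x y = some i

open Classical in
/-- **World of the moving end `v`.** -/
noncomputable def AZ (v : ℤ × ℤ) : WD ((ℤ × ℤ) ⊕ ℕ) where
  Λ := Lam b (2 * h) M
  D := {e | ∃ x y, e = lt (x, y) ∧ ((y = v.2 ∧ v.1 ≤ x) ∨ slR sl x y)}
  E := (b.B h).filter fun e => ¬ InP b h (tt e).1 (tt e).2
  b := bk (2 * h) (chn 0 b.M b.τ)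
  F := (b.B h).filter fun e => ¬ InP b h (tt e).1 (tt e).2 ∧ pla b h (tt e).1 (tt e).2 ≠ none ∧
    slF sl (tt e).1 (tt e).2
  W := Wl b (2 * h) (colM base M (some v.2)) ∪ (b.B h).filter fun e => InP b h (tt e).1 (tt e).2 ∧
    Xor (o = true) (slF sl (tt e).1 (tt e).2)

/-- the tile whose content is at the place `(x, y)` in the canonical world of the upper bank -/
def cU (xs Yd : ℤ) (x y : ℤ) : ℤ × ℤ := if xs ≤ x ∧ Yd < y then (x, y - 1) else (x, y)

/-- the same for the lower bank -/
def cL (xs Yd : ℤ) (x y : ℤ) : ℤ × ℤ := if xs ≤ x ∧ y < Yd then (x, y + 1) else (x, y)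

open Classical in
/-- a world whose plates are read through a content map `c`; `mvd` = the content has been moved (flipped) -/
noncomputable def AC (c : ℤ → ℤ → ℤ × ℤ) (xs Yd : ℤ) : WD ((ℤ × ℤ) ⊕ ℕ) where
  Λ := Lam b (2 * h) M
  D := {e | ∃ x y, e = lt (x, y) ∧ ((y = Yd ∧ xs ≤ x) ∨ slR sl x y)}
  E := (b.B h).filter fun e => ¬ InP b h (c (tt e).1 (tt e).2).1 (c (tt e).1 (tt e).2).2
  b := fun e => match pla b h (c (tt e).1 (tt e).2).1 (c (tt e).1 (tt e).2).2 with
    | none => Sum.inl e
    | some k => Sum.inr k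
  F := (b.B h).filter fun e => ¬ InP b h (c (tt e).1 (tt e).2).1 (c (tt e).1 (tt e).2).2 ∧
    pla b h (c (tt e).1 (tt e).2).1 (c (tt e).1 (tt e).2).2 ≠ none ∧
    Xor (slF sl (c (tt e).1 (tt e).2).1 (c (tt e).1 (tt e).2).2)
      (c (tt e).1 (tt e).2 ≠ ((tt e).1, (tt e).2))
  W := Wl b (2 * h) (colM base M (some Yd)) ∪ (b.B h).filter fun e =>
    InP b h (c (tt e).1 (tt e).2).1 (c (tt e).1 (tt e).2).2 ∧
    Xor (o = true) (Xor (slF sl (c (tt e).1 (tt e).2).1 (c (tt e).1 (tt e).2).2)
      (c (tt e).1 (tt e).2 ≠ ((tt e).1, (tt e).2)))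

/-- **Canonical world of the upper bank.** -/
noncomputable def AU (xs Yd : ℤ) : WD ((ℤ × ℤ) ⊕ ℕ) := AC b h base o M sl (cU xs Yd) xs Yd

/-- **Canonical world of the lower bank.** -/
noncomputable def AL (xs Yd : ℤ) : WD ((ℤ × ℤ) ⊕ ℕ) := AC b h base o M sl (cL xs Yd) xs Yd

end

end Pool.Agent.H82.W
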