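import Mathlib
import Pool.Agent.H82.W.JG

set_option autoImplicit false
set_option linter.unusedVariables false
set_option linter.unusedSectionVars false
open Finset

/-! # The strip move of the junction worlds onto the canonical world of the upper bank

`UpG` : geometric hypotheses. `UpG.strip` : 19's `StripOK`; `UpG.lm` : bookkeeping of the labels; `UpG.moved` :
19's `Moved`; `UpG.move` : 13's `StripMove` for corresponding configurations. -/

namespace Pool.Agent.H82.W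

open Pool.Agent.H33.Q1 Pool.Agent.H6.W Pool.Agent.H50.W Pool.Agent.H13.W
open Pool.Agent.H58.W hiding up
open Pool.Agent.H61.W Pool.Agent.H19.W Pool.Agent.H75.Perc

section geo
variable {b : JBox} {n x y : ℤ}

lemma InQ_core (hn : 0 < n) (h1 : -(b.X * n) ≤ x) (h2 : x < b.X * n) (h3 : -(b.H * n) ≤ y)
    (h4 : y < b.H * n) : InQ b n x y := by
  unfold InQ JBox.Q RC
  rw [mem_union]
  left
  rw [mem_product, mem_Ico, mem_Ico]
  have e1 : (-(b.X : ℤ)) ≤ x / n := by
    rw [Int.le_ediv_iff_mul_le hn, neg_mul]; exact h1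
  have e2 : x / n < b.X := by
    rw [Int.ediv_lt_iff_lt_mul hn]; exact h2
  have e3 : (-(b.H : ℤ)) ≤ y / n := by
    rw [Int.le_ediv_iff_mul_le hn, neg_mul]; exact h3
  have e4 : y / n < b.H := by
    rw [Int.ediv_lt_iff_lt_mul hn]; exact h4
  exact ⟨⟨e1, e2⟩, e3, e4⟩

lemma InQ_cols (hn : 0 < n) (hst : ∀ i < b.K, -(b.X : ℤ) < b.st i ∧ b.st i < b.X) (h : InQ b n x y) :
    -(b.X * n) ≤ x ∧ x < b.X * n := by
  have key : -(b.X : ℤ) ≤ x / n ∧ x / n < b.X := by
    unfold InQ JBox.Q RC at h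
    rw [mem_union, mem_biUnion] at h
    rcases h with h | ⟨i, hi, h⟩
    · rw [mem_product, mem_Ico] at h
      exact h.1
    · have h5 := hst i (mem_range.1 hi)
      rw [mem_union, mem_product, mem_product, mem_Ico] at h
      rcases h with h | h
      · simp only at h; omega
      · simp only at h; omega
  rw [Int.le_ediv_iff_mul_le hn, neg_mul, Int.ediv_lt_iff_lt_mul hn] at key
  exact key

end geo

/-- **Geometry of the move onto the upper bank.** `v` = tile of the moving end, `xs` first column of the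
canonical string, `Yd` its row, `Bl` the inner block. -/
structure UpG (b : JBox) (h : ℕ) (M : Finset (Bool × ℕ)) (sl : Option Slit) (v : ℤ × ℤ) (xs Yd : ℤ)
    (Bl : Set (ℤ × ℤ)) : Prop where
  h0 : 0 < h
  st : ∀ i < b.K, -(b.X : ℤ) < b.st i ∧ b.st i < b.X
  lo : -(b.H * (2 * h) : ℤ) ≤ Yd
  yv : Yd ≤ v.2
  hi : v.2 < b.H * (2 * h)
  xl : -(b.X * (2 * h) : ℤ) ≤ xs
  xr : xs ≤ b.X * (2 * h)
  xv : -(b.X * (2 * h) : ℤ) ≤ v.1
  pl : ∀ x y, xs ≤ x → pla b h x y ≠ none → y < v.2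
  sl : ∀ t ∈ sl, t.y0 + 1 < Yd
  bl : ∀ x y, Yd ≤ y → y ≤ v.2 → min xs v.1 - 1 ≤ x → x ≤ max xs v.1 → lt (x, y) ∈ Bl
  bd : ∀ x, xs ≤ x → lt (x, v.2) ∉ Bl → lt (x, v.2 - 1) ∉ Bl

namespace UpG

variable {b : JBox} {h : ℕ} {M : Finset (Bool × ℕ)} {sl : Option Slit} {v : ℤ × ℤ} {xs Yd : ℤ}
  {Bl : Set (ℤ × ℤ)} {base o : Bool}

/-- the strip -/
def S (v : ℤ × ℤ) (xs Yd : ℤ) : Set (ℤ × ℤ) := {e | xs ≤ cx e ∧ Yd ≤ cy e ∧ cy e < v.2}

lemma n0 (G : UpG b h M sl v xs Yd Bl) : (0 : ℤ) < 2 * h := by have := G.h0; omega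

/-- a tile of a row of the core of the box is a tile of the strand graph or none -/
lemma row (G : UpG b h M sl v xs Yd Bl) {x y y' : ℤ} (h1 : lt (x, y) ∈ Lam b (2 * h) M)
    (h2 : Yd ≤ y' ∨ -(b.H * (2 * h) : ℤ) ≤ y') (h3 : y' ≤ v.2) : lt (x, y') ∈ Lam b (2 * h) M := by
  have hn := G.n0
  have h2' : -(b.H * (2 * h) : ℤ) ≤ y' := by rcases h2 with h | h; exact G.lo.trans h; exact h
  have h4 : y' < b.H * (2 * h) := lt_of_le_of_lt h3 G.hi
  have hX : ∃ i : ℤ, |i| ≤ 3 ∧ -(b.X * (2 * h) : ℤ) ≤ x + i ∧ x + i < b.X * (2 * h) := by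
    obtain ⟨x1, y1, h5, h6⟩ := h1
    have h7 := lt_inj h5
    rw [Prod.mk.injEq] at h7
    rcases h6 with h6 | ⟨⟨-, i, j, hi, -, hq⟩, -⟩
    · exact ⟨0, by norm_num, by rw [add_zero, h7.1]; exact InQ_cols hn G.st h6⟩
    · exact ⟨i, hi, by rw [h7.1]; exact InQ_cols hn G.st hq⟩
  refine ⟨x, y', rfl, ?_⟩
  by_cases hq : InQ b (2 * h) x y'
  · exact Or.inl hq
  · right
    refine ⟨⟨hq, ?_⟩, ?_⟩
    · obtain ⟨i, hi, hx1, hx2⟩ := hX
      exact ⟨i, 0, hi, by norm_num, by rw [add_zero]; exact InQ_core hn hx1 hx2 h2' h4⟩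
    · intro c _ hc
      have h8 : y' = (dgt b (2 * h) c).2 := congrArg Prod.snd hc
      unfold dgt cpt at h8
      simp only at h8
      have hH : (0 : ℤ) ≤ (c.2 : ℤ) * (2 * h) := by positivity
      split_ifs at h8 with hc1
      · nlinarith
      · nlinarith

theorem strip (G : UpG b h M sl v xs Yd Bl) :
    StripOK (AZ b h base o M sl v).Λ (AZ b h base o M sl v).D Bl (S v xs Yd) where
  odd := by
    rintro e ⟨x, y, rfl, -⟩
    exact lt_odd _
  sD := by
    rintro e - - ⟨h1, h2, h3⟩ ⟨x, y, rfl, h4 | ⟨t, ht, h5, h6⟩⟩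
    · rw [cy_lt] at h3; omega
    · have := G.sl t ht
      rw [cy_lt] at h2; simp only at h2; omega
  eas e _ _ h3 _ _ := by
    obtain ⟨h4, h5, h6⟩ := h3
    refine ⟨?_, ?_, ?_⟩
    · rw [cx_ea]; omega
    · rw [cy_ea]; exact h5
    · rw [cy_ea]; exact h6
  wes := by
    rintro e ⟨x, y, rfl, -⟩ _ ⟨h4, h5, h6⟩ _ h7
    rw [cx_lt] at h4
    rw [cy_lt] at h5 h6
    simp only at h4 h5 h6
    refine ⟨?_, ?_, ?_⟩
    · rw [cx_we, cx_lt]
      simp only
      by_contra hc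
      apply h7
      have : we (lt (x, y)) = lt (x - 1, y) := by
        unfold we lt; simp only [Prod.mk.injEq]; constructor <;> ring
      rw [this]
      exact G.bl _ _ h5 h6.le (by omega) (by omega)
    · rw [cy_we, cy_lt]; exact h5
    · rw [cy_we, cy_lt]; exact h6
  ups := by
    rintro e ⟨x, y, rfl, -⟩ _ ⟨h4, h5, h6⟩ _ h7
    rw [cx_lt] at h4
    rw [cy_lt] at h5 h6
    simp only at h4 h5 h6
    have hu : up (lt (x, y)) = lt (x, y + 1) := by
      unfold up lt; simp only [Prod.mk.injEq]; constructor <;> ring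
    rcases eq_or_lt_of_le (show y + 1 ≤ v.2 by omega) with h8 | h8
    · right
      rw [hu]
      refine ⟨x, y + 1, rfl, Or.inl ⟨h8, ?_⟩⟩
      by_contra hc
      apply h7
      rw [hu]
      exact G.bl _ _ (by omega) (by omega) (by omega) (by omega)
    · left
      refine ⟨?_, ?_, ?_⟩
      · rw [cx_up, cx_lt]; exact h4
      · rw [cy_up, cy_lt]; simp only; omega
      · rw [cy_up, cy_lt]; exact h8
  dns := by
    rintro e ⟨x, y, rfl, -⟩ _ ⟨h4, h5, h6⟩ _ _ ⟨x', y', h7, h8⟩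
    rw [cy_lt] at h5 h6
    simp only at h5 h6
    have hu : dn (lt (x, y)) = lt (x, y - 1) := by
      unfold dn lt; simp only [Prod.mk.injEq]; constructor <;> ring
    rw [hu] at h7
    have h9 := lt_inj h7
    rw [Prod.mk.injEq] at h9
    rcases h8 with h8 | ⟨t, ht, h8, -⟩
    · omega
    · have := G.sl t ht; omega
  dd := by
    rintro e h1 h2 ⟨x, y, rfl, h3⟩ ⟨h4, h5, h6⟩
    have hu : dn (lt (x, y)) = lt (x, y - 1) := by
      unfold dn lt; simp only [Prod.mk.injEq]; constructor <;> ring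
    rw [hu] at h4 h5 h6 ⊢
    rw [cx_lt] at h4
    rw [cy_lt] at h5 h6
    simp only at h4 h5 h6
    rcases h3 with ⟨h3, h7⟩ | ⟨t, ht, h3, -⟩
    · exact ⟨G.row h1 (Or.inl h5) (by omega), by subst h3; exact G.bd x h4 h2⟩
    · have := G.sl t ht; omega

open Classical in
/-- labels of the first world outside the block which are not deleted -/
noncomputable def O1 (b : JBox) (h : ℕ) (base o : Bool) (M : Finset (Bool × ℕ)) (sl : Option Slit)
    (v : ℤ × ℤ) (Bl : Set (ℤ × ℤ)) : Finset (ℤ × ℤ) :=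
  (AZ b h base o M sl v).E.filter fun e => e ∉ Bl ∧ e ∉ (AZ b h base o M sl v).D

lemma mem_Bh (hn : (0 : ℤ) < 2 * h) {x y : ℤ} : lt (x, y) ∈ b.B h ↔ InQ b (2 * h) x y := by
  unfold JBox.B
  rw [lt_mem_TL hn]
  rfl

lemma of_Bh (hn : (0 : ℤ) < 2 * h) {e : ℤ × ℤ} (he : e ∈ b.B h) : ∃ x y, e = lt (x, y) ∧
    InQ b (2 * h) x y := by
  unfold JBox.B at he
  obtain ⟨h1, h2⟩ := (mem_TL hn).1 he
  exact ⟨(tt e).1, (tt e).2, (lt_tt h1).symm, h2⟩

lemma mem_AZE (hn : (0 : ℤ) < 2 * h) {x y : ℤ} : lt (x, y) ∈ (AZ b h base o M sl v).E ↔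
    InQ b (2 * h) x y ∧ ¬ InP b h x y := by
  classical
  unfold AZ
  simp only [mem_filter, mem_Bh hn, tt_lt]

lemma mem_AZF (hn : (0 : ℤ) < 2 * h) {x y : ℤ} : lt (x, y) ∈ (AZ b h base o M sl v).F ↔
    InQ b (2 * h) x y ∧ ¬ InP b h x y ∧ pla b h x y ≠ none ∧ slF sl x y := by
  classical
  unfold AZ
  simp only [mem_filter, mem_Bh hn, tt_lt]

lemma mem_ACE (hn : (0 : ℤ) < 2 * h) {c : ℤ → ℤ → ℤ × ℤ} {x y : ℤ} :
    lt (x, y) ∈ (AC b h base o M sl c xs Yd).E ↔
    InQ b (2 * h) x y ∧ ¬ InP b h (c x y).1 (c x y).2 := by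
  classical
  unfold AC
  simp only [mem_filter, mem_Bh hn, tt_lt]

lemma mem_ACF (hn : (0 : ℤ) < 2 * h) {c : ℤ → ℤ → ℤ × ℤ} {x y : ℤ} :
    lt (x, y) ∈ (AC b h base o M sl c xs Yd).F ↔
    InQ b (2 * h) x y ∧ ¬ InP b h (c x y).1 (c x y).2 ∧ pla b h (c x y).1 (c x y).2 ≠ none ∧
      Xor (slF sl (c x y).1 (c x y).2) (c x y ≠ (x, y)) := by
  classical
  unfold AC
  simp only [mem_filter, mem_Bh hn, tt_lt]

lemma mem_Wl {cl : Cl} {x y : ℤ} : lt (x, y) ∈ Wl b (2 * h) cl ↔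
    ((-(b.X * (2 * h) : ℤ) - 3 ≤ x ∧ x ≤ b.X * (2 * h) + 2) ∧
      (-((b.H + b.K) * (2 * h) : ℤ) - 3 ≤ y ∧ y ≤ (b.H + b.K) * (2 * h) + 2)) ∧
    ¬ InQ b (2 * h) x y ∧ lcol b (2 * h) cl x y = true := by
  classical
  unfold Wl
  rw [mem_image]
  constructor
  · rintro ⟨⟨x', y'⟩, h1, h2⟩
    have h3 := lt_inj h2
    rw [Prod.mk.injEq] at h3
    obtain ⟨rfl, rfl⟩ := h3
    rw [mem_filter, mem_product, mem_Icc, mem_Icc] at h1
    exact h1
  · rintro ⟨h1, h2⟩
    exact ⟨(x, y), by rw [mem_filter, mem_product, mem_Icc, mem_Icc]; exact ⟨h1, h2⟩, rfl⟩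

lemma mem_AZW (hn : (0 : ℤ) < 2 * h) {x y : ℤ} : lt (x, y) ∈ (AZ b h base o M sl v).W ↔
    (lt (x, y) ∈ Wl b (2 * h) (colM base M (some v.2))) ∨
    (InP b h x y ∧ Xor (o = true) (slF sl x y)) := by
  classical
  unfold AZ
  simp only [mem_union, mem_filter, mem_Bh hn, tt_lt]
  constructor
  · rintro (h | h)
    · exact Or.inl h
    · exact Or.inr h.2
  · rintro (h | h)
    · exact Or.inl h
    · exact Or.inr ⟨h.1.1, h⟩

lemma mem_ACW (hn : (0 : ℤ) < 2 * h) {c : ℤ → ℤ → ℤ × ℤ} {x y : ℤ} :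
    lt (x, y) ∈ (AC b h base o M sl c xs Yd).W ↔
    (lt (x, y) ∈ Wl b (2 * h) (colM base M (some Yd))) ∨
    (InQ b (2 * h) x y ∧ InP b h (c x y).1 (c x y).2 ∧
      Xor (o = true) (Xor (slF sl (c x y).1 (c x y).2) (c x y ≠ (x, y)))) := by
  classical
  unfold AC
  simp only [mem_union, mem_filter, mem_Bh hn, tt_lt]

lemma up_lt (x y : ℤ) : Pool.Agent.H13.W.up (lt (x, y)) = lt (x, y + 1) := by
  unfold Pool.Agent.H13.W.up lt; simp only [Prod.mk.injEq]; constructor <;> ring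

lemma mem_S {x y : ℤ} : lt (x, y) ∈ S v xs Yd ↔ xs ≤ x ∧ Yd ≤ y ∧ y < v.2 := by
  unfold S
  rw [Set.mem_ofPred_eq, cx_lt, cy_lt]

lemma mem_D {x y : ℤ} : lt (x, y) ∈ (AZ b h base o M sl v).D ↔ (y = v.2 ∧ v.1 ≤ x) ∨ slR sl x y := by
  unfold AZ
  simp only [Set.mem_ofPred_eq]
  constructor
  · rintro ⟨x', y', h1, h2⟩
    have h3 := lt_inj h1
    rw [Prod.mk.injEq] at h3
    rw [h3.1, h3.2]; exact h2
  · exact fun h => ⟨x, y, rfl, h⟩

lemma mem_DC {c : ℤ → ℤ → ℤ × ℤ} {x y : ℤ} : lt (x, y) ∈ (AC b h base o M sl c xs Yd).D ↔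
    (y = Yd ∧ xs ≤ x) ∨ slR sl x y := by
  unfold AC
  simp only [Set.mem_ofPred_eq]
  constructor
  · rintro ⟨x', y', h1, h2⟩
    have h3 := lt_inj h1
    rw [Prod.mk.injEq] at h3
    rw [h3.1, h3.2]; exact h2
  · exact fun h => ⟨x, y, rfl, h⟩

/-- **The content of the place of a moved tile is the tile.** -/
lemma cnt (G : UpG b h M sl v xs Yd Bl) {x y : ℤ} (hB : lt (x, y) ∉ Bl)
    (hD : lt (x, y) ∉ (AZ b h base o M sl v).D) : ∃ x' y', mv (S v xs Yd) (lt (x, y)) = lt (x', y') ∧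
    ((cU xs Yd x' y' = (x, y) ∧ (lt (x, y) ∈ S v xs Yd ↔ cU xs Yd x' y' ≠ (x', y')) ∧
      (lt (x, y) ∉ S v xs Yd → x' = x ∧ y' = y) ∧ (lt (x, y) ∈ S v xs Yd → x' = x ∧ y' = y + 1)) ∨
      (x' = x ∧ y' = y ∧ lt (x, y) ∉ S v xs Yd ∧ pla b h x y = none ∧
        pla b h (cU xs Yd x y).1 (cU xs Yd x y).2 = none)) := by
  by_cases hS : lt (x, y) ∈ S v xs Yd
  · refine ⟨x, y + 1, by rw [mv_in hS, up_lt], Or.inl ?_⟩
    have h1 := mem_S.1 hS
    have h2 : cU xs Yd x (y + 1) = (x, y) := by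
      unfold cU
      rw [if_pos ⟨h1.1, by omega⟩]
      simp
    refine ⟨h2, ?_, fun h => absurd hS h, fun _ => ⟨rfl, rfl⟩⟩
    rw [h2]
    refine ⟨fun _ h => ?_, fun _ => hS⟩
    rw [Prod.mk.injEq] at h
    omega
  · refine ⟨x, y, mv_out hS, ?_⟩
    by_cases hc : xs ≤ x ∧ Yd < y
    · right
      have h1 : v.2 ≤ y := by
        by_contra h2
        exact hS (mem_S.2 ⟨hc.1, by omega, by omega⟩)
      have h2 : v.2 < y := by
        rcases eq_or_lt_of_le h1 with h3 | h3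
        · exfalso
          apply hD
          rw [mem_D]
          refine Or.inl ⟨h3.symm, ?_⟩
          by_contra h4
          exact hB (G.bl x y (by omega) h3.symm.le (by omega) (by omega))
        · exact h3
      refine ⟨rfl, rfl, hS, ?_, ?_⟩
      · by_contra h3
        have := G.pl x y hc.1 h3
        omega
      · have h4 : cU xs Yd x y = (x, y - 1) := by unfold cU; rw [if_pos hc]
        rw [h4]
        by_contra h3
        have := G.pl x (y - 1) hc.1 h3
        omega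
    · left
      have h2 : cU xs Yd x y = (x, y) := by unfold cU; rw [if_neg hc]
      exact ⟨h2, ⟨fun h => absurd h hS, fun h => absurd h2 h⟩, fun _ => ⟨rfl, rfl⟩, fun h => absurd h hS⟩

/-- the place of a moved tile of the box is in the box -/
lemma inQ_mv (G : UpG b h M sl v xs Yd Bl) {x y x' y' : ℤ} (hq : InQ b (2 * h) x y)
    (hm : mv (S v xs Yd) (lt (x, y)) = lt (x', y')) : InQ b (2 * h) x' y' := by
  by_cases hS : lt (x, y) ∈ S v xs Yd
  · rw [mv_in hS, up_lt] at hm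
    have h1 := lt_inj hm
    rw [Prod.mk.injEq] at h1
    have h2 := mem_S.1 hS
    obtain ⟨h3, h4⟩ := InQ_cols G.n0 G.st hq
    rw [← h1.1, ← h1.2]
    have h5 := G.lo
    have h6 := G.hi
    exact InQ_core G.n0 h3 h4 (by omega) (by omega)
  · rw [mv_out hS] at hm
    have h1 := lt_inj hm
    rw [Prod.mk.injEq] at h1
    rw [← h1.1, ← h1.2]
    exact hq

lemma mem_O1 (hn : (0 : ℤ) < 2 * h) {e : ℤ × ℤ} : e ∈ O1 b h base o M sl v Bl ↔ ∃ x y, e = lt (x, y) ∧
    InQ b (2 * h) x y ∧ ¬ InP b h x y ∧ lt (x, y) ∉ Bl ∧ lt (x, y) ∉ (AZ b h base o M sl v).D := by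
  classical
  unfold O1
  rw [mem_filter]
  constructor
  · rintro ⟨h1, h2, h3⟩
    have h4 : e ∈ b.B h := by
      unfold AZ at h1
      exact (mem_filter.1 h1).1
    obtain ⟨x, y, rfl, h5⟩ := of_Bh hn h4
    exact ⟨x, y, rfl, h5, ((mem_AZE hn).1 h1).2, h2, h3⟩
  · rintro ⟨x, y, rfl, h1, h2, h3, h4⟩
    exact ⟨(mem_AZE hn).2 ⟨h1, h2⟩, h3, h4⟩

lemma ACb {c : ℤ → ℤ → ℤ × ℤ} {x y : ℤ} : (AC b h base o M sl c xs Yd).b (lt (x, y)) =
    match pla b h (c x y).1 (c x y).2 with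
    | none => Sum.inl (lt (x, y))
    | some k => Sum.inr k := by
  unfold AC
  simp only [tt_lt]
  rfl

lemma AZb {x y : ℤ} : (AZ b h base o M sl v).b (lt (x, y)) =
    match pla b h x y with
    | none => Sum.inl (lt (x, y))
    | some k => Sum.inr k := by
  show bk (2 * (h : ℤ)) (chn 0 b.M b.τ) (lt (x, y)) = _
  unfold pla
  rcases h1 : chn 0 b.M b.τ (x / (2 * h), y / (2 * h)) with _ | k
  · rw [bk_none (by rw [tt_lt]; exact h1)]
  · rw [bk_some (by rw [tt_lt]; exact h1)]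

/-- **Bookkeeping of the labels.** -/
theorem lm (G : UpG b h M sl v xs Yd Bl) : LMove (AZ b h base o M sl v) (AU b h base o M sl xs Yd)
    (mv (S v xs Yd)) (S v xs Yd) (O1 b h base o M sl v Bl)
    ((O1 b h base o M sl v Bl).image (mv (S v xs Yd))) := by
  classical
  have hn := G.n0
  have key : ∀ e ∈ O1 b h base o M sl v Bl, ∃ x y x' y', e = lt (x, y) ∧
      mv (S v xs Yd) (lt (x, y)) = lt (x', y') ∧ InQ b (2 * h) x y ∧ ¬ InP b h x y ∧
      InQ b (2 * h) x' y' ∧ ((cU xs Yd x' y' = (x, y) ∧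
        (lt (x, y) ∈ S v xs Yd ↔ cU xs Yd x' y' ≠ (x', y'))) ∨
      (pla b h x y = none ∧ pla b h (cU xs Yd x' y').1 (cU xs Yd x' y').2 = none)) := by
    intro e he
    obtain ⟨x, y, rfl, h1, h2, h3, h4⟩ := (mem_O1 hn).1 he
    obtain ⟨x', y', h5, h6⟩ := G.cnt h3 h4
    refine ⟨x, y, x', y', rfl, h5, h1, h2, G.inQ_mv h1 h5, ?_⟩
    rcases h6 with h6 | h6
    · exact Or.inl ⟨h6.1, h6.2.1⟩
    · obtain ⟨rfl, rfl, -, h7, h8⟩ := h6
      exact Or.inr ⟨h7, h8⟩
  have kb : ∀ x y x' y', ((cU xs Yd x' y' = (x, y)) ∨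
      (pla b h x y = none ∧ pla b h (cU xs Yd x' y').1 (cU xs Yd x' y').2 = none)) →
      (AU b h base o M sl xs Yd).b (lt (x', y')) = match pla b h x y with
      | none => Sum.inl (lt (x', y'))
      | some k => Sum.inr k := by
    intro x y x' y' h1
    unfold AU
    rw [ACb]
    rcases h1 with h1 | ⟨h1, h2⟩
    · rw [h1]
    · rw [h1, h2]
  have inj : Set.InjOn (mv (S v xs Yd)) (O1 b h base o M sl v Bl : Set (ℤ × ℤ)) := by
    intro e he e' he' hh
    obtain ⟨x, y, rfl, h1, h2, h3, h4⟩ := (mem_O1 hn).1 (mem_coe.1 he)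
    obtain ⟨x', y', rfl, h1', h2', h3', h4'⟩ := (mem_O1 hn).1 (mem_coe.1 he')
    exact (G.strip (base := base) (o := o)).mv_inj ⟨x, y, rfl, Or.inl h1⟩ h3 h4
      ⟨x', y', rfl, Or.inl h1'⟩ h3' h4' hh
  have nfl : ∀ e ∈ O1 b h base o M sl v Bl, ∀ x y, e = lt (x, y) → pla b h x y ≠ none →
      e ∉ fl (AZ b h base o M sl v) (AU b h base o M sl xs Yd) (mv (S v xs Yd)) (S v xs Yd)
        (O1 b h base o M sl v Bl) := by
    intro e he x y hxy hp hf
    obtain ⟨x1, y1, x', y', h1, h2, h3, h4, h5, h6⟩ := key e he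
    have h7 := lt_inj (hxy.symm.trans h1)
    rw [Prod.mk.injEq] at h7
    obtain ⟨rfl, rfl⟩ := h7
    subst hxy
    unfold fl at hf
    have hf2 := (mem_filter.1 hf).2
    rw [h2] at hf2
    unfold AU at hf2
    rw [mem_AZF hn, mem_ACF hn] at hf2
    rcases h6 with ⟨h6, h8⟩ | ⟨h6, -⟩
    · rw [h8, h6] at hf2
      by_cases a1 : (x, y) ≠ (x', y') <;> by_cases a2 : slF sl x y <;>
        simp [a1, a2, h3, h4, h5, hp, Xor] at hf2
    · exact hp h6
  refine ⟨filter_subset _ _, ?_, rfl, inj, ?_, ?_, ?_, ?_⟩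
  · intro f hf
    obtain ⟨e, he, rfl⟩ := mem_image.1 hf
    obtain ⟨x, y, x', y', rfl, h2, h3, h4, h5, h6⟩ := key e he
    rw [h2]
    unfold AU
    rw [mem_ACE hn]
    refine ⟨h5, ?_⟩
    rcases h6 with ⟨h6, -⟩ | ⟨-, h6⟩
    · rw [h6]; exact h4
    · rintro ⟨-, i, -, h7⟩
      rw [h6] at h7
      exact absurd h7 (by simp)
  · intro l hl l' hl'
    obtain ⟨x, y, x', y', rfl, h2, h3, h4, h5, h6⟩ := key l hl
    obtain ⟨X, Y, X', Y', rfl, H2, H3, H4, H5, H6⟩ := key l' hl'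
    rw [h2, H2, kb x y x' y' (h6.imp And.left id), kb X Y X' Y' (H6.imp And.left id), AZb, AZb]
    have hij : lt (x, y) = lt (X, Y) ↔ lt (x', y') = lt (X', Y') := by
      rw [← h2, ← H2]
      exact ⟨fun h => by rw [h], fun h => inj (mem_coe.2 hl) (mem_coe.2 hl') h⟩
    rcases p1 : pla b h x y with _ | k <;> rcases p2 : pla b h X Y with _ | k'
    · simp only [Sum.inl.injEq]; exact hij
    · simp
    · simp
    · simp
  · intro l hl l' hl' hb hf
    obtain ⟨x, y, x', y', rfl, h2, h3, h4, h5, h6⟩ := key l hl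
    obtain ⟨X, Y, X', Y', rfl, H2, H3, H4, H5, H6⟩ := key l' hl'
    rcases p1 : pla b h x y with _ | k
    · rw [AZb, AZb, p1] at hb
      rcases p2 : pla b h X Y with _ | k'
      · rw [p2] at hb
        simp only [Sum.inl.injEq] at hb
        rw [← hb]; exact hf
      · rw [p2] at hb
        exact absurd hb (by simp)
    · exact absurd hf (nfl _ hl x y rfl (by rw [p1]; simp))
  · intro l hl hw
    obtain ⟨x, y, rfl, h1, h2, -, -⟩ := (mem_O1 hn).1 hl
    rcases (mem_AZW hn).1 hw with h3 | h3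
    · exact (mem_Wl.1 h3).2.1 h1
    · exact h2 h3.1
  · intro f hf hw
    obtain ⟨e, he, rfl⟩ := mem_image.1 hf
    obtain ⟨x, y, x', y', rfl, h2, h3, h4, h5, h6⟩ := key e he
    rw [h2] at hw
    unfold AU at hw
    rcases (mem_ACW hn).1 hw with h7 | h7
    · exact (mem_Wl.1 h7).2.1 h5
    · rcases h6 with ⟨h6, -⟩ | ⟨-, h6⟩
      · rw [h6] at h7; exact h4 h7.2.1
      · obtain ⟨-, i, -, h8⟩ := h7.2.1
        rw [h6] at h8
        exact absurd h8 (by simp)

/-- state of a deterministic label -/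
lemma _root_.Pool.Agent.H82.W.WD.st_det {β : Type*} {A : WD β} {ω : Finset (ℤ × ℤ)} {l : ℤ × ℤ}
    (hF : A.F ⊆ A.E) (hω : ω ⊆ A.E) (h : l ∉ A.E) : l ∈ A.st ω ↔ l ∈ A.W :=
  WD.mem_st' (fun h' => h (hω h')) (fun h' => h (hF h'))

lemma AZ_FE : (AZ b h base o M sl v).F ⊆ (AZ b h base o M sl v).E := by
  classical
  intro e he
  unfold AZ at he ⊢
  simp only [mem_filter] at he ⊢
  exact ⟨he.1, he.2.1⟩

lemma AC_FE {c : ℤ → ℤ → ℤ × ℤ} : (AC b h base o M sl c xs Yd).F ⊆ (AC b h base o M sl c xs Yd).E := by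
  classical
  intro e he
  unfold AC at he ⊢
  simp only [mem_filter] at he ⊢
  exact ⟨he.1, he.2.1⟩

/-- a layer tile in the rows of the core is in the range -/
lemma rng (G : UpG b h M sl v xs Yd Bl) {x y : ℤ} (h1 : lt (x, y) ∈ Lam b (2 * h) M)
    (h2 : Yd ≤ y) (h3 : y ≤ v.2) :
    (-(b.X * (2 * h) : ℤ) - 3 ≤ x ∧ x ≤ b.X * (2 * h) + 2) ∧
      (-((b.H + b.K) * (2 * h) : ℤ) - 3 ≤ y ∧ y ≤ (b.H + b.K) * (2 * h) + 2) := by
  have hn := G.n0
  have hX : ∃ i : ℤ, |i| ≤ 3 ∧ -(b.X * (2 * h) : ℤ) ≤ x + i ∧ x + i < b.X * (2 * h) := by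
    obtain ⟨x1, y1, h5, h6⟩ := h1
    have h7 := lt_inj h5
    rw [Prod.mk.injEq] at h7
    rcases h6 with h6 | ⟨⟨-, i, j, hi, -, hq⟩, -⟩
    · exact ⟨0, by norm_num, by rw [add_zero, h7.1]; exact InQ_cols hn G.st h6⟩
    · exact ⟨i, hi, by rw [h7.1]; exact InQ_cols hn G.st hq⟩
  obtain ⟨i, hi, hx1, hx2⟩ := hX
  rw [abs_le] at hi
  have h5 := G.lo
  have h6 := G.hi
  have h7 : (0 : ℤ) ≤ b.K * (2 * h) := by positivity
  refine ⟨⟨by omega, by omega⟩, ?_, ?_⟩ <;> nlinarith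

/-- **The two worlds for corresponding configurations.** -/
theorem moved (G : UpG b h M sl v xs Yd Bl) {ω1 ω2 : Finset (ℤ × ℤ)}
    (hC : Cor (AZ b h base o M sl v) (AU b h base o M sl xs Yd) (mv (S v xs Yd)) (S v xs Yd)
      (O1 b h base o M sl v Bl) ((O1 b h base o M sl v Bl).image (mv (S v xs Yd))) ω1 ω2) :
    Moved (AZ b h base o M sl v).Λ (AU b h base o M sl xs Yd).Λ (AZ b h base o M sl v).D
      (AU b h base o M sl xs Yd).D ((AZ b h base o M sl v).st ω1) ((AU b h base o M sl xs Yd).st ω2)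
      Bl (S v xs Yd) := by
  classical
  have hn := G.n0
  have h_lo := G.lo
  have h_hi := G.hi
  have h_yv := G.yv
  have hC1 := hC.1
  have hC2 : ω2 ⊆ (AC b h base o M sl (cU xs Yd) xs Yd).E := hC.2.1
  have hst := fun {l : ℤ × ℤ} (hl : l ∈ O1 b h base o M sl v Bl) => G.lm.state hC hl
  refine ⟨?_, ?_, ?_, ?_⟩
  · -- plain tiles
    rintro e ⟨x, y, rfl, hq⟩ hB hS hD
    have hL : lt (x, y) ∈ Lam b (2 * h) M := ⟨x, y, rfl, hq⟩
    have hD2 : lt (x, y) ∉ (AU b h base o M sl xs Yd).D := by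
      unfold AU
      rw [mem_DC]
      rintro (⟨h1, h2⟩ | h1)
      · rcases eq_or_lt_of_le h_yv with h3 | h3
        · apply hD
          rw [mem_D]
          refine Or.inl ⟨h1.trans h3, ?_⟩
          by_contra h4
          exact hB (G.bl x y (by omega) (by omega) (by omega) (by omega))
        · exact hS (mem_S.2 ⟨h2, by omega, by omega⟩)
      · exact hD (mem_D.2 (Or.inr h1))
    refine ⟨hL, hD2, ?_⟩
    obtain ⟨x', y', h5, h6⟩ := G.cnt hB hD
    rw [mv_out hS] at h5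
    have h7 := lt_inj h5
    rw [Prod.mk.injEq] at h7
    obtain ⟨rfl, rfl⟩ := h7
    by_cases hQ : InQ b (2 * h) x y
    · by_cases hP : InP b h x y
      · -- chunk
        have h8 : cU xs Yd x y = (x, y) := by
          rcases h6 with h6 | ⟨-, -, -, h6, -⟩
          · exact h6.1
          · obtain ⟨-, i, -, h9⟩ := hP
            rw [h6] at h9
            exact absurd h9 (by simp)
        unfold AU
        rw [WD.st_det AC_FE hC2 (by rw [mem_ACE hn, h8]; exact fun h => h.2 hP),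
          WD.st_det AZ_FE hC1 (by rw [mem_AZE hn]; exact fun h => h.2 hP), mem_ACW hn, mem_AZW hn,
          mem_Wl, mem_Wl, h8]
        simp [hQ, hP, Xor]
      · have hO : lt (x, y) ∈ O1 b h base o M sl v Bl := (mem_O1 hn).2 ⟨x, y, rfl, hQ, hP, hB, hD⟩
        have h9 := hst hO
        rw [mv_out hS] at h9
        rw [h9]
        simp [hS, Xor]
    · unfold AU
      rw [WD.st_det AC_FE hC2 (by rw [mem_ACE hn]; exact fun h => hQ h.1),
        WD.st_det AZ_FE hC1 (by rw [mem_AZE hn]; exact fun h => hQ h.1), mem_ACW hn, mem_AZW hn]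
      have h8 : ¬ InP b h x y := fun h => hQ h.1
      simp only [hQ, h8, false_and, or_false]
      rw [mem_Wl, mem_Wl]
      have hcol : lcol b (2 * h) (colM base M (some Yd)) x y =
          lcol b (2 * h) (colM base M (some v.2)) x y := by
        unfold lcol
        by_cases hx : b.X * (2 * h) ≤ x
        · rw [if_pos hx, if_pos hx]
          unfold colM
          simp only
          have h9 : (y < Yd) ↔ (y < v.2) := by
            constructor
            · intro h; omega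
            · intro h
              by_contra hc
              exact hS (mem_S.2 ⟨G.xr.trans hx, by omega, h⟩)
          simp only [h9]
        · rw [if_neg hx, if_neg hx]
          rfl
      rw [hcol]
  · -- strip tiles
    rintro e ⟨x, y, rfl, hq⟩ hB hS
    have hL : lt (x, y) ∈ Lam b (2 * h) M := ⟨x, y, rfl, hq⟩
    have hS' := mem_S.1 hS
    have hD : lt (x, y) ∉ (AZ b h base o M sl v).D := by
      rw [mem_D]
      rintro (⟨h1, -⟩ | ⟨t, ht, h1, -⟩)
      · omega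
      · have := G.sl t ht; omega
    have hL2 : lt (x, y + 1) ∈ Lam b (2 * h) M := G.row hL (Or.inl (by omega)) (by omega)
    rw [up_lt]
    refine ⟨hL2, ?_, ?_⟩
    · unfold AU
      rw [mem_DC]
      rintro (⟨h1, -⟩ | ⟨t, ht, h1, -⟩)
      · omega
      · have := G.sl t ht; omega
    · have h8 : cU xs Yd x (y + 1) = (x, y) := by
        unfold cU
        rw [if_pos ⟨hS'.1, by omega⟩]
        simp
      by_cases hQ : InQ b (2 * h) x y
      · have hQ2 : InQ b (2 * h) x (y + 1) := by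
          obtain ⟨h3, h4⟩ := InQ_cols hn G.st hQ
          exact InQ_core hn h3 h4 (by omega) (by omega)
        by_cases hP : InP b h x y
        · unfold AU
          rw [WD.st_det AC_FE hC2 (by rw [mem_ACE hn, h8]; exact fun h => h.2 hP),
            WD.st_det AZ_FE hC1 (by rw [mem_AZE hn]; exact fun h => h.2 hP), mem_ACW hn, mem_AZW hn,
            mem_Wl, mem_Wl, h8]
          have h9 : (x, y) ≠ (x, y + 1) := fun h => by rw [Prod.mk.injEq] at h; omega
          by_cases a1 : o = true <;> by_cases a2 : slF sl x y <;>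
            simp [hQ, hQ2, hP, Xor, h9, a1, a2]
        · have hO : lt (x, y) ∈ O1 b h base o M sl v Bl := (mem_O1 hn).2 ⟨x, y, rfl, hQ, hP, hB, hD⟩
          have h9 := hst hO
          rw [mv_in hS, up_lt] at h9
          rw [h9]
          simp [hS, Xor]
      · have hx : b.X * (2 * h) ≤ x := by
          by_contra hc
          exact hQ (InQ_core hn (G.xl.trans hS'.1) (by omega) (by omega) (by omega))
        have hQ2 : ¬ InQ b (2 * h) x (y + 1) := fun h => by
          have := (InQ_cols hn G.st h).2; omega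
        unfold AU
        rw [WD.st_det AC_FE hC2 (by rw [mem_ACE hn]; exact fun h => hQ2 h.1),
          WD.st_det AZ_FE hC1 (by rw [mem_AZE hn]; exact fun h => hQ h.1), mem_ACW hn, mem_AZW hn]
        have h9 : ¬ InP b h x y := fun h => hQ h.1
        simp only [hQ2, h9, false_and, or_false]
        rw [mem_Wl, mem_Wl]
        have r1 := G.rng hL (by omega) (by omega)
        have r2 := G.rng hL2 (by omega) (by omega)
        simp only [r1, r2, hQ, hQ2, true_and, not_false_eq_true]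
        unfold lcol
        rw [if_pos hx, if_pos hx]
        unfold colM
        simp only
        have h10 : ¬ (y + 1 < Yd) := by omega
        have h11 : y < v.2 := hS'.2.2
        rw [decide_eq_false h10, decide_eq_true h11]
        simp
  · -- deleted tiles which stay
    rintro e he hB hD hS
    obtain ⟨x, y, rfl, hq⟩ := he
    refine ⟨⟨x, y, rfl, hq⟩, ?_⟩
    unfold AU
    rw [mem_DC]
    rcases mem_D.1 hD with ⟨h1, h2⟩ | h1
    · left
      have h3 : xs ≤ x := by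
        by_contra hc
        exact hB (G.bl x y (by omega) (by omega) (by omega) (by omega))
      refine ⟨?_, h3⟩
      by_contra hc
      apply hS
      have : dn (lt (x, y)) = lt (x, y - 1) := by
        unfold dn lt; simp only [Prod.mk.injEq]; constructor <;> ring
      rw [this]
      exact mem_S.2 ⟨h3, by omega, by omega⟩
    · exact Or.inr h1
  · -- bottom tiles
    rintro e he hB hS h1 h2 h3
    obtain ⟨x, y, rfl, hq⟩ := he
    refine ⟨⟨x, y, rfl, hq⟩, ?_⟩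
    unfold AU
    rw [mem_DC]
    left
    have hS' := mem_S.1 hS
    refine ⟨?_, hS'.1⟩
    by_contra hc
    apply h3
    have : dn (lt (x, y)) = lt (x, y - 1) := by
      unfold dn lt; simp only [Prod.mk.injEq]; constructor <;> ring
    rw [this]
    exact mem_S.2 ⟨hS'.1, by omega, by omega⟩

/-- **13's strip move for corresponding configurations.** -/
theorem move (G : UpG b h M sl v xs Yd Bl) {ω1 ω2 : Finset (ℤ × ℤ)}
    (hC : Cor (AZ b h base o M sl v) (AU b h base o M sl xs Yd) (mv (S v xs Yd)) (S v xs Yd)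
      (O1 b h base o M sl v Bl) ((O1 b h base o M sl v Bl).image (mv (S v xs Yd))) ω1 ω2) :
    StripMove (AZ b h base o M sl v).Λ (AU b h base o M sl xs Yd).Λ (AZ b h base o M sl v).D
      (AU b h base o M sl xs Yd).D ((AZ b h base o M sl v).st ω1) ((AU b h base o M sl xs Yd).st ω2)
      Bl (S v xs Yd) :=
  G.strip.move (G.moved hC)

/-- **The field `simu` of `Half`.** -/
theorem simu (G : UpG b h M sl v xs Yd Bl) {ω1 ω2 : Finset (ℤ × ℤ)}
    (hC : Cor (AZ b h base o M sl v) (AU b h base o M sl xs Yd) (mv (S v xs Yd)) (S v xs Yd)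
      (O1 b h base o M sl v Bl) ((O1 b h base o M sl v Bl).image (mv (S v xs Yd))) ω1 ω2) :
    ∃ G1o, Simu ((AZ b h base o M sl v).G ω1) G1o (KB Bl) ((AU b h base o M sl xs Yd).G ω2)
      (SR (AZ b h base o M sl v).Λ (AZ b h base o M sl v).D Bl (S v xs Yd)) :=
  ⟨_, (G.move hC).simu⟩

end UpG

end Pool.Agent.H82.W
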