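import Mathlib
import Pool.Agent.H82.W.VTop

set_option autoImplicit false
set_option linter.unusedVariables false
open Finset

/-! # StChd, V10: final assembly, part 2 -/

namespace Pool.Agent.H82.W

open Pool.Agent.H33.Q1 (lt tt ct lt_odd tt_lt lt_tt lt_inj)
open Pool.Agent.H75.Perc hiding WL CT hh PB
open Pool.Agent.H75.TwoArm
open Pool.Agent.H21.FM (Shape)
open Pool.Agent.Q1.M4 (Cell)
open Pool.Agent.H55.W Pool.Agent.H99.W Pool.Agent.H78.W Pool.Agent.H51.W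
open Pool.Agent.H19.W (cx cy cx_lt cy_lt lt_cc cx_up cy_up cx_dn cy_dn odd_up odd_dn)
open Pool.Agent.H13.W (SG SR up dn KB eW Sd of_side Dn SD mvd up_lt' chG)
open Pool.Agent.H45.W (SRd)
open Pool.Agent.H58.W (PB PB_congr)
open Pool.Agent.H92.W (OutC)
open Pool.Agent.H35.W.VO (FcU FcL Num po_le)
open Pool.Agent.H35.W (Force)
open Pool.Agent.H5.C3 (Gen)
open Pool.Agent.H74.W
open Filter Metric

/-- **Numbers of one scale** (tiles). -/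
structure Nm (b X : ℤ) (z0 : ℂ) (σ : ℝ) (k : ℕ × ℕ) (h s r : ℕ) (A : ℤ) : Prop where
  hh : 2 ≤ h
  ms : 4 * (2 * h * k.2 : ℤ) ≤ s
  sr : s ≤ r
  hA0 : 0 ≤ A
  hA : 2 * A + 8 ≤ 18 * s
  wl : 2 * h * ((k.1 * k.2 : ℕ) : ℤ) * X + 20 * r ≤ 2 * h * k.2 * k0 z0 σ k.1
  wr : 2 * h * k.2 * k0 z0 σ k.1 + 20 * r ≤ 2 * h * ((k.1 * k.2 : ℕ) : ℤ) * (X + 1)
  wH : 20 * (r : ℤ) ≤ 2 * h * ((3 * (k.1 * k.2) / 4 : ℕ) : ℤ)
  th : 64 * (2 * h * (k.1 * (b - X))) + 128 * h ≤ (2 * h * k.2 : ℤ)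

/-- **Position of an end.** -/
structure Np (b X Y : ℤ) (z0 : ℂ) (σ : ℝ) (k : ℕ × ℕ) (h : ℕ) (A : ℤ) (p : ℤ × ℤ) : Prop where
  x1 : 2 * h * k.2 * k0 z0 σ k.1 - A ≤ p.1
  x2 : p.1 + 2 < 2 * h * k.2 * k0 z0 σ k.1
  y1 : |p.2 - 2 * h * ((k.1 * k.2 : ℕ) : ℤ) * Y| ≤ A - 4
  y2 : 2 * h * (k.1 * (b - X)) + 4 * h + 4 ≤ |p.2 - 2 * h * ((k.1 * k.2 : ℕ) : ℤ) * Y|

section one
variable {b X Y : ℤ} {z0 : ℂ} {sg : Bool} {σ : ℝ} {k : ℕ × ℕ} {h s r : ℕ} {A : ℤ} {G : Pic (ℤ × ℤ)}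
  {p : ℤ × ℤ} {y yW : Fin 3 → ℤ × ℤ}

lemma pwin_of (P : PicOk b z0 X Y sg σ k h G) (N : Nm b X z0 σ k h s r A) : PWin G (2 * (h : ℤ) * ((k.1 * k.2 : ℕ) : ℤ) * X) (2 * (h : ℤ) * ((3 * (k.1 * k.2) / 4 : ℕ) : ℤ)) r := by
  have hG := P.ok
  have hm := hG.hm
  refine ⟨by rw [P.h_eq]; exact N.hh, ?_, ?_, N.wH, ?_⟩
  · rw [P.xs_eq]; exact N.wl
  · rw [P.xs_eq]; exact N.wr.trans P.xe_ge
  · have e1 : (2 * (h : ℤ) * ((k.1 * k.2 : ℕ) : ℤ) * X) / G.m = k.1 * X := by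
      have : (2 * (h : ℤ) * ((k.1 * k.2 : ℕ) : ℤ) * X) = G.m * (k.1 * X) := by rw [P.m_eq]; push_cast; ring
      rw [this, Int.mul_ediv_cancel_left _ hm.ne']
    rw [e1, P.h_eq, P.B_eq, P.m_eq]
    have := N.th
    have e2 : (k.1 : ℤ) * b - k.1 * X = k.1 * (b - X) := by ring
    rw [e2]
    exact this

/-- plates right of `xs` -/
lemma T_le (P : PicOk b z0 X Y sg σ k h G) {x : ℤ} (hx : (2 * (h : ℤ) * ((k.1 * k.2 : ℕ) : ℤ) * X) ≤ x) :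
    G.T x ≤ 2 * h * (k.1 * (b - X)) := by
  have hm := P.ok.hm
  have h1 : (k.1 : ℤ) * X ≤ x / G.m := by
    rw [Int.le_ediv_iff_mul_le hm, P.m_eq]
    refine le_trans (le_of_eq ?_) hx
    push_cast; ring
  unfold Pic.T
  rw [P.h_eq, P.B_eq]
  have h2 : (k.1 : ℤ) * b - x / G.m ≤ k.1 * (b - X) := by
    have : (k.1 : ℤ) * (b - X) = k.1 * b - k.1 * X := by ring
    linarith
  exact mul_le_mul_of_nonneg_left h2 (by positivity)

lemma pos_up (P : PicOk b z0 X Y sg σ k h G) (N : Nm b X z0 σ k h s r A)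
    (hp : Np b X Y z0 σ k h A p) {dl : ℤ} (d0 : 0 ≤ dl) (d1 : dl ≤ 1)
    (hs : if sg then 2 * h * ((k.1 * k.2 : ℕ) : ℤ) * Y < p.2 else p.2 < 2 * h * ((k.1 * k.2 : ℕ) : ℤ) * Y) :
    (rfl' sg (p.1, p.2 - dl)).1 = p.1 ∧
    2 * h * (k.1 * (b - X)) + 4 * h + 3 ≤ (rfl' sg (p.1, p.2 - dl)).2 - G.Yc ∧
    (rfl' sg (p.1, p.2 - dl)).2 - G.Yc ≤ A - 3 := by
  have y1 := hp.y1
  have y2 := hp.y2
  rw [P.Yc_eq]
  cases sg
  · simp only [Bool.false_eq_true, if_false] at hs ⊢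
    unfold rfl'
    simp only [Bool.false_eq_true, if_false]
    rw [abs_of_neg (by linarith)] at y1 y2
    refine ⟨trivial, by linarith, by linarith⟩
  · simp only [if_true] at hs ⊢
    unfold rfl'
    simp only [if_true]
    rw [abs_of_pos (by linarith)] at y1 y2
    refine ⟨trivial, by linarith, by linarith⟩

lemma pos_dn (P : PicOk b z0 X Y sg σ k h G) (N : Nm b X z0 σ k h s r A)
    (hp : Np b X Y z0 σ k h A p)
    (hs : if sg then p.2 < 2 * h * ((k.1 * k.2 : ℕ) : ℤ) * Y else 2 * h * ((k.1 * k.2 : ℕ) : ℤ) * Y < p.2) :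
    (rfl' sg p).1 = p.1 ∧ 2 * h * (k.1 * (b - X)) + 4 * h + 3 ≤ G.Yc - (rfl' sg p).2 ∧
    G.Yc - (rfl' sg p).2 ≤ A - 3 := by
  have y1 := hp.y1
  have y2 := hp.y2
  rw [P.Yc_eq]
  cases sg
  · simp only [Bool.false_eq_true, if_false] at hs ⊢
    unfold rfl'
    simp only [Bool.false_eq_true, if_false]
    rw [abs_of_pos (by linarith)] at y1 y2
    refine ⟨trivial, by linarith, by linarith⟩
  · simp only [if_true] at hs ⊢
    unfold rfl'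
    simp only [if_true]
    rw [abs_of_neg (by linarith)] at y1 y2
    refine ⟨trivial, by linarith, by linarith⟩

/-- **The data of the up move.** -/
theorem upD_of (P : PicOk b z0 X Y sg σ k h G) (E : EndOk G (2 * (h : ℤ) * ((k.1 * k.2 : ℕ) : ℤ) * X) (2 * (h : ℤ) * ((3 * (k.1 * k.2) / 4 : ℕ) : ℤ)) y yW) (N : Nm b X z0 σ k h s r A)
    (hp : Np b X Y z0 σ k h A p) {dl : ℤ} (d0 : 0 ≤ dl) (d1 : dl ≤ 1)
    (hs : if sg then 2 * h * ((k.1 * k.2 : ℕ) : ℤ) * Y < p.2 else p.2 < 2 * h * ((k.1 * k.2 : ℕ) : ℤ) * Y) :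
    UpD G (2 * (h : ℤ) * ((k.1 * k.2 : ℕ) : ℤ) * X) (2 * (h : ℤ) * ((3 * (k.1 * k.2) / 4 : ℕ) : ℤ)) (G.xs - A) G.xs (G.Yc - A) (G.Yc + A) A (rfl' sg (p.1, p.2 - dl)) s r y y := by
  have hG := P.ok
  have hW := pwin_of P N
  obtain ⟨q1, q2, q3⟩ := pos_up P N hp d0 d1 hs
  set q := rfl' sg (p.1, p.2 - dl) with hq
  have xs_eq := P.xs_eq
  have hh := N.hh
  have ms := N.ms
  have sr : (s : ℤ) ≤ r := by exact_mod_cast N.sr
  have hA0 := N.hA0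
  have hA := N.hA
  have wl := N.wl
  have wr := N.wr
  have wH := N.wH
  have xe_ge := P.xe_ge
  have x1 := hp.x1
  have x2 := hp.x2
  rw [← xs_eq] at wl wr x1 x2
  have hYd : G.Yd = G.Yc + h := by unfold Pic.Yd; rw [P.h_eq]
  have hT0 : 0 ≤ 2 * (h : ℤ) * (k.1 * (b - X)) := by
    have h1 := (hG.th G.xs hG.xls hG.xse).1
    have h2 := T_le P hG.xls
    have h3 := hG.h1
    linarith
  have hs0 : (0 : ℤ) < s := by linarith
  have hr1 : 2 ≤ r := by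
    have : (2 : ℤ) ≤ r := by
      have hh' : (2 : ℤ) ≤ h := by exact_mod_cast hh
      linarith
    exact_mod_cast this
  have U : VUp G (2 * (h : ℤ) * ((k.1 * k.2 : ℕ) : ℤ) * X) (2 * (h : ℤ) * ((3 * (k.1 * k.2) / 4 : ℕ) : ℤ)) (G.xs - A) G.xs (G.Yc - A) (G.Yc + A) q := by
    refine ⟨hG, by linarith, hG.xls, by linarith, by rw [q1]; exact x1, le_rfl, by rw [q1]; linarith,
      hG.xse.le, by rw [hYd]; linarith, by linarith, by linarith, by rw [hYd]; linarith, ?_, ?_⟩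
    · intro x h1 h2; linarith
    · intro x h1 h2
      have := T_le P (hG.xls.trans h1)
      linarith
  refine ⟨U, by rw [q1]; linarith, hW, ?_, N.sr, le_rfl, by linarith, le_rfl, le_rfl, hA, ?_, ?_, ?_, ?_, E.exU,
    E.unU⟩
  · rw [P.m_eq]; exact ms
  · intro i
    rcases E.far r hr1 hW i with h | h
    · left; linarith
    · right; linarith
  · exact E.up U (by linarith) (by linarith) (by linarith)
  · exact E.exN q (by rw [q1]; linarith) (by rw [q1]; linarith) (by rw [hYd]; linarith) (by linarith)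
  · exact E.unN q (by rw [q1]; linarith) (by rw [q1]; linarith) (by rw [hYd]; linarith) (by linarith)

/-- **The data of the down move.** -/
theorem dnD_of (P : PicOk b z0 X Y sg σ k h G) (E : EndOk G (2 * (h : ℤ) * ((k.1 * k.2 : ℕ) : ℤ) * X) (2 * (h : ℤ) * ((3 * (k.1 * k.2) / 4 : ℕ) : ℤ)) y yW) (N : Nm b X z0 σ k h s r A)
    (hp : Np b X Y z0 σ k h A p)
    (hs : if sg then p.2 < 2 * h * ((k.1 * k.2 : ℕ) : ℤ) * Y else 2 * h * ((k.1 * k.2 : ℕ) : ℤ) * Y < p.2) :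
    ∃ y' : Fin 3 → ℤ × ℤ, DnD G (2 * (h : ℤ) * ((k.1 * k.2 : ℕ) : ℤ) * X) (2 * (h : ℤ) * ((3 * (k.1 * k.2) / 4 : ℕ) : ℤ)) (G.xs - A) A A (rfl' sg p) s r yW y' ∧
      ∀ ω, ω ⊆ G.E \ G.Rt → ∀ i, ((G.WL.G ω).Reachable (eW (lt (G.xs, G.Yd))) (y' i) ↔
      (G.WL.G ω).Reachable (eW (lt (G.xs, G.Yd))) (y i)) := by
  have hG := P.ok
  have hW := pwin_of P N
  obtain ⟨q1, q2, q3⟩ := pos_dn P N hp hs
  set q := rfl' sg p with hq
  have xs_eq := P.xs_eq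
  have hh := N.hh
  have ms := N.ms
  have sr : (s : ℤ) ≤ r := by exact_mod_cast N.sr
  have hA0 := N.hA0
  have hA := N.hA
  have wl := N.wl
  have wr := N.wr
  have wH := N.wH
  have xe_ge := P.xe_ge
  have x1 := hp.x1
  have x2 := hp.x2
  rw [← xs_eq] at wl wr x1 x2
  have hYd : G.Yd = G.Yc + h := by unfold Pic.Yd; rw [P.h_eq]
  have hT0 : 0 ≤ 2 * (h : ℤ) * (k.1 * (b - X)) := by
    have h1 := (hG.th G.xs hG.xls hG.xse).1
    have h2 := T_le P hG.xls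
    have h3 := hG.h1
    linarith
  have hs0 : (0 : ℤ) < s := by linarith
  have hr1 : 2 ≤ r := by
    have : (2 : ℤ) ≤ r := by
      have hh' : (2 : ℤ) ≤ h := by exact_mod_cast hh
      linarith
    exact_mod_cast this
  have D : Dn G (2 * (h : ℤ) * ((k.1 * k.2 : ℕ) : ℤ) * X) (2 * (h : ℤ) * ((3 * (k.1 * k.2) / 4 : ℕ) : ℤ)) (G.xs - A) A q := by
    refine ⟨hG, by rw [P.h_eq]; exact hh, by linarith, by rw [q1]; exact x1, by rw [q1]; linarith,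
      by linarith, by linarith, by rw [hYd]; linarith, ?_⟩
    intro x h1 h2
    have := T_le P (hG.xls.trans h1)
    linarith
  obtain ⟨y', h1, h2, h3⟩ := E.dn D
  refine ⟨y', ⟨D, hW, ?_, N.sr, le_rfl, le_rfl, hA, ?_, h1, ?_, ?_, ?_, ?_⟩, h3⟩
  · rw [P.m_eq]; exact ms
  · intro i
    obtain ⟨g1, g2⟩ := h2 i
    rw [abs_le] at g1 g2
    rcases E.far r hr1 hW i with h | h
    · left
      rw [lt_abs] at h ⊢
      omega
    · right
      rw [lt_abs] at h ⊢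
      omega
  · exact E.exW q (by rw [q1]; linarith) (by rw [q1]; linarith) (by linarith) (by linarith)
  · exact E.unW q (by rw [q1]; linarith) (by rw [q1]; linarith) (by linarith) (by linarith)
  · intro ω hω
    obtain ⟨i, hi⟩ := E.exL ω hω
    exact ⟨i, (h3 ω hω i).2 hi⟩
  · intro ω hω i j hi hj
    exact E.unL ω hω i j ((h3 ω hω i).1 hi) ((h3 ω hω j).1 hj)

end one

end Pool.Agent.H82.W
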