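import Mathlib
import Pool.Agent.H82.W.VTop2
import Pool.Agent.H37.W.VEq

set_option autoImplicit false
set_option linter.unusedVariables false
open Finset

/-! # StChd, V10: final assembly, part 3: `chdAt_of`, `stChd_of2` -/

namespace Pool.Agent.H82.W

open Pool.Agent.H33.Q1 (lt tt ct lt_odd tt_lt lt_tt lt_inj)
open Pool.Agent.H75.Perc hiding WL CT hh PB
open Pool.Agent.H75.TwoArm
open Pool.Agent.H21.FM (Shape)
open Pool.Agent.Q1.M4 (Cell)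
open Pool.Agent.H55.W Pool.Agent.H99.W Pool.Agent.H78.W Pool.Agent.H51.W
open Pool.Agent.H19.W (cx cy cx_lt cy_lt lt_cc cx_up cy_up cx_dn cy_dn odd_up odd_dn)
open Pool.Agent.H13.W (SG SR up dn KB eW Sd of_side Dn SD mvd up_lt' chG SG_congr)
open Pool.Agent.H45.W (SRd)
open Pool.Agent.H58.W (PB PB_congr)
open Pool.Agent.H92.W (OutC)
open Pool.Agent.H35.W.VO (FcU FcL Num po_le)
open Pool.Agent.H35.W (Force)
open Pool.Agent.H5.C3 (Gen)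
open Pool.Agent.H74.W
open Filter Metric

/-- chord data, all functions may depend on the scale -/
def ChdAt2 (S : Shape) (b : ℤ) (z0 : ℂ) : Prop :=
  ∃ C κ r0 : ℝ, 0 < κ ∧ 0 < r0 ∧ 0 ≤ C ∧ ∀ s : ℝ, 0 < s → s < r0 →
    ∃ (hU hL : ℕ × ℕ → ℕ → ℤ × ℤ → ℂ) (gU gL : ℕ × ℕ → ℕ → ℂ),
      (∀ z1 ∈ ball z0 s, z0.im < z1.im → PR S b z1 hU ∧ PBk z1 hU gU (C * (s / r0) ^ κ)) ∧
      (∀ z1 ∈ ball z0 s, z1.im < z0.im → PR S b z1 hL ∧ PBk z1 hL gL (C * (s / r0) ^ κ)) ∧ PO gU gL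

theorem chd_at2 {S : Shape} {b : ℤ} {z0 : ℂ} (H : ChdAt2 S b z0) {ε : ℝ} (hε : 0 < ε) :
    ∃ δ > (0 : ℝ), ∀ z ∈ ball z0 δ, ∀ z' ∈ ball z0 δ, z.im < z0.im → z0.im < z'.im →
      ∃ r > (0 : ℝ), ∀ᶠ k in lK, ∀ᶠ h : ℕ in atTop, ∀ p p' : ℤ × ℤ, dist (ps k h p) z < r →
        dist (ps k h p') z' < r → ‖HF S b k h p - HF S b k h p'‖ ≤ ε := by
  obtain ⟨C, κ, r0, hκ, hr0, hC, hB⟩ := H
  obtain ⟨s, hs, hs0, hsC⟩ : ∃ s : ℝ, 0 < s ∧ s < r0 ∧ C * (s / r0) ^ κ ≤ ε / 8 := by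
    have ht : Tendsto (fun t : ℝ => C * t ^ κ) (nhds 0) (nhds 0) := by
      have h1 : ContinuousAt (fun t : ℝ => C * t ^ κ) 0 := by
        have := Real.continuousAt_rpow_const (0 : ℝ) κ (Or.inr hκ.le)
        exact continuousAt_const.mul this
      have h2 : C * (0 : ℝ) ^ κ = 0 := by rw [Real.zero_rpow hκ.ne', mul_zero]
      have h3 := h1.tendsto
      rwa [h2] at h3
    have h1 : ∀ᶠ t : ℝ in nhds 0, C * t ^ κ < ε / 8 :=
      ht.eventually (gt_mem_nhds (by positivity))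
    obtain ⟨a, ha, ha'⟩ := Metric.eventually_nhds_iff.1 h1
    set t := min (a / 2) (1 / 2) with htt
    have ht0 : 0 < t := lt_min (by positivity) (by norm_num)
    refine ⟨t * r0, by positivity, ?_, ?_⟩
    · have : t ≤ 1 / 2 := min_le_right _ _
      nlinarith
    · rw [mul_div_assoc, div_self hr0.ne', mul_one]
      refine (ha' ?_).le
      rw [Real.dist_eq, sub_zero, abs_of_pos ht0]
      have : t ≤ a / 2 := min_le_left _ _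
      linarith
  obtain ⟨hU, hL, gU, gL, bU, bL, hO⟩ := hB s hs hs0
  refine ⟨s, hs, fun z hz z' hz' h1 h2 => ?_⟩
  obtain ⟨⟨r1, hr1, e1⟩, r3, hr3, e3⟩ := bL z hz h1
  obtain ⟨⟨r2, hr2, e2⟩, r4, hr4, e4⟩ := bU z' hz' h2
  refine ⟨min (min r1 r2) (min r3 r4), by positivity, ?_⟩
  filter_upwards [e1 (ε / 8) (by positivity), e2 (ε / 8) (by positivity), e3, e4,
    hO (ε / 8) (by positivity)] with k k1 k2 k3 k4 k5
  filter_upwards [k1, k2, k3, k4, k5] with h h1 h2 h3 h4 h5 p p' hp hp'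
  have q1 := h1 p (hp.trans_le ((min_le_left _ _).trans (min_le_left _ _)))
  have q2 := h2 p' (hp'.trans_le ((min_le_left _ _).trans (min_le_right _ _)))
  have q3 := h3 p (hp.trans_le ((min_le_right _ _).trans (min_le_left _ _)))
  have q4 := h4 p' (hp'.trans_le ((min_le_right _ _).trans (min_le_right _ _)))
  have key : HF S b k h p - HF S b k h p' = (HF S b k h p - hL k h p) + (hL k h p - gL k h) -
      (gU k h - gL k h) - (hU k h p' - gU k h) - (HF S b k h p' - hU k h p') := by ring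
  rw [key]
  calc _ ≤ ‖HF S b k h p - hL k h p‖ + ‖hL k h p - gL k h‖ + ‖gU k h - gL k h‖ +
        ‖hU k h p' - gU k h‖ + ‖HF S b k h p' - hU k h p'‖ := by
        refine (norm_sub_le _ _).trans (add_le_add ?_ le_rfl)
        refine (norm_sub_le _ _).trans (add_le_add ?_ le_rfl)
        refine (norm_sub_le _ _).trans (add_le_add ?_ le_rfl)
        exact norm_add_le _ _
    _ ≤ ε := by linarith

/-- **StChd from the chord data.** -/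
theorem stChd_of2 (H : ∀ S : Shape, Gen S.P.Q → ∀ b : ℤ, (∀ c ∈ chG S.P.Q, c.1 < b) →
    ∃ F : Finset ℂ, ∀ z0 ∈ chU S.P.Q, z0 ∉ F → ChdAt2 S b z0) : StChd := by
  intro S hS b hb
  obtain ⟨F, hF⟩ := H S hS b hb
  refine ⟨F, fun z0 hz0 hF0 ε hε => ?_⟩
  obtain ⟨δ, hδ, h1⟩ := chd_at2 (hF z0 hz0 hF0) hε
  refine ⟨δ, hδ, fun z hz z' hz' _ h2 h3 => ?_⟩
  obtain ⟨r, hr, h4⟩ := h1 z hz z' hz' h2 h3
  refine ⟨r, hr, ?_⟩
  filter_upwards [h4] with k hk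
  filter_upwards [hk] with h hh p p' _ hp hp'
  exact hh p p' hp hp'

/-- **The numbers** (51). -/
def VNumP (b : ℤ) (z0 : ℂ) (X Y : ℤ) (r0 C0 : ℝ) : Prop :=
  ∀ σ : ℝ, 0 < σ → σ < r0 → ∀ z1 ∈ ball z0 σ, z1.im ≠ z0.im → ∃ ρ > (0 : ℝ), ∀ᶠ k in lK, ∀ h : ℕ, 2 ≤ h →
    ∃ (s r : ℕ) (A : ℤ), Nm b X z0 σ k h s r A ∧ 3 * (s : ℝ) / r ≤ C0 * σ ∧
      ∀ p : ℤ × ℤ, dist (ps k h p) z1 < ρ → Np b X Y z0 σ k h A p ∧
        (z0.im < z1.im → 2 * h * ((k.1 * k.2 : ℕ) : ℤ) * Y < p.2) ∧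
        (z1.im < z0.im → p.2 < 2 * h * ((k.1 * k.2 : ℕ) : ℤ) * Y)

section po
variable {κ : Type} [DecidableEq κ] {G : Pic κ} {xl H : ℤ}

/-- the start of the canonical string is an outer corner -/
lemma outC_start (hG : G.Ok xl H) : OutC (G.Λ : Set (ℤ × ℤ)) (G.DN G.xs G.Yd) (eW (lt (G.xs, G.Yd))) := by
  have h : lt (G.xs, G.Yd) ∈ G.DN G.xs G.Yd := by
    refine ⟨lt_odd _, Or.inl ⟨cy_lt _, ?_, ?_⟩⟩
    · rw [cx_lt]
    · rw [cx_lt]; exact hG.xse.le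
  unfold OutC
  rcases of_side (lt_odd (G.xs, G.Yd)) (eW (lt (G.xs, G.Yd))) (Or.inl rfl) with h1 | h1
  · rw [← h1]; exact Or.inl (Or.inr h)
  · rw [← h1]; exact Or.inr (Or.inr h)

/-- the forced canonical worlds have the same law of connections -/
lemma veq_PB (hG : G.Ok xl H) (z y : ℤ × ℤ) :
    PB G.WU.E G.WU.b (fun ω => (SG G.WU.Λ G.WU.D
        (Force (FcU G) Pool.Agent.H13.W.up (G.WU.st ω))).Reachable z y) =
      PB G.WL.E G.WL.b (fun ω => (SG G.WL.Λ G.WL.D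
        (Force (FcL G) dn (G.WL.st ω))).Reachable z y) := by
  classical
  have h := Pool.Agent.H37.W.veq hG
    (fun w => if (SG (G.Λ : Set (ℤ × ℤ)) (G.DN G.xs G.Yd) w).Reachable z y then (1 : ℂ) else 0) (by
      intro w w' hw
      have : SG (G.Λ : Set (ℤ × ℤ)) (G.DN G.xs G.Yd) w = SG (G.Λ : Set (ℤ × ℤ)) (G.DN G.xs G.Yd) w' :=
        SG_congr (fun _ _ => Iff.rfl) (fun e _ he => hw e he)
      simp only [this])
  have h1 := EB_ind G.E (bb G.plU) (fun ω => (SG (G.Λ : Set (ℤ × ℤ)) (G.DN G.xs G.Yd)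
    (Force (FcU G) Pool.Agent.H13.W.up (G.WU.st ω))).Reachable z y)
  have h2 := EB_ind (G.E \ G.Rt) (bb G.plL) (fun ω => (SG (G.Λ : Set (ℤ × ℤ)) (G.DN G.xs G.Yd)
    (Force (FcL G) dn (G.WL.st ω))).Reachable z y)
  have h3 := h1.symm.trans (Eq.trans ?_ h2)
  · exact_mod_cast h3
  · exact Eq.trans (EB_congr fun ω _ => rfl) (h.trans (EB_congr fun ω _ => rfl))

end po

lemma norm_tv (i : Fin 3) : ‖tv i‖ = 1 := by
  unfold tv Pool.Agent.H74.W.tau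
  rw [norm_pow, Complex.norm_exp]
  simp

section main
variable {S : Shape} {b X Y : ℤ} {z0 : ℂ} {sg : Bool} {dl : ℤ} {r0 C0 σ : ℝ}
  {G : ℕ × ℕ → ℕ → Pic (ℤ × ℤ)} {y yW : ℕ × ℕ → ℕ → Fin 3 → ℤ × ℤ}

/-- value of an end in the narrow room -/
noncomputable def vN (sg : Bool) (dl : ℤ) (G : ℕ × ℕ → ℕ → Pic (ℤ × ℤ)) (y : ℕ × ℕ → ℕ → Fin 3 → ℤ × ℤ)
    (k : ℕ × ℕ) (h : ℕ) (p : ℤ × ℤ) : ℂ :=
  val ((G k h).WN (rfl' sg (p.1, p.2 - dl))) (eW (lt (rfl' sg (p.1, p.2 - dl)))) (y k h) tv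

/-- value of an end in the wide room -/
noncomputable def vW (sg : Bool) (G : ℕ × ℕ → ℕ → Pic (ℤ × ℤ)) (yW : ℕ × ℕ → ℕ → Fin 3 → ℤ × ℤ)
    (k : ℕ × ℕ) (h : ℕ) (p : ℤ × ℤ) : ℂ :=
  val ((G k h).WW (rfl' sg p)) (eW (lt (rfl' sg p))) (yW k h) tv

/-- canonical values -/
noncomputable def gN (G : ℕ × ℕ → ℕ → Pic (ℤ × ℤ)) (y : ℕ × ℕ → ℕ → Fin 3 → ℤ × ℤ) (k : ℕ × ℕ) (h : ℕ) : ℂ :=
  val (G k h).WU (eW (lt ((G k h).xs, (G k h).Yd))) (y k h) tv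

noncomputable def gW (G : ℕ × ℕ → ℕ → Pic (ℤ × ℤ)) (y : ℕ × ℕ → ℕ → Fin 3 → ℤ × ℤ) (k : ℕ × ℕ) (h : ℕ) : ℂ :=
  val (G k h).WL (eW (lt ((G k h).xs, (G k h).Yd))) (y k h) tv

lemma pr_narrow (I : Inst S b z0 X Y sg dl σ G y yW) {z1 : ℂ} (hz : z1 ∈ ball z0 σ)
    (hs : if sg then z0.im < z1.im else z1.im < z0.im) : PR S b z1 (vN sg dl G y) := I.narrow z1 hz hs

lemma pr_wide (I : Inst S b z0 X Y sg dl σ G y yW) {z1 : ℂ} (hz : z1 ∈ ball z0 σ)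
    (hs : if sg then z1.im < z0.im else z0.im < z1.im) : PR S b z1 (vW sg G yW) := by
  obtain ⟨r, hr, h1⟩ := I.wide z1 hz hs
  refine ⟨r, hr, fun ε hε => ?_⟩
  filter_upwards [h1] with k hk
  filter_upwards [hk] with h hh p hp
  rw [hh p hp]
  unfold vW
  rw [sub_self, norm_zero]
  exact hε.le

end main

end Pool.Agent.H82.W
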