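import Mathlib
import Pool.Agent.H82.W.VTop3

set_option autoImplicit false
set_option linter.unusedVariables false
open Finset

/-! # StChd, V10: final assembly, part 4: `chdAt_of` -/

namespace Pool.Agent.H82.W

open Pool.Agent.H33.Q1 (lt tt ct lt_odd tt_lt lt_tt lt_inj)
open Pool.Agent.H75.Perc hiding WL CT hh PB
open Pool.Agent.H75.TwoArm
open Pool.Agent.H21.FM (Shape)
open Pool.Agent.Q1.M4 (Cell)
open Pool.Agent.H55.W Pool.Agent.H99.W Pool.Agent.H78.W Pool.Agent.H51.W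
open Pool.Agent.H19.W (cx cy cx_lt cy_lt lt_cc cx_up cy_up cx_dn cy_dn odd_up odd_dn)
open Pool.Agent.H13.W (SG SR up dn KB eW Sd of_side Dn SD mvd up_lt' chG SG_congr)
open Pool.Agent.H58.W (PB PB_congr)
open Pool.Agent.H92.W (OutC)
open Pool.Agent.H35.W.VO (FcU FcL Num po_le)
open Pool.Agent.H5.C3 (Gen)
open Pool.Agent.H74.W
open Filter Metric

variable {S : Shape} {b X Y : ℤ} {z0 : ℂ} {sg : Bool} {dl : ℤ} {r0 C0 σ : ℝ}
  {G : ℕ × ℕ → ℕ → Pic (ℤ × ℤ)} {y yW : ℕ × ℕ → ℕ → Fin 3 → ℤ × ℤ}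

/-- powers of the ratio of the scales -/
lemma pow_bd {x C σ kap κ : ℝ} (hx : 0 ≤ x) (h1 : x ≤ C * σ) (h2 : C * σ ≤ 1) (hκ : 0 < κ) (hk : κ ≤ kap) :
    x ^ kap ≤ (C * σ) ^ κ := by
  rcases eq_or_lt_of_le hx with h0 | h0
  · rw [← h0, Real.zero_rpow (by linarith)]
    exact Real.rpow_nonneg (hx.trans h1) _
  · calc x ^ kap ≤ x ^ κ := Real.rpow_le_rpow_of_exponent_ge h0 (h1.trans h2) hk
      _ ≤ _ := Real.rpow_le_rpow hx h1 hκ.le

/-- **Blocks, narrow room.** -/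
lemma pbk_narrow {kap : ℝ} (HU : ∀ {κ : Type} [DecidableEq κ] (G : Pic κ)
    (xl H xa xb ya yb A : ℤ) (p : ℤ × ℤ) (s r : ℕ) {ι : Type} [Fintype ι] (x y : ι → ℤ × ℤ),
    UpD G xl H xa xb ya yb A p s r x y → ∀ (v : ι → ℂ) (M : ℝ), 0 ≤ M → (∀ i, ‖v i‖ ≤ M) →
      ‖val (G.WN p) (eW (lt p)) x v - val G.WU (eW (lt (G.xs, G.Yd))) y v‖ ≤
        2 * M * (3 * (s : ℝ) / r) ^ kap)
    (hN : VNumP b z0 X Y r0 C0) (hY : z0.im = Y) (hσ : 0 < σ) (hσ0 : σ < r0) (h1 : C0 * σ ≤ 1) {κ : ℝ}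
    (hκ : 0 < κ) (hk : κ ≤ kap) (I : Inst S b z0 X Y sg dl σ G y yW) {z1 : ℂ} (hz : z1 ∈ ball z0 σ)
    (hs : if sg then z0.im < z1.im else z1.im < z0.im) :
    PBk z1 (vN sg dl G y) (gN G y) (2 * (C0 * σ) ^ κ) := by
  have hne : z1.im ≠ z0.im := by
    cases sg
    · simp only [Bool.false_eq_true, if_false] at hs; exact hs.ne
    · simp only [if_true] at hs; exact hs.ne'
  obtain ⟨ρ, hρ, hE⟩ := hN σ hσ hσ0 z1 hz hne
  refine ⟨ρ, hρ, ?_⟩
  filter_upwards [hE, I.pic, I.ends] with k k1 k2 k3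
  filter_upwards [k2, k3, eventually_ge_atTop 2] with h h2 h3 h4 p hp
  obtain ⟨s, r, A, n1, n2, n3⟩ := k1 h h4
  obtain ⟨p1, p2, p3⟩ := n3 p hp
  have hside : if sg then 2 * h * ((k.1 * k.2 : ℕ) : ℤ) * Y < p.2
      else p.2 < 2 * h * ((k.1 * k.2 : ℕ) : ℤ) * Y := by
    cases sg
    · simp only [Bool.false_eq_true, if_false] at hs ⊢; exact p3 hs
    · simp only [if_true] at hs ⊢; exact p2 hs
  have U := upD_of h2 h3 n1 p1 I.d0 I.d1 hside
  have := HU _ _ _ _ _ _ _ _ _ _ _ _ _ U tv 1 (by norm_num) (fun i => (norm_tv i).le)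
  refine this.trans ?_
  have hx : (0 : ℝ) ≤ 3 * (s : ℝ) / r := by positivity
  have := pow_bd hx n2 h1 hκ hk
  linarith

/-- **Blocks, wide room.** -/
lemma pbk_wide {kap : ℝ} (HD : ∀ {κ : Type} [DecidableEq κ] (G : Pic κ)
    (xl H xa ρ A : ℤ) (p : ℤ × ℤ) (s r : ℕ) {ι : Type} [Fintype ι] (x y : ι → ℤ × ℤ),
    DnD G xl H xa ρ A p s r x y → ∀ (v : ι → ℂ) (M : ℝ), 0 ≤ M → (∀ i, ‖v i‖ ≤ M) →
      ‖val (G.WW p) (eW (lt p)) x v - val G.WL (eW (lt (G.xs, G.Yd))) y v‖ ≤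
        2 * M * (3 * (s : ℝ) / r) ^ kap)
    (hN : VNumP b z0 X Y r0 C0) (hY : z0.im = Y) (hσ : 0 < σ) (hσ0 : σ < r0) (h1 : C0 * σ ≤ 1) {κ : ℝ}
    (hκ : 0 < κ) (hk : κ ≤ kap) (I : Inst S b z0 X Y sg dl σ G y yW) {z1 : ℂ} (hz : z1 ∈ ball z0 σ)
    (hs : if sg then z1.im < z0.im else z0.im < z1.im) :
    PBk z1 (vW sg G yW) (gW G y) (2 * (C0 * σ) ^ κ) := by
  have hne : z1.im ≠ z0.im := by
    cases sg
    · simp only [Bool.false_eq_true, if_false] at hs; exact hs.ne'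
    · simp only [if_true] at hs; exact hs.ne
  obtain ⟨ρ, hρ, hE⟩ := hN σ hσ hσ0 z1 hz hne
  refine ⟨ρ, hρ, ?_⟩
  filter_upwards [hE, I.pic, I.ends] with k k1 k2 k3
  filter_upwards [k2, k3, eventually_ge_atTop 2] with h h2 h3 h4 p hp
  obtain ⟨s, r, A, n1, n2, n3⟩ := k1 h h4
  obtain ⟨p1, p2, p3⟩ := n3 p hp
  have hside : if sg then p.2 < 2 * h * ((k.1 * k.2 : ℕ) : ℤ) * Y
      else 2 * h * ((k.1 * k.2 : ℕ) : ℤ) * Y < p.2 := by
    cases sg
    · simp only [Bool.false_eq_true, if_false] at hs ⊢; exact p2 hs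
    · simp only [if_true] at hs ⊢; exact p3 hs
  obtain ⟨y', D, hD⟩ := dnD_of h2 h3 n1 p1 hside
  have e1 := HD _ _ _ _ _ _ _ _ _ _ _ D tv 1 (by norm_num) (fun i => (norm_tv i).le)
  have e2 : val (G k h).WL (eW (lt ((G k h).xs, (G k h).Yd))) y' tv = gW G y k h := by
    unfold gW val
    refine sum_congr rfl fun i _ => ?_
    have e3 : PB (G k h).WL.E (G k h).WL.b (fun ω => ((G k h).WL.G ω).Reachable
        (eW (lt ((G k h).xs, (G k h).Yd))) (y' i)) = PB (G k h).WL.E (G k h).WL.b (fun ω =>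
        ((G k h).WL.G ω).Reachable (eW (lt ((G k h).xs, (G k h).Yd))) (y k h i)) :=
      PB_congr fun ω hω => hD ω hω i
    rw [e3]
  rw [e2] at e1
  refine e1.trans ?_
  have hx : (0 : ℝ) ≤ 3 * (s : ℝ) / r := by positivity
  have := pow_bd hx n2 h1 hκ hk
  linarith

/-- **One row and coin flip.** -/
lemma po_of (hN : VNumP b z0 X Y r0 C0) (hσ : 0 < σ) (hσ0 : σ < r0)
    (I : Inst S b z0 X Y sg dl σ G y yW) : PO (gN G y) (gW G y) := by
  intro ε hε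
  -- numbers at one point
  have hz1 : z0 + (σ / 2 : ℝ) * Complex.I ∈ ball z0 σ := by
    rw [mem_ball, dist_eq_norm, add_sub_cancel_left, norm_mul, Complex.norm_I, mul_one,
      Complex.norm_real, Real.norm_eq_abs, abs_of_pos (by positivity)]
    linarith
  have hne : (z0 + (σ / 2 : ℝ) * Complex.I).im ≠ z0.im := by
    have e : (z0 + (σ / 2 : ℝ) * Complex.I).im = z0.im + σ / 2 := by simp
    rw [e]
    linarith
  obtain ⟨ρ, hρ, hE⟩ := hN σ hσ hσ0 _ hz1 hne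
  filter_upwards [hE, I.pic, I.ends, I.tooth] with k k1 k2 k3 k4
  obtain ⟨A, hA⟩ := k4
  obtain ⟨h0, hpo⟩ := po_le (⌈|A|⌉₊ + 2) A (ε := ε / 3) (by positivity)
  filter_upwards [k2, k3, hA, eventually_ge_atTop 2, eventually_ge_atTop h0] with h h2 h3 h4 h5 h6
  obtain ⟨s, r, A', n1, n2, n3⟩ := k1 h h5
  have hG := h2.ok
  have hm := hG.hm
  have hh := hG.h1
  have hcast : (G k h).h = h := h2.h_eq
  have sr : (s : ℤ) ≤ r := by exact_mod_cast n1.sr
  have hxs := h2.xs_eq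
  have wl := n1.wl
  have wr := n1.wr
  have wH := n1.wH
  have ms := n1.ms
  have th := n1.th
  have hk2 : (1 : ℤ) ≤ k.2 := by
    by_contra hc
    have h0 : (k.2 : ℤ) = 0 := by omega
    rw [h2.m_eq, h0] at hm
    simp at hm
  have hm2 : (G k h).m = 2 * h * k.2 := h2.m_eq
  have hmh : (h : ℤ) ≤ (G k h).m := by
    rw [hm2]
    have : (0 : ℤ) ≤ h := by positivity
    nlinarith
  rw [← hxs] at wl wr
  rw [← hm2] at ms th
  have hNum : Num (G k h) (2 * h * ((k.1 * k.2 : ℕ) : ℤ) * X) (2 * h * ((3 * (k.1 * k.2) / 4 : ℕ) : ℤ))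
      (⌈|A|⌉₊ + 2) A := by
    refine ⟨?_, ?_, ?_, ?_⟩
    · rw [hcast]; linarith
    · intro x hx1 hx2
      have := T_le h2 hx1
      rw [hcast]
      linarith
    · -- number of plates
      have h7 : (G k h).xe ≤ (G k h).xt := by have := hG.xet; omega
      have h8 : (((G k h).xe - (G k h).xs : ℤ) : ℝ) ≤ |A| * h := by
        have a1 : (((G k h).xe - (G k h).xs : ℤ) : ℝ) ≤ (((G k h).xt - (G k h).xs : ℤ) : ℝ) := by
          exact_mod_cast (by omega : (G k h).xe - (G k h).xs ≤ (G k h).xt - (G k h).xs)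
        have a2 : A * (h : ℝ) ≤ |A| * h := mul_le_mul_of_nonneg_right (le_abs_self A) (by positivity)
        linarith
      have h9 : |A| * (h : ℝ) ≤ ((⌈|A|⌉₊ : ℤ) * h : ℤ) := by
        push_cast
        exact mul_le_mul_of_nonneg_right (Nat.le_ceil _) (by positivity)
      have h10 : (G k h).xe - (G k h).xs ≤ (⌈|A|⌉₊ : ℤ) * h := by exact_mod_cast h8.trans h9
      have h11 : (G k h).xe / (G k h).m * (G k h).m ≤ (G k h).xe := Int.ediv_mul_le _ hm.ne'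
      have h12 : (G k h).xs < ((G k h).xs / (G k h).m + 1) * (G k h).m := Int.lt_ediv_add_one_mul_self _ hm
      set c : ℤ := (⌈|A|⌉₊ : ℤ) with hc
      have hc0 : 0 ≤ c := by positivity
      by_contra hcon
      push Not at hcon
      have hcon' : c + 3 ≤ (G k h).xe / (G k h).m - (G k h).xs / (G k h).m := by
        push_cast at hcon
        omega
      have h13 : (c + 3) * (G k h).m ≤ ((G k h).xe / (G k h).m - (G k h).xs / (G k h).m) * (G k h).m :=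
        mul_le_mul_of_nonneg_right hcon' hm.le
      have h14 : c * h ≤ c * (G k h).m := mul_le_mul_of_nonneg_left hmh hc0
      nlinarith
    · rw [hcast]; exact h4
  have := hpo (G k h) _ _ (eW (lt ((G k h).xs, (G k h).Yd))) (y k h) tv (by rw [hcast]; exact h6) hG hNum
    (outC_start hG) h3.out (fun i => veq_PB hG _ _)
  refine this.trans ?_
  have : ∑ i : Fin 3, ‖tv i‖ = 3 := by
    rw [Fin.sum_univ_three, norm_tv, norm_tv, norm_tv]; norm_num
  rw [this]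
  linarith

/-- **Chord data from the instances.** -/
theorem chdAt_of (hr0 : 0 < r0) (hC0 : 0 ≤ C0) (hN : VNumP b z0 X Y r0 C0) (hY : z0.im = Y)
    (HI : ∀ σ : ℝ, 0 < σ → σ < r0 → ∃ G y yW, Inst S b z0 X Y sg dl σ G y yW) : ChdAt2 S b z0 := by
  obtain ⟨kU, hkU, HU⟩ := vUp_le.{0, 0}
  obtain ⟨kD, hkD, HD⟩ := vDn_le.{0, 0}
  set κ := min kU kD with hκd
  have hκ : 0 < κ := lt_min hkU hkD
  set r1 := min r0 (1 / (C0 + 1)) with hr1
  have hr1p : 0 < r1 := lt_min hr0 (by positivity)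
  refine ⟨2 * (C0 * r1) ^ κ, κ, r1, hκ, hr1p, by positivity, fun s hs hs1 => ?_⟩
  have hs0 : s < r0 := hs1.trans_le (min_le_left _ _)
  have hCs : C0 * s ≤ 1 := by
    have h1 : s ≤ 1 / (C0 + 1) := hs1.le.trans (min_le_right _ _)
    have h2 : C0 * s ≤ C0 * (1 / (C0 + 1)) := mul_le_mul_of_nonneg_left h1 hC0
    have h3 : C0 * (1 / (C0 + 1)) ≤ 1 := by
      rw [mul_one_div, div_le_one (by linarith)]; linarith
    linarith
  obtain ⟨G, y, yW, I⟩ := HI s hs hs0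
  have hcon : 2 * (C0 * r1) ^ κ * (s / r1) ^ κ = 2 * (C0 * s) ^ κ := by
    rw [mul_assoc, ← Real.mul_rpow (by positivity) (by positivity)]
    congr 2
    field_simp
  rw [hcon]
  have fN : ∀ z1 ∈ ball z0 s, (if sg then z0.im < z1.im else z1.im < z0.im) →
      PR S b z1 (vN sg dl G y) ∧ PBk z1 (vN sg dl G y) (gN G y) (2 * (C0 * s) ^ κ) := fun z1 hz h =>
    ⟨pr_narrow I hz h, pbk_narrow HU hN hY hs hs0 hCs hκ (min_le_left _ _) I hz h⟩
  have fW : ∀ z1 ∈ ball z0 s, (if sg then z1.im < z0.im else z0.im < z1.im) →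
      PR S b z1 (vW sg G yW) ∧ PBk z1 (vW sg G yW) (gW G y) (2 * (C0 * s) ^ κ) := fun z1 hz h =>
    ⟨pr_wide I hz h, pbk_wide HD hN hY hs hs0 hCs hκ (min_le_right _ _) I hz h⟩
  have fO := po_of hN hs hs0 I
  cases sg
  · simp only [Bool.false_eq_true, if_false] at fN fW
    refine ⟨vW false G yW, vN false dl G y, gW G y, gN G y, fW, fN, fun ε hε => ?_⟩
    filter_upwards [fO ε hε] with k hk
    filter_upwards [hk] with h hh
    rwa [norm_sub_rev]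
  · simp only [if_true] at fN fW
    exact ⟨vN true dl G y, vW true G yW, gN G y, gW G y, fN, fW, fO⟩

end Pool.Agent.H82.W
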