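import Mathlib
import Pool.Agent.H82.W.VTop4
import Pool.Agent.H82.W.VInst
import Pool.Agent.H51.W.VNum

set_option autoImplicit false
set_option linter.unusedVariables false
open Finset

/-! # StChd, V10: final assembly, part 5: `stChd_fin`

StChd from `ExCc` (92: coarse data of a chord) and `EWN` (for one chord and all small scales: the ends (E), the
values in the wide room (W), the values in the narrow room (N)). -/

namespace Pool.Agent.H82.W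

open Pool.Agent.H33.Q1 (lt)
open Pool.Agent.H21.FM (Shape)
open Pool.Agent.Q1.M4 (Cell PType)
open Pool.Agent.H78.W
open Pool.Agent.H13.W (chG eW)
open Pool.Agent.H5.C3 (Gen)
open Pool.Agent.H74.W
open Filter Metric

/-- **51's numbers.** -/
theorem vnumP {Q : Finset Cell} {b : ℤ} (hb : ∀ c ∈ chG Q, c.1 < b) {z0 : ℂ} (hz0 : z0 ∈ chU Q)
    (hz : ∀ m : ℤ, z0.re ≠ m) :
    ∃ X Y : ℤ, (X, Y) ∈ chG Q ∧ (X : ℝ) < z0.re ∧ z0.re < X + 1 ∧ z0.im = Y ∧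
      ∃ r0 > (0 : ℝ), ∃ C0 : ℝ, 0 ≤ C0 ∧ VNumP b z0 X Y r0 C0 := by
  obtain ⟨X, Y, h1, h2, h3, h4, r0, hr0, C0, hC0, H⟩ := Pool.Agent.H51.W.vnum hb hz0 hz 0
  refine ⟨X, Y, h1, h2, h3, h4, r0, hr0, C0, hC0, fun σ hσ hσ0 z1 hz1 hne => ?_⟩
  obtain ⟨ρ, hρ, hk⟩ := H σ hσ hσ0 z1 hz1 hne
  refine ⟨ρ, hρ, ?_⟩
  filter_upwards [hk] with k hk h hh
  obtain ⟨s, r, A, a1, a2, a3, a4, a5, a6, a7, a8, a9, a10, a11⟩ := hk h hh
  refine ⟨s, r, A, ⟨hh, a1, a2, a4, a3, a6, a7, ?_, a9⟩, a5, fun p hp => ?_⟩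
  · push_cast at a8 ⊢
    exact a8
  · obtain ⟨p1, p2, p3, p4, p5, p6⟩ := a11 p hp
    exact ⟨⟨p1, p2, p3, by
      have : 2 * (2 * (h : ℤ)) = 4 * h := by ring
      rw [this] at p4
      exact p4⟩, p5, p6⟩

/-- **Coarse data of a chord** (92). -/
def ExCc : Prop := ∀ P0 : PType, Gen P0.Q → ∀ a Y : ℤ, (a, Y) ∈ chG P0.Q →
  ∃ (sg : Bool) (be bt bw : ℤ) (P : Bool), Cc P0.Q sg a be bt bw Y P

/-- **(E), (W), (N)** for one chord. -/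
def EWN (S : Shape) (b X Y : ℤ) (z0 : ℂ) (sg P : Bool) (be bt bw : ℤ) : Prop :=
  ∃ (dl : ℤ) (r0 : ℝ), 0 ≤ dl ∧ dl ≤ 1 ∧ 0 < r0 ∧ ∀ σ : ℝ, 0 < σ → σ < r0 →
    ∃ y yW : ℕ × ℕ → ℕ → Fin 3 → ℤ × ℤ,
      (∀ᶠ k in lK, ∀ᶠ h : ℕ in atTop, EndOk (GI S b sg P be bt bw Y z0 σ k h)
        (2 * h * ((k.1 * k.2 : ℕ) : ℤ) * X) (2 * h * ((3 * (k.1 * k.2) / 4 : ℕ) : ℤ)) (y k h) (yW k h)) ∧
      (∀ z1 ∈ ball z0 σ, (if sg then z1.im < z0.im else z0.im < z1.im) → ∃ r > (0 : ℝ),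
        ∀ᶠ k in lK, ∀ᶠ h : ℕ in atTop, ∀ p : ℤ × ℤ, dist (ps k h p) z1 < r →
          HF S b k h p = val ((GI S b sg P be bt bw Y z0 σ k h).WW (rfl' sg p)) (eW (lt (rfl' sg p)))
            (yW k h) tv) ∧
      (∀ z1 ∈ ball z0 σ, (if sg then z0.im < z1.im else z1.im < z0.im) → ∃ r > (0 : ℝ), ∀ ε > (0 : ℝ),
        ∀ᶠ k in lK, ∀ᶠ h : ℕ in atTop, ∀ p : ℤ × ℤ, dist (ps k h p) z1 < r →
          ‖HF S b k h p - val ((GI S b sg P be bt bw Y z0 σ k h).WN (rfl' sg (p.1, p.2 - dl)))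
            (eW (lt (rfl' sg (p.1, p.2 - dl)))) (y k h) tv‖ ≤ ε)

/-- **StChd, final form.** -/
theorem stChd_fin (hCc : ExCc) (H : ∀ S : Shape, Gen S.P.Q → ∀ b : ℤ, (∀ c ∈ chG S.P.Q, c.1 < b) →
    ∀ (z0 : ℂ) (X Y : ℤ) (sg P : Bool) (be bt bw : ℤ), (X, Y) ∈ chG S.P.Q → (X : ℝ) < z0.re →
      z0.re < X + 1 → z0.im = Y → Cc S.P.Q sg X be bt bw Y P → EWN S b X Y z0 sg P be bt bw) : StChd := by
  classical
  refine stChd_of2 fun S hS b hb => ?_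
  refine ⟨(chG S.P.Q).image (fun c => (⟨c.1, c.2⟩ : ℂ)) ∪ (chG S.P.Q).image (fun c => (⟨c.1 + 1, c.2⟩ : ℂ)),
    fun z0 hz0 hF => ?_⟩
  have hz : ∀ m : ℤ, z0.re ≠ m := by
    intro m hm
    obtain ⟨c, hc, h1, h2, h3⟩ := hz0
    rw [hm] at h2 h3
    have h2' : c.1 ≤ m := by exact_mod_cast h2
    have h3' : m ≤ c.1 + 1 := by exact_mod_cast h3
    apply hF
    rw [mem_union, mem_image, mem_image]
    rcases eq_or_lt_of_le h2' with h4 | h4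
    · left
      exact ⟨c, hc, Complex.ext (by rw [hm, ← h4]) h1.symm⟩
    · right
      have h5 : m = c.1 + 1 := by omega
      refine ⟨c, hc, Complex.ext ?_ h1.symm⟩
      simp only
      rw [hm, h5]; push_cast; ring
  obtain ⟨X, Y, hXY, h1, h2, h3, r1, hr1, C0, hC0, hN⟩ := vnumP hb hz0 hz
  obtain ⟨sg, be, bt, bw, P, C⟩ := hCc S.P hS X Y hXY
  obtain ⟨dl, r2, d0, d1, hr2, HI⟩ := H S hS b hb z0 X Y sg P be bt bw hXY h1 h2 h3 C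
  -- a lower bound of the columns
  obtain ⟨aL, haL⟩ : ∃ aL : ℤ, ∀ c ∈ chG S.P.Q, aL ≤ c.1 := by
    refine ⟨-(∑ c ∈ chG S.P.Q, |c.1|), fun c hc => ?_⟩
    have h4 : |c.1| ≤ ∑ c ∈ chG S.P.Q, |c.1| :=
      single_le_sum (f := fun c : Cell => |c.1|) (fun _ _ => abs_nonneg _) hc
    have h5 := neg_abs_le c.1
    linarith
  set r3 := min (min r1 r2) (((X : ℝ) + 1 - z0.re) / 2) with hr3
  have hr3p : 0 < r3 := lt_min (lt_min hr1 hr2) (by linarith)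
  refine chdAt_of (X := X) (Y := Y) (sg := sg) (dl := dl) (r0 := r3) (C0 := C0) hr3p hC0 ?_ h3 ?_
  · intro σ hσ hσ3
    exact hN σ hσ (hσ3.trans_le ((min_le_left _ _).trans (min_le_left _ _)))
  · intro σ hσ hσ3
    obtain ⟨y, yW, hE, hW, hNn⟩ := HI σ hσ (hσ3.trans_le ((min_le_left _ _).trans (min_le_right _ _)))
    have h6 : z0.re + σ < X + 1 := by
      have : σ < ((X : ℝ) + 1 - z0.re) / 2 := hσ3.trans_le (min_le_right _ _)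
      linarith
    exact ⟨_, y, yW, ⟨d0, d1, gi_pic C hb haL h1 hσ h6, hE, gi_tooth C hb haL h1 hσ h6, hW, hNn⟩⟩

end Pool.Agent.H82.W
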