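import Mathlib
import Pool.Agent.H78.W.VGo
import Pool.Agent.H22.W.VcVC
import Pool.Agent.H2.W.RInst4
import Pool.Agent.H13.W.VE
import Pool.Agent.H82.W.Refl
import Pool.Agent.H82.W.VInst

set_option autoImplicit false
set_option linter.unusedVariables false
open Finset

/-! # StChd, V10 (W): the world of an end in the wide room

`WidP` : the tile is in the wide room. `dh_wide` : its row ends at the right wall. `ww_col` : colours of 19's
coherent world of the tile and of the picture. `ww_val` : the value of the world `WW` of the picture is the value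
of the coherent world. -/

namespace Pool.Agent.H82.W

open Pool.Agent.H33.Q1 (lt tt ct TL lt_odd tt_lt lt_tt lt_inj mem_TL lt_mem_TL)
open Pool.Agent.H21.FM (Shape)
open Pool.Agent.Q1.M4 (Cell PType IsSide)
open Pool.Agent.H78.W
open Pool.Agent.H13.W (chG eW)
open Pool.Agent.H19.W (cx cy cx_lt cy_lt lt_cc Tq LamC WC sd si κz sd_side XA mkI)
open Pool.Agent.H68.W (sx wf Cf sx_ne sx_spec sx_eq isSide0 isSide1 isSide2 isSide3)
open Pool.Agent.H22.W.Vc (DH TT tT)
open Pool.Agent.H50.W (rf bk)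
open Pool.Agent.H58.W (plV PB)
open Pool.Agent.H2.W.Run (vZ kb qb XM hV)
open Pool.Agent.H74.W

/-- arithmetic of the exit side: `t` = exit of the tile `p`, `te` = side next to the chord -/
lemma ww_key {sg : Bool} {n M m x y p2 xw Yc : ℤ} {t te i : ℤ} (hn : 0 < n)
    (hYc : Yc = if sg then n * m else -(n * m))
    (hwp : if sg then m - M ≤ p2 / n ∧ p2 / n < m else m ≤ p2 / n ∧ p2 / n < m + M)
    (key0 : t = te + (p2 / n - (if sg then m - 1 else m)))
    (hix : ∀ w, (if sg then m - M ≤ w ∧ w < m else m ≤ w ∧ w < m + M) →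
      i = te + (w - (if sg then m - 1 else m)) → x = xw ∧ (ry sg y / n = w ∨
        (ry sg y = n * (w + 1) ∧ ¬ (if sg then m - M ≤ w + 1 ∧ w + 1 < m else m ≤ w + 1 ∧ w + 1 < m + M)) ∨
        (ry sg y = n * w - 1 ∧ ¬ (if sg then m - M ≤ w - 1 ∧ w - 1 < m else m ≤ w - 1 ∧ w - 1 < m + M))))
    (hwall : x = xw → Yc - n * M ≤ y → y < Yc → i = te + (ry sg y / n - (if sg then m - 1 else m)))
    (y1 : Yc - n * M < ry sg p2) (y2 : ry sg p2 + 1 < Yc) (hD : ¬ (x = xw ∧ y = ry sg p2)) :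
    (t < i ∨ (t = i ∧ p2 < ry sg y)) ↔ ¬ ((te < i ∨ (te = i ∧ n * m - 1 < ry sg y)) ↔
        (x = xw ∧ ry sg p2 < y ∧ y < Yc)) := by
  have hdv : ∀ a : ℤ, n * (a / n) ≤ a ∧ a < n * (a / n) + n := fun a =>
    ⟨Int.mul_ediv_self_le hn.ne', Int.lt_mul_ediv_self_add hn⟩
  have hmono : ∀ a c : ℤ, a < c → n * a + n ≤ n * c := fun a c g => by nlinarith
  obtain ⟨dp1, dp2⟩ := hdv p2
  obtain ⟨dv1, dv2⟩ := hdv (ry sg y)
  generalize hP : p2 / n = wp at *
  generalize hV : ry sg y / n = vp at *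
  have m1 := hmono wp vp
  have m2 := hmono vp wp
  have m3 := hmono vp m
  have m4 := hmono m vp
  have m3' := hmono wp m
  have m4' := hmono m wp
  have m5 : m = vp → n * m = n * vp := fun h => by rw [h]
  have m6 : vp = wp → n * vp = n * wp := fun h => by rw [h]
  have m7 : m = wp → n * m = n * wp := fun h => by rw [h]
  have e1 : n * (vp + 1) = n * vp + n := by ring
  by_cases hR : (min t te ≤ i ∧ i ≤ max t te)
  · obtain ⟨g1, g2⟩ := hR
    have hix' := hix ((if sg then m - 1 else m) + (i - te))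
    clear hix hwall
    cases sg
    · simp only [Bool.false_eq_true, if_false, ry_false] at *
      have h3 : m ≤ m + (i - te) ∧ m + (i - te) < m + M := by
        rcases min_le_iff.1 g1 with a | a <;> rcases le_max_iff.1 g2 with b | b <;> omega
      obtain ⟨k1, k2⟩ := hix' h3 (by ring)
      have g1' : te ≤ i := by
        rcases min_le_iff.1 g1 with a | a <;> omega
      have g2' : i ≤ t := by
        rcases le_max_iff.1 g2 with a | a <;> omega
      rcases k2 with k2 | ⟨k2, k3⟩ | ⟨k2, k3⟩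
      · simp only [k1, true_and] at hD ⊢
        omega
      · simp only [k1, true_and] at hD ⊢
        have e2 : n * (m + (i - te) + 1) = n * wp + n := by
          have : m + (i - te) = wp := by omega
          rw [this]; ring
        omega
      · simp only [k1, true_and] at hD ⊢
        have e2 : n * (m + (i - te)) = n * m := by
          have : m + (i - te) = m := by omega
          rw [this]
        omega
    · simp only [if_true, ry_true] at *
      have h3 : m - M ≤ m - 1 + (i - te) ∧ m - 1 + (i - te) < m := by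
        rcases min_le_iff.1 g1 with a | a <;> rcases le_max_iff.1 g2 with b | b <;> omega
      obtain ⟨k1, k2⟩ := hix' h3 (by ring)
      have g1' : t ≤ i := by
        rcases min_le_iff.1 g1 with a | a <;> omega
      have g2' : i ≤ te := by
        rcases le_max_iff.1 g2 with a | a <;> omega
      rcases k2 with k2 | ⟨k2, k3⟩ | ⟨k2, k3⟩
      · simp only [k1, true_and] at hD ⊢
        omega
      · simp only [k1, true_and] at hD ⊢
        have e2 : n * (m - 1 + (i - te) + 1) = n * m := by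
          have : m - 1 + (i - te) + 1 = m := by omega
          rw [this]
        omega
      · simp only [k1, true_and] at hD ⊢
        have e2 : n * (m - 1 + (i - te)) = n * wp := by
          have : m - 1 + (i - te) = wp := by omega
          rw [this]
        omega
  · clear hix
    have h4 : (i < t ∧ i < te) ∨ (t < i ∧ te < i) := by
      rw [not_and_or, not_le, not_le, lt_min_iff, max_lt_iff] at hR
      exact hR
    have h5 : ¬ (x = xw ∧ ry sg p2 < y ∧ y < Yc) := by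
      rintro ⟨k1, k2, k3⟩
      have k4 := hwall k1 (by omega) k3
      cases sg
      · simp only [Bool.false_eq_true, if_false, ry_false] at *
        omega
      · simp only [if_true, ry_true] at *
        omega
    simp only [h5, iff_false, not_not]
    omega

/-- **The tile `p` is in the wide room**, left of the right wall. -/
structure WidP (N M' h : ℕ) (sg : Bool) (a0 bw Y0 : ℤ) (p : ℤ × ℤ) : Prop where
  x1 : 2 * (h : ℤ) * (N * M') * a0 < p.1
  x2 : p.1 < 2 * (h : ℤ) * (N * M') * bw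
  y1 : yc sg (2 * (h : ℤ) * (N * M')) Y0 - 2 * (h : ℤ) * (N * M') < ry sg p.2
  y2 : ry sg p.2 + 1 < yc sg (2 * (h : ℤ) * (N * M')) Y0

section

variable {S : Shape} {aL b : ℤ} {N M' h : ℕ} {hM : 0 < N * M'} {sg P : Bool} {a0 be bt bw Y0 k0' : ℤ}
  (D : PicD S aL b N M' h hM sg P a0 be bt bw Y0 k0') {p : ℤ × ℤ} (W : WidP N M' h sg a0 bw Y0 p)
include D

lemma inW {x y : ℤ} (h1 : 2 * (h : ℤ) * (N * M') * a0 ≤ x) (h2 : x < 2 * (h : ℤ) * (N * M') * bw)
    (h3 : yc sg (2 * (h : ℤ) * (N * M')) Y0 - 2 * (h : ℤ) * (N * M') ≤ y)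
    (h4 : y < yc sg (2 * (h : ℤ) * (N * M')) Y0) : ct (2 * (h : ℤ)) (x, ry sg y) ∈ (rf S (N * M') hM).P.Q := by
  have hL : (0 : ℤ) < 2 * h * (N * M') := by have := D.L4; omega
  rw [ct_InV D.h0]
  rcases lt_or_ge x (2 * (h : ℤ) * (N * M') * be) with h5 | h5
  · exact D.C.f1 hL h1 h5 h3 (by omega)
  · exact D.C.f2 hL h5 h2 h3 h4

lemma outW {x y : ℤ} (h1 : 2 * (h : ℤ) * (N * M') * bw ≤ x)
    (h2 : x < 2 * (h : ℤ) * (N * M') * bw + 2 * (h : ℤ) * (N * M'))
    (h3 : yc sg (2 * (h : ℤ) * (N * M')) Y0 - 2 * (h : ℤ) * (N * M') ≤ y)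
    (h4 : y < yc sg (2 * (h : ℤ) * (N * M')) Y0 + 2 * (h : ℤ) * (N * M')) :
    ct (2 * (h : ℤ)) (x, ry sg y) ∉ (rf S (N * M') hM).P.Q := by
  have hL : (0 : ℤ) < 2 * h * (N * M') := by have := D.L4; omega
  rw [ct_InV D.h0]
  exact D.C.f5 hL h1 h2 h3 h4

include W

/-- **The row of `p` ends at the right wall.** -/
theorem dh_wide : DH (rf S (N * M') hM) (2 * (h : ℤ)) p (2 * (h : ℤ) * (N * M') * bw) := by
  have hL := D.L4
  obtain ⟨x1, x2, y1, y2⟩ := W
  refine ⟨?_, x2.le, ?_, ?_, ?_⟩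
  · have := inW D (x := p.1 - 1) (y := ry sg p.2) (by omega) (by omega) (by omega) (by omega)
    rw [ry_ry] at this
    exact this
  · intro x h1 h2
    have := inW D (x := x) (y := ry sg p.2) (by omega) (by omega) (by omega) (by omega)
    rw [ry_ry] at this
    exact this
  · intro y h1 h2
    have h3 : ry sg p.2 - 1 ≤ ry sg y ∧ ry sg y ≤ ry sg p.2 + 1 := by
      cases sg
      · simp only [ry_false]; omega
      · simp only [ry_true]; omega
    have := outW D (x := 2 * (h : ℤ) * (N * M') * bw) (y := ry sg y) le_rfl (by omega) (by omega) (by omega)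
    rw [ry_ry] at this
    exact this
  · intro y h1 h2
    have h3 : ry sg p.2 - 1 ≤ ry sg y ∧ ry sg y ≤ ry sg p.2 + 1 := by
      cases sg
      · simp only [ry_false]; omega
      · simp only [ry_true]; omega
    have := inW D (x := 2 * (h : ℤ) * (N * M') * bw - 1) (y := ry sg y) (by
      obtain ⟨n1, n2, n3, -⟩ := D.nums
      omega) (by omega) (by omega) (by omega)
    rw [ry_ry] at this
    exact this

/-- **Colours of the world of `p`.** -/
lemma kz_cf {i : ℕ} {v : ℤ} : κz (rf S (N * M') hM) h p i v ↔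
    Cf (rf S (N * M') hM) (sx (rf S (N * M') hM).P (N * M' * bw - 1, p.2 / (2 * (h : ℤ))) 1) p.2 i v := by
  have H := dh_wide D W
  have h1 := fun t => Pool.Agent.H22.W.Vc.ex_iff D.hh H t
  rw [D.col1 bw] at h1
  unfold κz Cf
  simp only [h1, exists_eq_left]

omit W in
/-- the tile of an index of the wide part of the right wall -/
lemma idx_wall {x v w : ℤ} (hT : Tq (rf S (N * M') hM).P.Q (2 * (h : ℤ)) (x, v))
    (h0 : ct (2 * (h : ℤ)) (x, v) ∉ (rf S (N * M') hM).P.Q)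
    (hw : if sg then N * M' * Y0 - N * M' ≤ w ∧ w < N * M' * Y0 else N * M' * Y0 ≤ w ∧ w < N * M' * Y0 + N * M')
    (hi : si (rf S (N * M') hM).P (2 * (h : ℤ)) (x, v) = sx (rf S (N * M') hM).P (N * M' * bw - 1, w) 1) :
    x = 2 * (h : ℤ) * (N * M') * bw ∧ (v / (2 * (h : ℤ)) = w ∨
      (v = 2 * (h : ℤ) * (w + 1) ∧ ¬ (if sg then N * M' * Y0 - N * M' ≤ w + 1 ∧ w + 1 < N * M' * Y0
        else N * M' * Y0 ≤ w + 1 ∧ w + 1 < N * M' * Y0 + N * M')) ∨
      (v = 2 * (h : ℤ) * w - 1 ∧ ¬ (if sg then N * M' * Y0 - N * M' ≤ w - 1 ∧ w - 1 < N * M' * Y0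
        else N * M' * Y0 ≤ w - 1 ∧ w - 1 < N * M' * Y0 + N * M'))) := by
  have hm := D.m1
  have hn : (0 : ℤ) < 2 * h := by have := D.n4; omega
  have hn4 := D.n4
  have hTr := rfn S hM
  have hq : ∀ w' : ℤ, (if sg then N * M' * Y0 - N * M' ≤ w' ∧ w' < N * M' * Y0
      else N * M' * Y0 ≤ w' ∧ w' < N * M' * Y0 + N * M') →
      (N * M' * bw - 1, w') ∈ (rf S (N * M') hM).P.Q ∧ (N * M' * bw - 1 + 1, w') ∉ (rf S (N * M') hM).P.Q :=
    fun w' h' => D.C.qW hm hTr (Or.inl h')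
  have hs1 := sd_side (Q := (rf S (N * M') hM).P.Q) (by omega) hT h0
  have hs2 : IsSide (rf S (N * M') hM).P.Q ((N * M' * bw - 1, w), 1) := isSide1.2 (hq w hw)
  obtain ⟨e1, e2⟩ := sx_cell (c := (sd (rf S (N * M') hM).P.Q (2 * (h : ℤ)) (x, v)).1)
    (k := (sd (rf S (N * M') hM).P.Q (2 * (h : ℤ)) (x, v)).2) hs1 hs2 hi
  clear hs1 hs2
  have hdv : ∀ a c : ℤ, a / (2 * (h : ℤ)) = c → 2 * (h : ℤ) * c ≤ a ∧ a < 2 * h * c + 2 * h := by
    intro a c hac
    have h1 := Int.mul_ediv_self_le (x := a) (k := 2 * (h : ℤ)) hn.ne'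
    have h2 := Int.lt_mul_ediv_self_add (x := a) (k := 2 * (h : ℤ)) hn
    rw [hac] at h1 h2
    exact ⟨h1, h2⟩
  have hdi : ∀ a c : ℤ, 2 * (h : ℤ) * c ≤ a → a < 2 * h * c + 2 * h → a / (2 * (h : ℤ)) = c :=
    fun a c g1 g2 => div_in hn g1 g2
  have hcol : (x - 1) / (2 * (h : ℤ)) = N * M' * bw - 1 → x / (2 * (h : ℤ)) ≠ N * M' * bw - 1 →
      x = 2 * (h : ℤ) * (N * M') * bw := by
    intro g1 g2
    obtain ⟨g3, g4⟩ := hdv _ _ g1
    by_contra g5
    apply g2
    apply hdi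
    · linarith
    · have : x ≤ 2 * (h : ℤ) * (N * M') * bw := by linarith
      have e : 2 * (h : ℤ) * (N * M') * bw = 2 * (h : ℤ) * (N * M' * bw - 1) + 2 * h := by ring
      omega
  unfold sd at e1 e2
  simp only at e1 e2
  split_ifs at e1 e2 with c1 c2 c3 c4 c5 c6 c7
  · -- left neighbour
    unfold ct at e1 c1
    simp only [Prod.mk.injEq] at e1
    refine ⟨hcol e1.1 (fun g => h0 ?_), Or.inl e1.2⟩
    have : ct (2 * (h : ℤ)) (x, v) = (N * M' * bw - 1, w) := by
      unfold ct; simp only; rw [g, e1.2]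
    rw [this]
    exact (hq w hw).1
  all_goals try (exfalso; omega)
  · -- left, below
    unfold ct at e1
    simp only [Prod.mk.injEq] at e1
    have g1 : v / (2 * (h : ℤ)) ≠ w := by
      intro g
      apply c1
      have : ct (2 * (h : ℤ)) (x - 1, v) = (N * M' * bw - 1, w) := by
        unfold ct; simp only; rw [e1.1, g]
      rw [this]
      exact (hq w hw).1
    have g2 : x / (2 * (h : ℤ)) ≠ N * M' * bw - 1 := by
      intro g
      apply c3
      have : ct (2 * (h : ℤ)) (x, v - 1) = (N * M' * bw - 1, w) := by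
        unfold ct; simp only; rw [g, e1.2]
      rw [this]
      exact (hq w hw).1
    refine ⟨hcol e1.1 g2, Or.inr (Or.inl ?_)⟩
    obtain ⟨g3, g4⟩ := hdv _ _ e1.2
    have g5 : v = 2 * (h : ℤ) * (w + 1) := by
      by_contra g6
      apply g1
      apply hdi
      · linarith
      · have e : 2 * (h : ℤ) * (w + 1) = 2 * (h : ℤ) * w + 2 * h := by ring
        omega
    refine ⟨g5, fun g6 => c1 ?_⟩
    have : ct (2 * (h : ℤ)) (x - 1, v) = (N * M' * bw - 1, w + 1) := by
      unfold ct; simp only; rw [e1.1, g5, Int.mul_ediv_cancel_left _ hn.ne']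
    rw [this]
    exact (hq _ g6).1
  · -- left, above
    unfold ct at e1
    simp only [Prod.mk.injEq] at e1
    have g1 : v / (2 * (h : ℤ)) ≠ w := by
      intro g
      apply c1
      have : ct (2 * (h : ℤ)) (x - 1, v) = (N * M' * bw - 1, w) := by
        unfold ct; simp only; rw [e1.1, g]
      rw [this]
      exact (hq w hw).1
    have g2 : x / (2 * (h : ℤ)) ≠ N * M' * bw - 1 := by
      intro g
      apply c4
      have : ct (2 * (h : ℤ)) (x, v + 1) = (N * M' * bw - 1, w) := by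
        unfold ct; simp only; rw [g, e1.2]
      rw [this]
      exact (hq w hw).1
    refine ⟨hcol e1.1 g2, Or.inr (Or.inr ?_)⟩
    obtain ⟨g3, g4⟩ := hdv _ _ e1.2
    have g5 : v = 2 * (h : ℤ) * w - 1 := by
      by_contra g6
      apply g1
      apply hdi
      · omega
      · linarith
    refine ⟨g5, fun g6 => c1 ?_⟩
    have : ct (2 * (h : ℤ)) (x - 1, v) = (N * M' * bw - 1, w - 1) := by
      unfold ct; simp only; rw [e1.1, g5]
      congr 1
      exact hdi _ _ (by linarith) (by linarith)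
    rw [this]
    exact (hq _ g6).1

omit W in
/-- indices of the wide part of the right wall -/
lemma sx_wide {w w' : ℤ}
    (hw : if sg then N * M' * Y0 - N * M' ≤ w ∧ w < N * M' * Y0 else N * M' * Y0 ≤ w ∧ w < N * M' * Y0 + N * M')
    (hw' : if sg then N * M' * Y0 - N * M' ≤ w' ∧ w' < N * M' * Y0
      else N * M' * Y0 ≤ w' ∧ w' < N * M' * Y0 + N * M') :
    (sx (rf S (N * M') hM).P (N * M' * bw - 1, w') 1 : ℤ) =
      sx (rf S (N * M') hM).P (N * M' * bw - 1, w) 1 + (w' - w) := by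
  rcases le_total w w' with g | g
  · exact (D.C.sx_wall D.m1 (rfn S hM) (Or.inl hw) (Or.inl hw') g).1
  · have := (D.C.sx_wall D.m1 (rfn S hM) (Or.inl hw') (Or.inl hw) g).1
    linarith

/-- **The colours of the world of `p`**: the colours of the picture, changed on the right wall between the exit and
the chord. -/
theorem ww_col {x y : ℤ} (hT : Tq (rf S (N * M') hM).P.Q (2 * (h : ℤ)) (x, ry sg y))
    (h0 : ct (2 * (h : ℤ)) (x, ry sg y) ∉ (rf S (N * M') hM).P.Q)
    (hD : ¬ (x = 2 * (h : ℤ) * (N * M') * bw ∧ y = ry sg p.2)) :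
    κz (rf S (N * M') hM) h p (si (rf S (N * M') hM).P (2 * (h : ℤ)) (x, ry sg y)) (ry sg y) ↔
      ¬ (Cf (rf S (N * M') hM) (teC (rf S (N * M') hM) sg (N * M') bw Y0) (v0C (2 * (h : ℤ) * (N * M')) Y0)
        (si (rf S (N * M') hM).P (2 * (h : ℤ)) (x, ry sg y)) (ry sg y) ↔
        (x = 2 * (h : ℤ) * (N * M') * bw ∧ ry sg p.2 < y ∧ y < yc sg (2 * (h : ℤ) * (N * M')) Y0)) := by
  have hm := D.m1
  have hn : (0 : ℤ) < 2 * h := by have := D.n4; omega
  rw [kz_cf D W]
  have hwp := D.rowW (y := ry sg p.2) W.y1.le (by linarith [W.y2])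
  rw [ry_ry] at hwp
  have hw0 : if sg then N * M' * Y0 - N * M' ≤ (if sg then N * M' * Y0 - 1 else N * M' * Y0) ∧
      (if sg then N * M' * Y0 - 1 else N * M' * Y0) < N * M' * Y0
      else N * M' * Y0 ≤ (if sg then N * M' * Y0 - 1 else N * M' * Y0) ∧
      (if sg then N * M' * Y0 - 1 else N * M' * Y0) < (N : ℤ) * M' * Y0 + N * M' := by
    cases sg
    · simp only [Bool.false_eq_true, if_false]; omega
    · simp only [if_true]; omega
  have key0 := sx_wide D hw0 hwp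
  have hix := fun w hw => idx_wall D hT h0 (w := w) hw
  have hsw := fun w hw => sx_wide D (w := if sg then N * M' * Y0 - 1 else N * M' * Y0) (w' := w) hw0 hw
  -- on the wall
  have hwall : x = 2 * (h : ℤ) * (N * M') * bw → yc sg (2 * (h : ℤ) * (N * M')) Y0 - 2 * (h : ℤ) * (N * M') ≤ y →
      y < yc sg (2 * (h : ℤ) * (N * M')) Y0 →
      si (rf S (N * M') hM).P (2 * (h : ℤ)) (x, ry sg y) =
        sx (rf S (N * M') hM).P (N * M' * bw - 1, ry sg y / (2 * (h : ℤ))) 1 := by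
    intro g1 g2 g3
    rw [g1]
    exact D.si_wall g2 (by have := D.L4; omega) (Or.inl g3)
  have hLY : 2 * (h : ℤ) * (N * M') * Y0 = 2 * (h : ℤ) * (N * M' * Y0) := by ring
  have hLM : 2 * (h : ℤ) * (N * M') = 2 * (h : ℤ) * ((N : ℤ) * M') := rfl
  have y1 := W.y1
  have y2 := W.y2
  have hYc : yc sg (2 * (h : ℤ) * (N * M')) Y0 =
      if sg then 2 * (h : ℤ) * (N * M' * Y0) else -(2 * (h : ℤ) * (N * M' * Y0)) := by
    unfold yc; rw [hLY]
  have K := ww_key (sg := sg) (n := 2 * (h : ℤ)) (M := N * M') (m := N * M' * Y0) (x := x) (y := y) (p2 := p.2)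
    (xw := 2 * (h : ℤ) * (N * M') * bw) (Yc := yc sg (2 * (h : ℤ) * (N * M')) Y0)
    (t := sx (rf S (N * M') hM).P (N * M' * bw - 1, p.2 / (2 * (h : ℤ))) 1)
    (te := sx (rf S (N * M') hM).P (N * M' * bw - 1, if sg then N * M' * Y0 - 1 else N * M' * Y0) 1)
    (i := si (rf S (N * M') hM).P (2 * (h : ℤ)) (x, ry sg y)) hn hYc hwp key0
    (fun w hw hi => hix w hw (by
      have := hsw w hw
      omega))
    (fun g1 g2 g3 => by
      rw [hwall g1 g2 g3]
      exact hsw _ (D.rowW g2 g3)) y1 y2 hD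
  unfold Cf teC v0C
  rw [hLY]
  simp only [Nat.cast_lt, Nat.cast_inj] at K
  by_cases hA : (rf S (N * M') hM).m2 ≤ si (rf S (N * M') hM).P (2 * (h : ℤ)) (x, ry sg y) ∧
    si (rf S (N * M') hM).P (2 * (h : ℤ)) (x, ry sg y) < (rf S (N * M') hM).m3
  · simp only [hA, and_self, true_iff]
    rw [K]
    generalize (_ ∨ _ : Prop) = B
    generalize (_ ∧ _ ∧ _ : Prop) = C
    by_cases hB : B <;> by_cases hC : C <;> simp [hB, hC]
  · simp only [hA, false_iff, not_not]
    rw [K]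

/-- tiles: `ww_col` for labels -/
lemma ww_lab {x v : ℤ} (hT : lt (x, v) ∈ LamC (rf S (N * M') hM).P.Q (2 * (h : ℤ)))
    (h0 : ct (2 * (h : ℤ)) (x, v) ∉ (rf S (N * M') hM).P.Q)
    (hD : lt (x, v) ∉ Del (rf S (N * M') hM).P.Q (2 * (h : ℤ)) p) :
    lt (x, v) ∈ WC (rf S (N * M') hM).P (2 * (h : ℤ)) (κz (rf S (N * M') hM) h p) ↔
      ¬ (lt (x, v) ∈ WC (rf S (N * M') hM).P (2 * (h : ℤ)) (fun i v =>
          Cf (rf S (N * M') hM) (teC (rf S (N * M') hM) sg (N * M') bw Y0)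
            (v0C (2 * (h : ℤ) * (N * M')) Y0) i v) ↔
        (x = 2 * (h : ℤ) * (N * M') * bw ∧ ry sg p.2 < ry sg v ∧
          ry sg v < yc sg (2 * (h : ℤ) * (N * M')) Y0)) := by
  have hn : (0 : ℤ) < 2 * h := by have := D.n4; omega
  have hT' := (Pool.Agent.H2.W.Run.mem_LamC hn).1 hT
  rw [tt_lt] at hT'
  have K := ww_col D W (x := x) (y := ry sg v) (by rw [ry_ry]; exact hT'.2) (by rw [ry_ry]; exact h0) (by
    rintro ⟨h1, h2⟩
    apply hD
    rw [(dh_wide D W).mem_Del]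
    have : v = p.2 := by
      have := congrArg (ry sg) h2
      rwa [ry_ry, ry_ry] at this
    have x2 := W.x2
    exact ⟨this, by omega, h1.le⟩)
  rw [ry_ry] at K
  rw [lt_mem_WC, lt_mem_WC]
  simp only [hT, h0, not_false_eq_true, true_and]
  exact K

omit W D in
lemma bb_rl {pl : Cell → Option (ℤ × ℤ)} (hn : (0 : ℤ) < 2 * h) {e : ℤ × ℤ}
    (he : (e.1 + e.2) % 2 = 1) :
    bb (fun x y => pl (x / (2 * h), ry sg y / (2 * h))) (rl sg e) =
      Sum.map (rl sg) id (bk (2 * (h : ℤ)) pl e) := by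
  have e1 : e = lt ((tt e).1, (tt e).2) := (lt_tt he).symm
  have e2 : rl sg e = lt ((tt e).1, ry sg (tt e).2) := by rw [e1, rl_lt, ← e1]
  unfold bb bk
  rw [e2, cx_lt, cy_lt, ← e2]
  simp only [ry_ry]
  unfold ct
  rcases pl ((tt e).1 / (2 * (h : ℤ)), (tt e).2 / (2 * (h : ℤ))) with _ | q <;> rfl

/-- **The value of the world of an end in the wide room.** -/
theorem ww_val (hh : 2 ≤ h) :
    val ((pic S b N M' h hM sg P be bt bw Y0 k0').WW (rfl' sg p)) (eW (lt (rfl' sg p)))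
      (fun j => (Pool.Agent.H13.W.mkG sg (Pool.Agent.H22.W.Vc.mks (rf S (N * M') hM) (2 * h)) j).al
        (pic S b N M' h hM sg P be bt bw Y0 k0').W0) tv =
    hV (rf S (N * M') hM).P (2 * (h : ℤ)) (κz (rf S (N * M') hM) h p)
      (Del (rf S (N * M') hM).P.Q (2 * (h : ℤ)) p) (plV (chG S.P.Q) b N M') (eW (lt p))
      (fun j => XA (rf S (N * M') hM) h (κz (rf S (N * M') hM) h p) (mkI (rf S (N * M') hM) j)) := by
  classical
  have hn : (0 : ℤ) < 2 * h := by have := D.n4; omega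
  have H := dh_wide D W
  set T := rf S (N * M') hM with hTd
  set A : WD ((ℤ × ℤ) ⊕ (ℤ × ℤ)) := Pool.Agent.H19.W.VC T.P (2 * (h : ℤ)) (κz T h p)
    (Del T.P.Q (2 * (h : ℤ)) p) (plV (chG S.P.Q) b N M') with hA
  have e1 : rfl' sg p = (p.1, ry sg p.2) := by
    unfold rfl' ry; cases sg <;> rfl
  have e2 : eW (lt (rfl' sg p)) = rl sg (eW (lt p)) := by
    rw [e1]; unfold eW; rw [← rl_lt]
  -- the far ends
  have e3 : ∀ j, (Pool.Agent.H13.W.mkG sg (Pool.Agent.H22.W.Vc.mks T (2 * h)) j).al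
      (pic S b N M' h hM sg P be bt bw Y0 k0').W0 = rl sg (XA T h (κz T h p) (mkI T j)) := by
    intro j
    have e4 : (pic S b N M' h hM sg P be bt bw Y0 k0').W0 = rlF sg (WC T.P (2 * h) (fun i v =>
      Cf T (teC T sg (N * M') bw Y0) (v0C (2 * h * (N * M')) Y0) i v)) := rfl
    rw [e4, Pool.Agent.H13.W.al_mkG (Pool.Agent.H13.W.mks_sy j)]
    congr 1
    have hc := Pool.Agent.H22.W.Vc.mks_cvx (S := T) (n := 2 * h) D.n4 j
    rw [← Pool.Agent.H22.W.Vc.al_mkv (i := mkI T j) (w := WC T.P (2 * h) (κz T h p)) Iff.rfl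
      ((Pool.Agent.H22.W.Vc.cl_kz hh H).mkc _ ⟨j, rfl⟩)]
    refine Pool.Agent.H13.W.al_ext ?_
    have c1 := hc.nh
    have c2 := hc.tc_hn
    have c3 := ((H.dc D.n4).mD hc).2.1
    have c4 := hc.room
    have c5 := hc.2.1
    generalize Pool.Agent.H22.W.Vc.mks T (2 * h) j = m at *
    have c6 : lt (m.u + m.sx, m.v) ∈ LamC T.P.Q (2 * (h : ℤ)) := by
      rw [Pool.Agent.H2.W.Run.mem_LamC hn, tt_lt]
      refine ⟨lt_odd _, ?_⟩
      obtain ⟨a, b', g1, g2, g3⟩ := c2
      refine ⟨(a, b'), ?_, ?_, g3⟩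
      · simp only; rw [abs_le]; omega
      · simp only; rw [abs_le]; omega
    have c7 := ww_lab D W c6 c1 c3
    have c8 : ¬ (m.u + m.sx = 2 * (h : ℤ) * (N * M') * bw ∧ ry sg p.2 < ry sg m.v ∧
        ry sg m.v < yc sg (2 * (h : ℤ) * (N * M')) Y0) := by
      rintro ⟨g1, g2, g3⟩
      have hL := D.L4
      have y1 := W.y1
      have g4 : ry sg m.v - 1 ≤ ry sg (m.v + m.sy) ∧ ry sg (m.v + m.sy) ≤ ry sg m.v + 1 := by
        cases sg
        · simp only [ry_false]; omega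
        · simp only [ry_true]; omega
      have g5 := outW D (x := m.u + m.sx) (y := ry sg (m.v + m.sy)) (by omega) (by omega) (by omega) (by omega)
      rw [ry_ry] at g5
      exact g5 c4
    show lt (m.u + m.sx, m.v) ∈ _ ↔ lt (m.u + m.sx, m.v) ∈ _
    rw [c7]
    tauto
  rw [e2]
  simp only [e3]
  have key := val_rl sg (A := A) (B := (pic S b N M' h hM sg P be bt bw Y0 k0').WW (rfl' sg p)) ?_ ?_ ?_ ?_ ?_
    (eW (lt p)) (fun j => XA T h (κz T h p) (mkI T j)) tv
  · rw [key]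
    unfold val hV
    refine sum_congr rfl fun j _ => ?_
    have e5 : ∀ ω : Finset (ℤ × ℤ), A.G ω = Pool.Agent.H13.W.SG (LamC T.P.Q (2 * (h : ℤ)) : Set (ℤ × ℤ))
        (Del T.P.Q (2 * (h : ℤ)) p) (ω ∪ WC T.P (2 * (h : ℤ)) (κz T h p)) := by
      intro ω
      show Pool.Agent.H13.W.SG _ _ (symmDiff ω ∅ ∪ _) = _
      congr 2
      ext e
      simp [mem_symmDiff]
    simp only [e5]
    rfl
  · rfl
  · intro e he e' he'
    have o1 : (e.1 + e.2) % 2 = 1 := ((mem_TL hn).1 he).1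
    have o2 : (e'.1 + e'.2) % 2 = 1 := ((mem_TL hn).1 he').1
    show bk (2 * (h : ℤ)) _ e = bk _ _ e' ↔ bb _ (rl sg e) = bb _ (rl sg e')
    have b1 := bb_rl (h := h) (sg := sg) (pl := plV (chG S.P.Q) b N M') hn o1
    have b2 := bb_rl (h := h) (sg := sg) (pl := plV (chG S.P.Q) b N M') hn o2
    have b3 : (pic S b N M' h hM sg P be bt bw Y0 k0').pl =
      fun x y => plV (chG S.P.Q) b N M' (x / (2 * h), ry sg y / (2 * h)) := rfl
    rw [b3, b1, b2]
    have inj : Function.Injective (Sum.map (rl sg) id : (ℤ × ℤ) ⊕ (ℤ × ℤ) → (ℤ × ℤ) ⊕ (ℤ × ℤ)) :=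
      Sum.map_injective.2 ⟨fun a a' ha => by rw [← rl_rl sg a, ha, rl_rl], fun a a' ha => ha⟩
    exact inj.eq_iff.symm
  · intro e
    exact mem_rlF
  · intro e he
    have o1 : (e.1 + e.2) % 2 = 1 := ((Pool.Agent.H2.W.Run.mem_LamC hn).1 he).1
    obtain ⟨x, v, rfl⟩ : ∃ x v, e = lt (x, v) := ⟨_, _, (lt_tt o1).symm⟩
    show rl sg (lt (x, v)) ∈ (pic S b N M' h hM sg P be bt bw Y0 k0').DW (rfl' sg p).1 (rfl' sg p).2 ↔ _ ∈ Del _ _ _
    rw [H.mem_Del, rl_lt, e1]
    unfold Pic.DW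
    rw [Set.mem_ofPred_eq, cx_lt, cy_lt]
    have b4 : (pic S b N M' h hM sg P be bt bw Y0 k0').xw = 2 * (h : ℤ) * (N * M') * bw := rfl
    rw [b4]
    constructor
    · rintro ⟨-, g1, g2, g3⟩
      have : v = p.2 := by
        have := congrArg (ry sg) g1
        rwa [ry_ry, ry_ry] at this
      exact ⟨this, g2, g3⟩
    · rintro ⟨g1, g2, g3⟩
      exact ⟨lt_odd _, by rw [g1], g2, g3⟩
  · intro ω hω e he hD
    have o1 : (e.1 + e.2) % 2 = 1 := ((Pool.Agent.H2.W.Run.mem_LamC hn).1 he).1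
    obtain ⟨x, v, rfl⟩ : ∃ x v, e = lt (x, v) := ⟨_, _, (lt_tt o1).symm⟩
    have key : rl sg (lt (x, v)) ∈ (pic S b N M' h hM sg P be bt bw Y0 k0').KW (ry sg p.2) ↔
        lt (x, v) ∈ WC T.P (2 * (h : ℤ)) (κz T h p) := by
      have k1 : rl sg (lt (x, v)) ∈ (pic S b N M' h hM sg P be bt bw Y0 k0').W0 ↔
          lt (x, v) ∈ WC T.P (2 * (h : ℤ)) (fun i v =>
            Cf T (teC T sg (N * M') bw Y0) (v0C (2 * h * (N * M')) Y0) i v) := by
        show rl sg (lt (x, v)) ∈ rlF sg _ ↔ _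
        rw [mem_rlF, rl_rl]
      have k2 : rl sg (lt (x, v)) ∈ (pic S b N M' h hM sg P be bt bw Y0 k0').Λ := by
        show rl sg (lt (x, v)) ∈ rlF sg _
        rw [mem_rlF, rl_rl]
        exact he
      have k3 : rl sg (lt (x, v)) ∈ (pic S b N M' h hM sg P be bt bw Y0 k0').E ↔
          ct (2 * (h : ℤ)) (x, v) ∈ T.P.Q := by
        show rl sg (lt (x, v)) ∈ rlF sg _ ↔ _
        rw [mem_rlF, rl_rl, lt_mem_TL hn]
      unfold Pic.KW
      rw [mem_symmDiff, mem_filter, mem_sdiff, k1, k3]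
      by_cases hc : ct (2 * (h : ℤ)) (x, v) ∈ T.P.Q
      · have k4 : lt (x, v) ∉ WC T.P (2 * (h : ℤ)) (κz T h p) := fun h' => (lt_mem_WC.1 h').2.1 hc
        have k5 : lt (x, v) ∉ WC T.P (2 * (h : ℤ)) (fun i v =>
            Cf T (teC T sg (N * M') bw Y0) (v0C (2 * h * (N * M')) Y0) i v) := fun h' => (lt_mem_WC.1 h').2.1 hc
        simp [k4, k5, hc]
      · have k4 := ww_lab D W he hc hD
        rw [k4, rl_lt, cx_lt, cy_lt]
        have b4 : (pic S b N M' h hM sg P be bt bw Y0 k0').xw = 2 * (h : ℤ) * (N * M') * bw := rfl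
        have b5 : (pic S b N M' h hM sg P be bt bw Y0 k0').Yc = yc sg (2 * (h : ℤ) * (N * M')) Y0 := rfl
        rw [b4, b5]
        rw [rl_lt] at k2
        simp only [k2, hc, not_false_eq_true, and_self, true_and]
        tauto
    show rl sg (lt (x, v)) ∈ symmDiff (rlF sg ω) ∅ ∪ (pic S b N M' h hM sg P be bt bw Y0 k0').KW (rfl' sg p).2 ↔
      lt (x, v) ∈ symmDiff ω ∅ ∪ WC T.P (2 * (h : ℤ)) (κz T h p)
    rw [mem_union, mem_union, e1, key, mem_symmDiff, mem_symmDiff, mem_rlF, rl_rl]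
    simp

end

end Pool.Agent.H82.W
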