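import Mathlib
import Pool.Agent.H82.W.VWw
import Pool.Agent.H41.W.GCc

set_option autoImplicit false
set_option linter.unusedVariables false
open Finset

/-! # StChd, V10 (W): the values in the wide room

`ewn_W` : conjunct (W) of `EWN` for the pictures `GI`. -/

namespace Pool.Agent.H82.W

open Pool.Agent.H33.Q1 (lt tt ct TL)
open Pool.Agent.H21.FM (Shape)
open Pool.Agent.Q1.M4 (Cell PType)
open Pool.Agent.H78.W
open Pool.Agent.H13.W (chG eW mkG mkK mkK_eq)
open Pool.Agent.H50.W (rf)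
open Pool.Agent.H74.W
open Filter Metric

/-- a tile coordinate in coarse units, with a margin -/
lemma coord_far {R z r : ℝ} {a L : ℤ} (hL : (L : ℝ) = R) (hR : 2 < r * R) (hr : 0 < r) {q : ℤ}
    (hq : |(q : ℝ) / R - z| < r) (h1 : (a : ℝ) + 2 * r ≤ z) (h2 : z + 2 * r ≤ a + 1) :
    L * a + 2 < q ∧ q + 2 < L * a + L := by
  have hR0 : 0 < R := by
    by_contra h
    push Not at h
    nlinarith
  rw [abs_lt] at hq
  have h3 : (a : ℝ) + r < q / R := by linarith [hq.1]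
  have h4 : (q : ℝ) / R < a + 1 - r := by linarith [hq.2]
  rw [lt_div_iff₀ hR0] at h3
  rw [div_lt_iff₀ hR0] at h4
  have h5 : ((L * a + 2 : ℤ) : ℝ) < ((q : ℤ) : ℝ) := by push_cast; rw [hL]; linarith
  have h6 : ((q + 2 : ℤ) : ℝ) < ((L * a + L : ℤ) : ℝ) := by push_cast; rw [hL]; linarith
  exact ⟨by exact_mod_cast h5, by exact_mod_cast h6⟩

/-- **Tiles near a point of the wide room.** -/
theorem widP_near {z1 : ℂ} {X Y bw : ℤ} {sg : Bool} (h1 : (X : ℝ) < z1.re) (h2 : z1.re < X + 1)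
    (hbw : X + 1 ≤ bw)
    (h3 : if sg then (Y : ℝ) - 1 < z1.im ∧ z1.im < Y else (Y : ℝ) < z1.im ∧ z1.im < Y + 1) :
    ∃ r > (0 : ℝ), ∀ᶠ k : ℕ × ℕ in lK, 0 < k.1 * k.2 ∧ ∀ h : ℕ, 1 ≤ h → ∀ p : ℤ × ℤ, dist (ps k h p) z1 < r →
      WidP k.1 k.2 h sg X bw Y p := by
  set Yb : ℤ := if sg then Y - 1 else Y with hYb
  have h4 : (Yb : ℝ) < z1.im ∧ z1.im < Yb + 1 := by
    cases sg
    · simp only [Bool.false_eq_true, if_false] at h3 hYb
      rw [hYb]; exact h3
    · simp only [if_true] at h3 hYb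
      rw [hYb]; push_cast
      exact ⟨h3.1, by linarith [h3.2]⟩
  set r := min (min ((z1.re - X) / 2) ((X + 1 - z1.re) / 2)) (min ((z1.im - Yb) / 2) ((Yb + 1 - z1.im) / 2))
    with hr
  have hr0 : 0 < r := lt_min (lt_min (by linarith) (by linarith)) (lt_min (by linarith [h4.1]) (by linarith [h4.2]))
  have r1 : r ≤ (z1.re - X) / 2 := (min_le_left _ _).trans (min_le_left _ _)
  have r2 : r ≤ (X + 1 - z1.re) / 2 := (min_le_left _ _).trans (min_le_right _ _)
  have r3 : r ≤ (z1.im - Yb) / 2 := (min_le_right _ _).trans (min_le_left _ _)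
  have r4 : r ≤ (Yb + 1 - z1.im) / 2 := (min_le_right _ _).trans (min_le_right _ _)
  refine ⟨r, hr0, ?_⟩
  rw [eventually_lK]
  filter_upwards [eventually_gt_atTop ⌈2 / r⌉₊] with N hN
  filter_upwards [eventually_gt_atTop 0] with M' hM'
  have hN0 : 0 < N := by omega
  refine ⟨Nat.mul_pos hN0 hM', fun h hh p hp => ?_⟩
  have hNr : 2 / r < N := by
    have := Nat.le_ceil (2 / r)
    have h3 : ((⌈2 / r⌉₊ : ℕ) : ℝ) < N := by exact_mod_cast hN
    linarith
  rw [div_lt_iff₀ hr0] at hNr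
  have hR : 2 < r * Pool.Agent.H74.W.RR (N, M') h := by
    have e : Pool.Agent.H74.W.RR (N, M') h = 2 * h * (N * M') := by
      unfold Pool.Agent.H74.W.RR; push_cast; ring
    have h5 : (1 : ℝ) ≤ h := by exact_mod_cast hh
    have h6 : (1 : ℝ) ≤ M' := by exact_mod_cast hM'
    have h7 : (N : ℝ) ≤ Pool.Agent.H74.W.RR (N, M') h := by
      rw [e]
      have h8 : (0 : ℝ) ≤ N := by positivity
      nlinarith [mul_nonneg h8 (sub_nonneg.2 h6), mul_nonneg h8 (sub_nonneg.2 h5),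
        mul_nonneg (mul_nonneg h8 (sub_nonneg.2 h6)) (sub_nonneg.2 h5)]
    nlinarith
  have hL : ((2 * (h : ℤ) * (N * M') : ℤ) : ℝ) = Pool.Agent.H74.W.RR (N, M') h := by
    unfold Pool.Agent.H74.W.RR; push_cast; ring
  have e1 : (ps (N, M') h p).re = (p.1 : ℝ) / Pool.Agent.H74.W.RR (N, M') h := by
    unfold ps Pool.Agent.Q1.M4.lat
    rw [Complex.div_ofReal_re]
  have e2 : (ps (N, M') h p).im = (p.2 : ℝ) / Pool.Agent.H74.W.RR (N, M') h := by
    unfold ps Pool.Agent.Q1.M4.lat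
    rw [Complex.div_ofReal_im]
  have a1 : |(p.1 : ℝ) / Pool.Agent.H74.W.RR (N, M') h - z1.re| < r := by
    rw [dist_eq_norm] at hp
    refine lt_of_le_of_lt ?_ hp
    have := Complex.abs_re_le_norm (ps (N, M') h p - z1)
    rwa [Complex.sub_re, e1] at this
  have a2 : |(p.2 : ℝ) / Pool.Agent.H74.W.RR (N, M') h - z1.im| < r := by
    rw [dist_eq_norm] at hp
    refine lt_of_le_of_lt ?_ hp
    have := Complex.abs_im_le_norm (ps (N, M') h p - z1)
    rwa [Complex.sub_im, e2] at this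
  obtain ⟨b1, b2⟩ := coord_far hL hR hr0 a1 (a := X) (by linarith) (by linarith)
  obtain ⟨b3, b4⟩ := coord_far hL hR hr0 a2 (a := Yb) (by linarith) (by linarith)
  have hLp : (0 : ℤ) ≤ 2 * (h : ℤ) * (N * M') := by positivity
  have hbw' : 2 * (h : ℤ) * (N * M') * (X + 1) ≤ 2 * (h : ℤ) * (N * M') * bw :=
    mul_le_mul_of_nonneg_left hbw hLp
  refine ⟨by linarith, by linarith, ?_, ?_⟩
  · show yc sg (2 * (h : ℤ) * (N * M')) Y - 2 * (h : ℤ) * (N * M') < ry sg p.2
    unfold yc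
    cases sg
    · simp only [Bool.false_eq_true, if_false, ry_false] at hYb ⊢
      rw [hYb] at b3 b4
      linarith
    · simp only [if_true, ry_true] at hYb ⊢
      rw [hYb] at b3 b4
      linarith
  · show ry sg p.2 + 1 < yc sg (2 * (h : ℤ) * (N * M')) Y
    unfold yc
    cases sg
    · simp only [Bool.false_eq_true, if_false, ry_false] at hYb ⊢
      rw [hYb] at b3 b4
      linarith
    · simp only [if_true, ry_true] at hYb ⊢
      rw [hYb] at b3 b4
      linarith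

/-- **(W)** : the values in the wide room. -/
theorem ewn_W {S : Shape} {b X Y be bt bw aL : ℤ} {sg P : Bool} {z0 : ℂ} {σ : ℝ}
    (C : Cc S.P.Q sg X be bt bw Y P) (hb : ∀ c ∈ chG S.P.Q, c.1 < b) (ha : ∀ c ∈ chG S.P.Q, aL ≤ c.1)
    (h1 : (X : ℝ) < z0.re) (hσ : 0 < σ) (h2 : z0.re + σ < X + 1) (h3 : z0.im = Y) (h4 : (X : ℝ) ≤ z0.re - σ)
    (h5 : σ ≤ 1) {z1 : ℂ} (hz : z1 ∈ ball z0 σ) (hs : if sg then z1.im < z0.im else z0.im < z1.im) :
    ∃ r > (0 : ℝ), ∀ᶠ k in lK, ∀ᶠ h : ℕ in atTop, ∀ p : ℤ × ℤ, dist (ps k h p) z1 < r →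
      HF S b k h p = val ((GI S b sg P be bt bw Y z0 σ k h).WW (rfl' sg p)) (eW (lt (rfl' sg p)))
        (fun j => (mkG sg (mkK S k h) j).al (GI S b sg P be bt bw Y z0 σ k h).W0) tv := by
  rw [mem_ball, dist_eq_norm] at hz
  have a1 : |z1.re - z0.re| < σ := by
    have := Complex.abs_re_le_norm (z1 - z0)
    rw [Complex.sub_re] at this
    exact this.trans_lt hz
  have a2 : |z1.im - z0.im| < σ := by
    have := Complex.abs_im_le_norm (z1 - z0)
    rw [Complex.sub_im] at this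
    exact this.trans_lt hz
  rw [abs_lt] at a1 a2
  have hbw : X + 1 ≤ bw := by have := C.l1; have := C.l2; have := C.l3; omega
  obtain ⟨r, hr, H⟩ := widP_near (z1 := z1) (X := X) (Y := Y) (bw := bw) (sg := sg) (by linarith) (by linarith) hbw (by
    cases sg
    · simp only [Bool.false_eq_true, if_false] at hs ⊢
      rw [h3] at a2 hs
      exact ⟨hs, by linarith⟩
    · simp only [if_true] at hs ⊢
      rw [h3] at a2 hs
      exact ⟨by linarith, hs⟩)
  refine ⟨r, hr, ?_⟩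
  filter_upwards [H, gi_D C hb ha h1 hσ h2] with k k1 k2
  obtain ⟨hM, hD⟩ := k2
  filter_upwards [eventually_ge_atTop 2] with h hh p hp
  have D := hD h hh
  have W := k1.2 h (by omega) p hp
  have hx : ∃ t, Ex (rf S (k.1 * k.2) hM) h p t :=
    ⟨_, (Pool.Agent.H22.W.Vc.ex_iff hh (dh_wide D W) _).2 rfl⟩
  rw [GI_eq hM, mkK_eq hM, ww_val D W hh]
  exact Pool.Agent.H41.W.HF_hV hM hh hx

end Pool.Agent.H82.W
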