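import Mathlib
import Pool.Agent.H82.W.VTop5
import Pool.Agent.H82.W.VWide
import Pool.Agent.H13.W.VEwn
import Pool.Agent.H2.W.RTop
import Pool.Agent.H92.W.CcEx

set_option autoImplicit false
set_option linter.unusedVariables false
open Finset

/-! # StChd, V10: final assembly, part 6

`stChd_of_kn` : `StChd` from 19's colour identity `KnIdAll` of the narrow room; (E) is 13's `ewn_E`, (W) is
`ewn_W`, (N) is 2's `ewn_N`, the coarse data of a chord are 92's `exists_Cc`. -/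

namespace Pool.Agent.H82.W

open Pool.Agent.H21.FM (Shape)
open Pool.Agent.Q1.M4 (Cell PType)
open Pool.Agent.H78.W
open Pool.Agent.H13.W (chG ewn_E yE yWE)
open Pool.Agent.H5.C3 (Gen)
open Pool.Agent.H2.W.Run (KnIdAll dlS ewn_N)
open Pool.Agent.H74.W
open Filter Metric

theorem exCc : ExCc := fun _ hG _ _ h => Pool.Agent.H92.W.exists_Cc hG h

/-- **`EWN`** for one chord. -/
theorem ewn_all {S : Shape} (hG : Gen S.P.Q) {b : ℤ} (hb : ∀ c ∈ chG S.P.Q, c.1 < b) {X Y be bt bw : ℤ}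
    {sg P : Bool} (C : Cc S.P.Q sg X be bt bw Y P) (HK : KnIdAll S b sg P X be bt bw Y) {z0 : ℂ}
    (h1 : (X : ℝ) < z0.re) (h2 : z0.re < X + 1) (h3 : z0.im = Y) : EWN S b X Y z0 sg P be bt bw := by
  obtain ⟨aL, haL⟩ : ∃ aL : ℤ, ∀ c ∈ chG S.P.Q, aL ≤ c.1 := by
    obtain ⟨m, hm⟩ := ((chG S.P.Q).image Prod.fst).bddBelow
    exact ⟨m, fun c hc => hm (by simpa using ⟨c.2, hc⟩)⟩
  refine ⟨if dlS S sg be bw Y then 1 else 0, min (min (z0.re - X) (X + 1 - z0.re)) (1 / 2),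
    by split_ifs <;> norm_num, by split_ifs <;> norm_num,
    lt_min (lt_min (by linarith) (by linarith)) (by norm_num), fun σ hσ hσ2 => ?_⟩
  have r1 : σ < z0.re - X := hσ2.trans_le ((min_le_left _ _).trans (min_le_left _ _))
  have r2 : σ < X + 1 - z0.re := hσ2.trans_le ((min_le_left _ _).trans (min_le_right _ _))
  have r3 : σ < 1 / 2 := hσ2.trans_le (min_le_right _ _)
  exact ⟨yE S b sg P be bt bw Y z0 σ, yWE S b sg P be bt bw Y z0 σ,
    ewn_E C hb haL h1 hσ (by linarith),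
    fun z1 hz hs => ewn_W C hb haL h1 hσ (by linarith) h3 (by linarith) (by linarith) hz hs,
    ewn_N hG hb C HK hσ (by linarith) (by linarith) h3 r3.le⟩

/-- **StChd** from the colour identity of the narrow room. -/
theorem stChd_of_kn (HK : ∀ S : Shape, Gen S.P.Q → ∀ b : ℤ, (∀ c ∈ chG S.P.Q, c.1 < b) →
    ∀ (X Y be bt bw : ℤ) (sg P : Bool), Cc S.P.Q sg X be bt bw Y P → KnIdAll S b sg P X be bt bw Y) :
    Pool.Agent.H74.W.StChd :=
  stChd_fin exCc fun S hG b hb z0 X Y sg P be bt bw _ h1 h2 h3 C =>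
    ewn_all hG hb C (HK S hG b hb X Y be bt bw sg P C) h1 h2 h3

end Pool.Agent.H82.W
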