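import Mathlib
import Pool.Agent.H82.W.VTop6
import Pool.Agent.H2.W.RKn

set_option autoImplicit false

/-! # StChd -/

namespace Pool.Agent.H82.W

/-- **StChd.** -/
theorem stChd : Pool.Agent.H74.W.StChd :=
  stChd_of_kn fun _ _ _ _ _ _ _ _ _ _ _ _ => Pool.Agent.H2.W.Run.kn_all

end Pool.Agent.H82.W
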